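import Mathlib
/-!
# ALG : the algebra of the wedge `W = {|Y| < y}`

Notation: `p = (C, -S)`, `n = (S, C)`, `R² = C² + S²`, centre `c = -κ n`, contact point `z = (x₀, y₀)`,
`E = z - c = (E₁, E₂)`, `E₁² + E₂² = R²`, `⟨n, E⟩ = S E₁ + C E₂ > κ R²` (equivalent to `⟨n, z⟩ > 0`),
`a = γ + i σ`, `γ = (E₁ C + E₂ S)/R²`, `σ = (E₂ C - E₁ S)/R²` (so `γ² + σ² = 1`),
`T y = a * conj (y - c) = (X, Y)`, `X = γ (x + κ S) + σ (y + κ C)`, `Y = σ (x + κ S) - γ (y + κ C)`.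
We avoid division: `G = R² γ`, `H = R² σ`, `R² X`, `R² Y`.
-/
namespace MStress

variable {C S κ E₁ E₂ : ℝ}

theorem algA1 (hC : 0 ≤ C) (hS : 0 ≤ S) (hκ : 0 < κ) (hE : E₁ ^ 2 + E₂ ^ 2 = C ^ 2 + S ^ 2)
    (hn : κ * (C ^ 2 + S ^ 2) < S * E₁ + C * E₂) (hσ : 0 < E₂ * C - E₁ * S) : 0 < C ∧ S < E₂ := by
  have hR0 : 0 ≤ C ^ 2 + S ^ 2 := by positivity
  have hκR : 0 ≤ κ * (C ^ 2 + S ^ 2) := by positivity
  have hCpos : 0 < C := by
    rcases hC.lt_or_eq with h | h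
    · exact h
    · exfalso
      subst h
      nlinarith
  refine ⟨hCpos, ?_⟩
  have h1 : 0 < C * E₂ := by nlinarith
  have hE2 : 0 < E₂ := by
    by_contra h
    push Not at h
    nlinarith
  -- (C E2)^2 > (S E1)^2
  have h2 : (S * E₁) ^ 2 < (C * E₂) ^ 2 := by
    have ha : 0 < C * E₂ - S * E₁ := by nlinarith
    have hb : 0 < C * E₂ + S * E₁ := by nlinarith
    nlinarith [mul_pos ha hb]
  have hR : 0 < C ^ 2 + S ^ 2 := by positivity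
  have h3 : 0 < (C ^ 2 + S ^ 2) * (E₂ ^ 2 - S ^ 2) := by nlinarith
  have h4 : 0 < E₂ ^ 2 - S ^ 2 := by
    by_contra h
    push Not at h
    nlinarith
  nlinarith

/-- main inequality behind (A2), (A3): `σ ⟨n,(x,y)⟩ ≥ (E₂ - S) y + κ S E₁` (times `R²`) -/
theorem alg_aux (hS : 0 ≤ S) (hE : E₁ ^ 2 + E₂ ^ 2 = C ^ 2 + S ^ 2) {x y : ℝ}
    (hY : -((E₂ * C - E₁ * S) * (x + κ * S) - (E₁ * C + E₂ * S) * (y + κ * C)) ≤
      (C ^ 2 + S ^ 2) * y) :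
    (C ^ 2 + S ^ 2) * ((E₂ - S) * y + κ * S * E₁) ≤ (E₂ * C - E₁ * S) * (S * x + C * y) := by
  -- identity: σ n·(x,y) R² - R² ((E2-S) y + κ S E1) = S * (R² y + Y')
  have hid : (E₂ * C - E₁ * S) * (S * x + C * y) - (C ^ 2 + S ^ 2) * ((E₂ - S) * y + κ * S * E₁)
      = S * ((C ^ 2 + S ^ 2) * y +
        ((E₂ * C - E₁ * S) * (x + κ * S) - (E₁ * C + E₂ * S) * (y + κ * C))) := by
    ring
  have : 0 ≤ S * ((C ^ 2 + S ^ 2) * y +
        ((E₂ * C - E₁ * S) * (x + κ * S) - (E₁ * C + E₂ * S) * (y + κ * C))) := by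
    apply mul_nonneg hS
    linarith
  linarith

/-- (A2), with `X' = R² X`, `Y' = R² Y` -/
theorem algA2 (hC : 0 ≤ C) (hS : 0 ≤ S) (hκ : 0 < κ) (hE : E₁ ^ 2 + E₂ ^ 2 = C ^ 2 + S ^ 2)
    (hn : κ * (C ^ 2 + S ^ 2) < S * E₁ + C * E₂) (hσ : 0 < E₂ * C - E₁ * S) {x y : ℝ}
    (hY : |(E₂ * C - E₁ * S) * (x + κ * S) - (E₁ * C + E₂ * S) * (y + κ * C)| ≤
      (C ^ 2 + S ^ 2) * y) :
    ((C ^ 2 + S ^ 2) * x) ^ 2 <
      ((E₁ * C + E₂ * S) * (x + κ * S) + (E₂ * C - E₁ * S) * (y + κ * C)) ^ 2 := by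
  obtain ⟨hCpos, hE2⟩ := algA1 hC hS hκ hE hn hσ
  have hR : 0 < C ^ 2 + S ^ 2 := by positivity
  have hy0 : 0 ≤ y := by
    have := (abs_nonneg _).trans hY
    by_contra h
    push Not at h
    nlinarith
  have h1 := alg_aux (κ := κ) (x := x) (y := y) hS hE (by
    have := neg_abs_le ((E₂ * C - E₁ * S) * (x + κ * S) - (E₁ * C + E₂ * S) * (y + κ * C))
    linarith)
  -- Y'^2 ≤ (R² y)^2
  have h2 : ((E₂ * C - E₁ * S) * (x + κ * S) - (E₁ * C + E₂ * S) * (y + κ * C)) ^ 2 ≤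
      ((C ^ 2 + S ^ 2) * y) ^ 2 := by
    rw [← sq_abs ((E₂ * C - E₁ * S) * (x + κ * S) - (E₁ * C + E₂ * S) * (y + κ * C))]
    exact pow_le_pow_left₀ (abs_nonneg _) hY 2
  -- X'^2 + Y'^2 = R^4 ((x+κS)^2 + (y+κC)^2)
  have hid : ((E₁ * C + E₂ * S) * (x + κ * S) + (E₂ * C - E₁ * S) * (y + κ * C)) ^ 2 +
      ((E₂ * C - E₁ * S) * (x + κ * S) - (E₁ * C + E₂ * S) * (y + κ * C)) ^ 2 =
      (C ^ 2 + S ^ 2) ^ 2 * ((x + κ * S) ^ 2 + (y + κ * C) ^ 2) := by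
    have : (E₁ * C + E₂ * S) ^ 2 + (E₂ * C - E₁ * S) ^ 2 = (C ^ 2 + S ^ 2) ^ 2 := by
      calc (E₁ * C + E₂ * S) ^ 2 + (E₂ * C - E₁ * S) ^ 2 = (E₁ ^ 2 + E₂ ^ 2) * (C ^ 2 + S ^ 2) := by ring
        _ = (C ^ 2 + S ^ 2) ^ 2 := by rw [hE]; ring
    calc _ = ((E₁ * C + E₂ * S) ^ 2 + (E₂ * C - E₁ * S) ^ 2) *
        ((x + κ * S) ^ 2 + (y + κ * C) ^ 2) := by ring
      _ = _ := by rw [this]
  -- key: κ R² + 2 ⟨n,(x,y)⟩ > 0
  have hpos : 0 < κ * (C ^ 2 + S ^ 2) + 2 * (S * x + C * y) := by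
    have hE2S : 0 ≤ (E₂ - S) * y := mul_nonneg (by linarith) hy0
    have h3 : 0 < (E₂ * C - E₁ * S) * (κ * (C ^ 2 + S ^ 2) + 2 * (S * x + C * y)) := by
      have h4 : (C ^ 2 + S ^ 2) * (κ * (S * E₁ + C * E₂) + 2 * ((E₂ - S) * y)) ≤
          (E₂ * C - E₁ * S) * (κ * (C ^ 2 + S ^ 2) + 2 * (S * x + C * y)) := by
        have : (E₂ * C - E₁ * S) * (κ * (C ^ 2 + S ^ 2) + 2 * (S * x + C * y)) -
          (C ^ 2 + S ^ 2) * (κ * (S * E₁ + C * E₂) + 2 * ((E₂ - S) * y)) =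
          2 * ((E₂ * C - E₁ * S) * (S * x + C * y) -
            (C ^ 2 + S ^ 2) * ((E₂ - S) * y + κ * S * E₁)) := by ring
        linarith
      have h5 : 0 < (C ^ 2 + S ^ 2) * (κ * (S * E₁ + C * E₂) + 2 * ((E₂ - S) * y)) := by
        apply mul_pos hR
        have : 0 < S * E₁ + C * E₂ := lt_of_le_of_lt (by positivity) hn
        have := mul_pos hκ this
        linarith
      linarith
    exact (mul_pos_iff_of_pos_left hσ).1 h3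
  have hfin : 0 < (C ^ 2 + S ^ 2) ^ 2 * (κ * (κ * (C ^ 2 + S ^ 2) + 2 * (S * x + C * y))) := by
    positivity
  nlinarith [h2, hid, hfin]

/-- (E) -/
theorem algE (hC : 0 ≤ C) (hS : 0 ≤ S) (hκ : 0 < κ) (hE : E₁ ^ 2 + E₂ ^ 2 = C ^ 2 + S ^ 2)
    (hn : κ * (C ^ 2 + S ^ 2) < S * E₁ + C * E₂) (hσ : 0 < E₂ * C - E₁ * S) :
    -(κ * E₁) ≤ E₂ - S := by
  obtain ⟨hCpos, hE2⟩ := algA1 hC hS hκ hE hn hσ
  have hR : 0 < C ^ 2 + S ^ 2 := by positivity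
  rcases le_or_gt 0 E₁ with h | h
  · have := mul_nonneg hκ.le h
    linarith
  · -- R² (E₂ - S) + E₁ (S E₁ + C E₂) = E₂ (R² - S E₂ + C E₁)
    have h1 : κ * (C ^ 2 + S ^ 2) * (-E₁) ≤ (S * E₁ + C * E₂) * (-E₁) :=
      mul_le_mul_of_nonneg_right hn.le (by linarith)
    have h2 : (C ^ 2 + S ^ 2) * (E₂ - S) + E₁ * (S * E₁ + C * E₂) =
        E₂ * ((C ^ 2 + S ^ 2) - S * E₂ + C * E₁) := by
      have : E₁ ^ 2 = C ^ 2 + S ^ 2 - E₂ ^ 2 := by linarith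
      calc (C ^ 2 + S ^ 2) * (E₂ - S) + E₁ * (S * E₁ + C * E₂)
          = (C ^ 2 + S ^ 2) * (E₂ - S) + S * E₁ ^ 2 + C * E₁ * E₂ := by ring
        _ = _ := by rw [this]; ring
    have h3 : 0 ≤ (C ^ 2 + S ^ 2) - S * E₂ + C * E₁ := by
      nlinarith [sq_nonneg (S - E₂), sq_nonneg (C + E₁)]
    have h4 : 0 ≤ E₂ * ((C ^ 2 + S ^ 2) - S * E₂ + C * E₁) := mul_nonneg (by linarith) h3
    have h5 : 0 ≤ (C ^ 2 + S ^ 2) * ((E₂ - S) + κ * E₁) := by nlinarith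
    have h6 := (mul_nonneg_iff_of_pos_left hR).1 h5
    linarith

/-- (A3) -/
theorem algA3 (hC : 0 ≤ C) (hS : 0 ≤ S) (hκ : 0 < κ) (hE : E₁ ^ 2 + E₂ ^ 2 = C ^ 2 + S ^ 2)
    (hn : κ * (C ^ 2 + S ^ 2) < S * E₁ + C * E₂) (hσ : 0 < E₂ * C - E₁ * S) {x y : ℝ}
    (hY : |(E₂ * C - E₁ * S) * (x + κ * S) - (E₁ * C + E₂ * S) * (y + κ * C)| <
      (C ^ 2 + S ^ 2) * y) (hle : S * x + C * y ≤ 0) : |x| < C ∧ |y| < S := by
  obtain ⟨hCpos, hE2⟩ := algA1 hC hS hκ hE hn hσ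
  have hEE := algE hC hS hκ hE hn hσ
  have hR : 0 < C ^ 2 + S ^ 2 := by positivity
  have hy0 : 0 < y := by
    have := (abs_nonneg _).trans_lt hY
    exact (mul_pos_iff_of_pos_left hR).1 this
  have hSpos : 0 < S := by
    rcases hS.lt_or_eq with h | h
    · exact h
    · exfalso
      rw [← h] at hle
      nlinarith
  set Y' := (E₂ * C - E₁ * S) * (x + κ * S) - (E₁ * C + E₂ * S) * (y + κ * C) with hY'
  have hYneg : -Y' < (C ^ 2 + S ^ 2) * y := (neg_le_abs Y').trans_lt hY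
  -- strict version of alg_aux
  have h1 : (C ^ 2 + S ^ 2) * ((E₂ - S) * y + κ * S * E₁) < (E₂ * C - E₁ * S) * (S * x + C * y) := by
    have hid : (E₂ * C - E₁ * S) * (S * x + C * y) - (C ^ 2 + S ^ 2) * ((E₂ - S) * y + κ * S * E₁)
        = S * ((C ^ 2 + S ^ 2) * y + Y') := by
      rw [hY']; ring
    have : 0 < S * ((C ^ 2 + S ^ 2) * y + Y') := mul_pos hSpos (by linarith)
    linarith
  have h2 : (C ^ 2 + S ^ 2) * ((E₂ - S) * y + κ * S * E₁) < 0 := by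
    have : (E₂ * C - E₁ * S) * (S * x + C * y) ≤ 0 := mul_nonpos_of_nonneg_of_nonpos hσ.le hle
    linarith
  have h3 : (E₂ - S) * y + κ * S * E₁ < 0 := by
    by_contra h
    push Not at h
    have := mul_nonneg hR.le h
    linarith
  have hE2S : 0 < E₂ - S := by linarith
  have hyS : y < S := by
    have : (E₂ - S) * y < (E₂ - S) * S := by
      have := mul_le_mul_of_nonneg_left hEE hS
      nlinarith
    exact lt_of_mul_lt_mul_left this hE2S.le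
  have hx0 : x < 0 := by
    by_contra h
    push Not at h
    have := mul_nonneg hS h
    have := mul_pos hCpos hy0
    linarith
  refine ⟨?_, by rw [abs_of_pos hy0]; exact hyS⟩
  rw [abs_of_neg hx0]
  -- -(H x) < (R² - G) y - R² κ E₁  where Y' + R² y > 0
  -- Y' = H x + H κ S - G y - G κ C,  H S κ - G C κ = -κ R² E₁
  have h4 : -((E₂ * C - E₁ * S) * x) < ((C ^ 2 + S ^ 2) - (E₁ * C + E₂ * S)) * y -
      κ * ((C ^ 2 + S ^ 2) * E₁) := by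
    have : Y' = (E₂ * C - E₁ * S) * x - (E₁ * C + E₂ * S) * y - κ * ((C ^ 2 + S ^ 2) * E₁) := by
      rw [hY']; ring
    linarith
  -- (E₂ - S) * RHS ≤ (E₂ - S) * H * C
  have hG : 0 ≤ (C ^ 2 + S ^ 2) - (E₁ * C + E₂ * S) := by
    nlinarith [sq_nonneg (C - E₁), sq_nonneg (S - E₂)]
  have h5 : (E₂ - S) * (((C ^ 2 + S ^ 2) - (E₁ * C + E₂ * S)) * y - κ * ((C ^ 2 + S ^ 2) * E₁)) ≤
      (E₂ - S) * ((E₂ * C - E₁ * S) * C) := by
    have h6 : ((C ^ 2 + S ^ 2) - (E₁ * C + E₂ * S)) * ((E₂ - S) * y) ≤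
        ((C ^ 2 + S ^ 2) - (E₁ * C + E₂ * S)) * (-(κ * S * E₁)) :=
      mul_le_mul_of_nonneg_left (by linarith) hG
    have h7 : (-(κ * E₁)) * ((E₂ * C - E₁ * S) * C) ≤ (E₂ - S) * ((E₂ * C - E₁ * S) * C) :=
      mul_le_mul_of_nonneg_right hEE (by positivity)
    have h8 : ((C ^ 2 + S ^ 2) - (E₁ * C + E₂ * S)) * (-(κ * S * E₁)) -
        (E₂ - S) * (κ * ((C ^ 2 + S ^ 2) * E₁)) = (-(κ * E₁)) * ((E₂ * C - E₁ * S) * C) := by
      ring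
    nlinarith
  have h9 : ((C ^ 2 + S ^ 2) - (E₁ * C + E₂ * S)) * y - κ * ((C ^ 2 + S ^ 2) * E₁) ≤
      (E₂ * C - E₁ * S) * C := le_of_mul_le_mul_left h5 hE2S
  have h10 : (E₂ * C - E₁ * S) * (-x) < (E₂ * C - E₁ * S) * C := by linarith
  exact lt_of_mul_lt_mul_left h10 hσ.le

/-- (A4); `(x₀, y₀) = (E₁ - κ S, E₂ - κ C)` -/
theorem algA4 (hC : 0 ≤ C) (hS : 0 ≤ S) (hκ : 0 < κ) (hE : E₁ ^ 2 + E₂ ^ 2 = C ^ 2 + S ^ 2)
    (hn : κ * (C ^ 2 + S ^ 2) < S * E₁ + C * E₂) (hσ : 0 < E₂ * C - E₁ * S)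
    (hy : E₂ - κ * C < S) : |E₁ - κ * S| < C ∧ |E₂ - κ * C| < S := by
  obtain ⟨hCpos, hE2⟩ := algA1 hC hS hκ hE hn hσ
  have hE1 : |E₁| < C := by
    apply abs_lt_of_sq_lt_sq _ hC
    nlinarith
  obtain ⟨hE1a, hE1b⟩ := abs_lt.1 hE1
  have hnz : 0 < S * (E₁ - κ * S) + C * (E₂ - κ * C) := by nlinarith
  have hκS : 0 ≤ κ * S := by positivity
  have hκC : 0 ≤ κ * C := by positivity
  have hSpos : 0 < S := by
    rcases hS.lt_or_eq with h | h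
    · exact h
    · exfalso
      rw [← h] at hnz hy
      nlinarith
  have h1 : -C < E₁ - κ * S := by
    by_contra h
    push Not at h
    nlinarith
  have h2 : -S < E₂ - κ * C := by
    by_contra h
    push Not at h
    nlinarith
  exact ⟨abs_lt.2 ⟨h1, by linarith⟩, abs_lt.2 ⟨h2, hy⟩⟩

/-- the degenerate direction `σ = 0` -/
theorem algA5 (hC : 0 ≤ C) (hS : 0 ≤ S) (hκ : 0 < κ) (hE : E₁ ^ 2 + E₂ ^ 2 = C ^ 2 + S ^ 2)
    (hn : κ * (C ^ 2 + S ^ 2) < S * E₁ + C * E₂) (hσ : E₂ * C - E₁ * S = 0) :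
    |E₁ - κ * S| < C ∧ |E₂ - κ * C| < S := by
  -- then E = (C, S)
  have hR0 : 0 ≤ κ * (C ^ 2 + S ^ 2) := by positivity
  have hpos : 0 < S * E₁ + C * E₂ := lt_of_le_of_lt hR0 hn
  have hR : 0 < C ^ 2 + S ^ 2 := by
    rcases (show 0 ≤ C ^ 2 + S ^ 2 by positivity).lt_or_eq with h | h
    · exact h
    · exfalso
      have hC0 : C = 0 := by nlinarith [sq_nonneg C, sq_nonneg S]
      have hS0 : S = 0 := by nlinarith [sq_nonneg C, sq_nonneg S]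
      rw [hC0, hS0] at hpos
      simp at hpos
  have hCpos : 0 < C := by
    rcases hC.lt_or_eq with h | h
    · exact h
    · exfalso
      rw [← h] at hσ hpos hR
      have : E₁ * S = 0 := by linarith
      nlinarith
  have hSpos : 0 < S := by
    rcases hS.lt_or_eq with h | h
    · exact h
    · exfalso
      rw [← h] at hσ hpos hR
      have : E₂ * C = 0 := by linarith
      nlinarith
  -- E₁ > 0, E₂ > 0
  have hprod : E₂ * C = E₁ * S := by linarith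
  have hE1pos : 0 < E₁ := by
    by_contra h
    push Not at h
    have h1 : E₁ * S ≤ 0 := mul_nonpos_of_nonpos_of_nonneg h hS
    nlinarith
  have hE2pos : 0 < E₂ := by
    by_contra h
    push Not at h
    have h1 : E₂ * C ≤ 0 := mul_nonpos_of_nonpos_of_nonneg h hC
    have : 0 < E₁ * S := mul_pos hE1pos hSpos
    linarith
  have hE1 : E₁ = C := by
    have h1 : E₁ ^ 2 * (C ^ 2 + S ^ 2) = C ^ 2 * (C ^ 2 + S ^ 2) := by
      calc E₁ ^ 2 * (C ^ 2 + S ^ 2) = C ^ 2 * E₁ ^ 2 + (E₁ * S) ^ 2 := by ring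
        _ = C ^ 2 * E₁ ^ 2 + (E₂ * C) ^ 2 := by rw [hprod]
        _ = C ^ 2 * (E₁ ^ 2 + E₂ ^ 2) := by ring
        _ = _ := by rw [hE]
    have h2 : E₁ ^ 2 = C ^ 2 := mul_right_cancel₀ hR.ne' h1
    nlinarith
  have hE2 : E₂ = S := by
    have : E₂ * C = S * C := by rw [hprod, hE1]; ring
    exact mul_right_cancel₀ hCpos.ne' this
  subst hE1 hE2
  have hnz : κ * (E₁ ^ 2 + E₂ ^ 2) < 2 * (E₁ * E₂) := by linarith
  have hκS : 0 < κ * E₂ := by positivity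
  have hκC : 0 < κ * E₁ := by positivity
  refine ⟨abs_lt.2 ⟨?_, by linarith⟩, abs_lt.2 ⟨?_, by linarith⟩⟩
  · -- -C < C - κ S
    by_contra h
    push Not at h
    -- κ S ≥ 2 C
    nlinarith [mul_pos hE1pos hE2pos]
  · by_contra h
    push Not at h
    nlinarith [mul_pos hE1pos hE2pos]

end MStress
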