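import Pool.Agent.MStress.LIP
/-!
# BDRY : the best Lipschitz constant is seen by `|∇ u|` near some boundary point

`U = Ω.indicator u`. If for every `z ∈ frontier Ω` there were `M_z < L` with `‖∇ u‖ ≤ M_z` near `z` in `Ω`,
compactness of the frontier gives `M < L`, `M ≥ 0`, `δ > 0` with `‖∇ u y‖ ≤ M` for all `y ∈ Ω` at distance
`< δ` from the frontier; then (mean value inequality on `[ζ, ζ+τ]`, whose half open part is in `Ω`;
use points `ζ' → ζ` in `Ω` if needed) `U (ζ+τ) ≤ M ‖τ‖` for `‖τ‖ < δ`, and `translation_cmp`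
shows that `M` is a local Lipschitz constant, hence a Lipschitz constant: contradiction with `hL`.
-/
open Complex Metric Set Filter Topology
open scoped ComplexConjugate Gradient
namespace MStress

variable {Ω : Set ℂ} {u : ℂ → ℝ}

theorem hasFDerivAt_indicator (hΩ : IsOpen Ω) (hu : Torsion Ω u) {x : ℂ} (hx : x ∈ Ω) :
    HasFDerivAt (Ω.indicator u) (InnerProductSpace.toDual ℝ ℂ (∇ u x)) x := by
  have h1 : DifferentiableAt ℝ u x :=
    ((hu.smooth.contDiffAt (hΩ.mem_nhds hx)).differentiableAt (by norm_num))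
  have h2 : HasGradientAt u (∇ u x) x := h1.hasGradientAt
  have h3 : HasFDerivAt u (InnerProductSpace.toDual ℝ ℂ (∇ u x)) x := h2.hasFDerivAt
  refine h3.congr_of_eventuallyEq ?_
  filter_upwards [hΩ.mem_nhds hx] with y hy
  exact Set.indicator_of_mem hy u

theorem frontier_nonempty (hΩ : AxDomain Ω) : (frontier Ω).Nonempty := by
  by_contra hne
  rw [Set.not_nonempty_iff_eq_empty] at hne
  have h1 : IsClopen Ω := isClopen_iff_frontier_eq_empty.2 hne
  rcases isClopen_iff.1 h1 with h2 | h2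
  · exact hΩ.nonempty.ne_empty h2
  · have := hΩ.bounded
    rw [h2] at this
    exact NormedSpace.unbounded_univ ℝ ℂ this

theorem exists_bdry (hΩ : AxDomain Ω) (hu : Torsion Ω u) {L : ℝ}
    (hL : ∀ M : ℝ, 0 ≤ M → M < L →
      ¬ ∀ x y : ℂ, |Ω.indicator u x - Ω.indicator u y| ≤ M * ‖x - y‖) :
    ∃ z ∈ frontier Ω, ∀ M < L, ∃ᶠ y in 𝓝[Ω] z, M < ‖∇ u y‖ := by
  by_contra hcon
  push Not at hcon
  have hT : Tor Ω (Ω.indicator u) := Torsion.tor hΩ.isOpen hu
  have hcl : ∀ z ∈ frontier Ω, (𝓝[Ω] z).NeBot := fun z hz =>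
    mem_closure_iff_nhdsWithin_neBot.1 (frontier_subset_closure hz)
  have hLpos : 0 < L := by
    obtain ⟨z, hz⟩ := frontier_nonempty hΩ
    obtain ⟨M, hM, h⟩ := hcon z hz
    have := hcl z hz
    obtain ⟨y, hy⟩ := h.exists
    exact lt_of_le_of_lt ((norm_nonneg _).trans hy) hM
  have hcomp : IsCompact (frontier Ω) :=
    Metric.isCompact_of_isClosed_isBounded isClosed_frontier
      (hΩ.bounded.closure.subset frontier_subset_closure)
  have hP : ∃ M : ℝ, 0 ≤ M ∧ M < L ∧ ∃ V : Set ℂ, IsOpen V ∧ frontier Ω ⊆ V ∧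
      ∀ y ∈ V, y ∈ Ω → ‖∇ u y‖ ≤ M := by
    refine hcomp.induction_on (p := fun s => ∃ M : ℝ, 0 ≤ M ∧ M < L ∧ ∃ V : Set ℂ, IsOpen V ∧
      s ⊆ V ∧ ∀ y ∈ V, y ∈ Ω → ‖∇ u y‖ ≤ M) ?_ ?_ ?_ ?_
    · exact ⟨0, le_rfl, hLpos, ∅, isOpen_empty, le_rfl, fun y hy => absurd hy (by simp)⟩
    · rintro s t hst ⟨M, h0, h1, V, h2, h3, h4⟩
      exact ⟨M, h0, h1, V, h2, hst.trans h3, h4⟩
    · rintro s t ⟨M, h0, h1, V, h2, h3, h4⟩ ⟨M', h0', h1', V', h2', h3', h4'⟩
      refine ⟨max M M', le_max_of_le_left h0, max_lt h1 h1', V ∪ V', h2.union h2',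
        Set.union_subset_union h3 h3', ?_⟩
      rintro y (hy | hy) hyΩ
      · exact (h4 y hy hyΩ).trans (le_max_left _ _)
      · exact (h4' y hy hyΩ).trans (le_max_right _ _)
    · intro z hz
      obtain ⟨M, hM, h⟩ := hcon z hz
      rw [eventually_nhdsWithin_iff] at h
      obtain ⟨V, hV, hVo, hzV⟩ := _root_.eventually_nhds_iff.1 h
      refine ⟨V, mem_nhdsWithin_of_mem_nhds (hVo.mem_nhds hzV), max M 0, le_max_right _ _,
        max_lt hM hLpos, V, hVo, le_rfl, ?_⟩
      intro y hy hyΩ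
      exact (hV y hy hyΩ).trans (le_max_left _ _)
  obtain ⟨M, hM0, hML, V, hVo, hfV, hVb⟩ := hP
  obtain ⟨δ, hδ, hδV⟩ := hcomp.exists_thickening_subset_open hVo hfV
  -- bound near the frontier
  have hbd : ∀ ζ ∈ frontier Ω, ∀ τ : ℂ, ‖τ‖ ≤ δ / 2 → Ω.indicator u (ζ + τ) ≤ M * ‖τ‖ := by
    intro ζ hζ τ hτ
    by_cases hin : ζ + τ ∈ Ω
    · have hseg : ∀ t : ℝ, t ∈ Ioo (0:ℝ) 1 → ζ + t • τ ∈ Ω := by
        intro t ht
        have h1 := hΩ.convex.combo_closure_interior_mem_interior (x := ζ) (y := ζ + τ)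
          (frontier_subset_closure hζ) (by rwa [hΩ.isOpen.interior_eq])
          (a := 1 - t) (b := t) (by linarith [ht.2]) ht.1 (by ring)
        rw [hΩ.isOpen.interior_eq] at h1
        have e : (1 - t) • ζ + t • (ζ + τ) = ζ + t • τ := by
          rw [smul_add, sub_smul, one_smul]; ring
        rwa [e] at h1
      have hder : ∀ t ∈ Ioo (0:ℝ) 1, HasDerivAt (fun t : ℝ => Ω.indicator u (ζ + t • τ))
          ((InnerProductSpace.toDual ℝ ℂ (∇ u (ζ + t • τ))) τ) t := by
        intro t ht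
        have h1 := hasFDerivAt_indicator hΩ.isOpen hu (hseg t ht)
        have h2 : HasDerivAt (fun t : ℝ => ζ + t • τ) ((1:ℝ) • τ) t :=
          ((hasDerivAt_id t).smul_const τ).const_add ζ
        rw [one_smul] at h2
        exact h1.comp_hasDerivAt t h2
      have hcont : ContinuousOn (fun t : ℝ => Ω.indicator u (ζ + t • τ)) (Icc 0 1) := by
        have h1 : Continuous fun t : ℝ => ζ + t • τ := by fun_prop
        exact (hT.cont.comp h1).continuousOn
      obtain ⟨c, hc, hslope⟩ := exists_hasDerivAt_eq_slope (fun t : ℝ => Ω.indicator u (ζ + t • τ))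
        (fun t => (InnerProductSpace.toDual ℝ ℂ (∇ u (ζ + t • τ))) τ) (by norm_num : (0:ℝ) < 1)
        hcont hder
      have h0 : Ω.indicator u ζ = 0 := hT.frontier_eq_zero hΩ.isOpen hζ
      have hg : ‖∇ u (ζ + c • τ)‖ ≤ M := by
        refine hVb _ (hδV ?_) (hseg c hc)
        rw [mem_thickening_iff]
        refine ⟨ζ, hζ, ?_⟩
        rw [dist_eq_norm]
        have : ζ + c • τ - ζ = c • τ := by ring
        rw [this, norm_smul, Real.norm_eq_abs, abs_of_pos hc.1]
        have h3 : c * ‖τ‖ ≤ 1 * ‖τ‖ := mul_le_mul_of_nonneg_right hc.2.le (norm_nonneg _)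
        linarith
      have hle : (InnerProductSpace.toDual ℝ ℂ (∇ u (ζ + c • τ))) τ ≤ M * ‖τ‖ := by
        refine (le_abs_self _).trans ?_
        have h3 := (InnerProductSpace.toDual ℝ ℂ (∇ u (ζ + c • τ))).le_opNorm τ
        rw [LinearIsometryEquiv.norm_map] at h3
        refine (by simpa [Real.norm_eq_abs] using h3 : _ ≤ ‖∇ u (ζ + c • τ)‖ * ‖τ‖).trans ?_
        exact mul_le_mul_of_nonneg_right hg (norm_nonneg _)
      simp only [one_smul, zero_smul, add_zero, sub_zero, div_one, h0] at hslope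
      rw [← hslope]
      exact hle
    · rw [Set.indicator_of_notMem hin]
      exact mul_nonneg hM0 (norm_nonneg _)
  have hcmp := translation_cmp hT hΩ.isOpen hΩ.convex hΩ.bounded hM0 hbd
  have hchain : ∀ (n : ℕ) (x τ : ℂ), ‖τ‖ ≤ δ / 2 →
      |Ω.indicator u (x + n * τ) - Ω.indicator u x| ≤ n * (M * ‖τ‖) := by
    intro n
    induction n with
    | zero => intro x τ _; simp
    | succ n ih =>
      intro x τ hτ
      have h1 := ih x τ hτ
      have h2 := hcmp (x + n * τ) τ hτ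
      have e : x + ((n + 1 : ℕ) : ℂ) * τ = x + n * τ + τ := by push_cast; ring
      rw [e]
      push_cast
      rw [abs_le] at *
      constructor <;> linarith [h1.1, h1.2, h2.1, h2.2]
  refine hL M hM0 hML ?_
  intro x y
  obtain ⟨n, hn⟩ := exists_nat_gt (‖x - y‖ / (δ / 2))
  have hn0 : (0:ℝ) < n := lt_of_le_of_lt (div_nonneg (norm_nonneg _) (by linarith)) hn
  have hn1 : ‖x - y‖ < n * (δ / 2) := by
    rwa [div_lt_iff₀ (by linarith)] at hn
  have hτ : ‖(x - y) / n‖ ≤ δ / 2 := by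
    rw [norm_div, Complex.norm_natCast, div_le_iff₀ hn0]
    linarith
  have h3 := hchain n y ((x - y) / n) hτ
  have hnc : (n : ℂ) ≠ 0 := by
    have := hn0.ne'
    exact_mod_cast this
  have e : y + n * ((x - y) / n) = x := by field_simp; ring
  rw [e] at h3
  refine h3.trans (le_of_eq ?_)
  rw [norm_div, Complex.norm_natCast]
  field_simp

/-- difference quotients bound the gradient -/
theorem grad_le (hΩ : AxDomain Ω) (hu : Torsion Ω u) {x : ℂ} (hx : x ∈ Ω) {S : ℝ} (hS : 0 ≤ S)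
    (h : ∀ᶠ τ in 𝓝 (0:ℂ), |Ω.indicator u (x + τ) - Ω.indicator u x| ≤ S * ‖τ‖) :
    ‖∇ u x‖ ≤ S := by
  have h1 := hasFDerivAt_indicator hΩ.isOpen hu hx
  have h2 : ‖(InnerProductSpace.toDual ℝ ℂ (∇ u x))‖ ≤ S := by
    refine h1.le_of_lip' hS ?_
    have h3 : Tendsto (fun y : ℂ => y - x) (𝓝 x) (𝓝 0) := by
      have : Continuous fun y : ℂ => y - x := by fun_prop
      simpa using this.tendsto x
    filter_upwards [h3.eventually h] with y hy
    rw [Real.norm_eq_abs]
    simpa using hy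
  rwa [LinearIsometryEquiv.norm_map] at h2

end MStress
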