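import Pool.Agent.MStress.Defs
/-!
# CA : circle averages and minima
If `f ≥ m` on the circle and the average is `≤ m`, then `f = m` on the circle.
(Difference `f - m` is continuous, nonnegative, with integral `≤ 0`.)
-/
open Complex Metric Set Filter Topology
open scoped ComplexConjugate
namespace MStress

theorem eq_of_circleAverage_le {f : ℂ → ℝ} {x : ℂ} {r m : ℝ} (hr : 0 < r)
    (hf : ContinuousOn f (sphere x r)) (hm : ∀ y ∈ sphere x r, m ≤ f y)
    (h : Real.circleAverage f x r ≤ m) : ∀ y ∈ sphere x r, f y = m := by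
  have hpi : (0 : ℝ) < 2 * Real.pi := by positivity
  have hmem : ∀ θ, circleMap x r θ ∈ sphere x r := fun θ => circleMap_mem_sphere x hr.le θ
  have hc : Continuous (fun θ => f (circleMap x r θ)) :=
    hf.comp_continuous (continuous_circleMap x r) hmem
  have hint : ∫ θ in (0:ℝ)..(2 * Real.pi), (f (circleMap x r θ) - m) ≤ 0 := by
    rw [intervalIntegral.integral_sub (hc.intervalIntegrable _ _)
      (continuous_const.intervalIntegrable _ _), intervalIntegral.integral_const, smul_eq_mul,
      sub_zero]
    unfold Real.circleAverage at h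
    rw [smul_eq_mul, inv_mul_le_iff₀ hpi] at h
    linarith
  have hzero : ∀ θ ∈ Icc (0:ℝ) (2 * Real.pi), f (circleMap x r θ) - m ≤ 0 := by
    intro θ hθ
    by_contra hcon
    push Not at hcon
    have := intervalIntegral.integral_pos hpi (f := fun θ => f (circleMap x r θ) - m)
      (hc.sub continuous_const).continuousOn
      (fun θ _ => sub_nonneg.2 (hm _ (hmem θ))) ⟨θ, hθ, hcon⟩
    linarith
  intro y hy
  have hy' : y ∈ circleMap x r '' Ioc 0 (2 * Real.pi) := by
    rw [image_circleMap_Ioc, abs_of_pos hr]
    exact hy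
  obtain ⟨θ, hθ, rfl⟩ := hy'
  have h1 := hzero θ (Ioc_subset_Icc_self hθ)
  have h2 := hm _ (hmem θ)
  linarith

end MStress
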