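import Pool.Agent.MStress.Defs
/-!
# CONTACT : the largest unit disc cap

`n = (S, C)` is orthogonal to `p = (C, -S)`, `R² = C² + S² = ‖p‖²`. Let
`K = {κ ≥ 0 | ∀ y, ‖y + κ n‖² < R² → 0 < ⟨n, y⟩ → y ∈ Ω}`. `1 ∈ K` (vacuous), `K` is closed downwards-limits
(if `κ_j ↓ κ`, `κ_j ∈ K` then `κ ∈ K`), so `κ := sInf K ∈ K`. `κ > 0`: otherwise the half disc, hence by
central symmetry (`-z = conj (-conj z)`) and convexity the whole open disc is in `Ω`, contradicting `hne`.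
For `κ' < κ` close to `κ` there are `y ∉ Ω` in the open cap; limit point `z`: `z ∉ Ω`, `‖z + κ n‖ ≤ R`,
`⟨n,z⟩ ≥ 0`. If `⟨n,z⟩ = 0` then `z = s p` with `|s| < 1`, which is in `Ω` (`0 ∈ Ω`, `±p ∈ closure Ω`):
contradiction. So `⟨n,z⟩ > 0` and then `‖z + κ n‖ = R` (else `z ∈ Ω`), and `z` is a limit of points
of the open cap, so `z ∈ closure Ω`.
-/
open Complex Metric Set Filter Topology
open scoped ComplexConjugate
namespace MStress

variable {Ω : Set ℂ}

theorem AxDomain.neg_mem (hΩ : AxDomain Ω) {z : ℂ} (hz : z ∈ Ω) : -z ∈ Ω := by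
  have := hΩ.symm_conj _ (hΩ.symm_neg_conj _ hz)
  simpa using this

theorem AxDomain.zero_mem (hΩ : AxDomain Ω) : (0:ℂ) ∈ Ω := by
  obtain ⟨z, hz⟩ := hΩ.nonempty
  have h := hΩ.convex hz (hΩ.neg_mem hz) (a := 1 / 2) (b := 1 / 2) (by norm_num) (by norm_num)
    (by norm_num)
  have e : (1 / 2 : ℝ) • z + (1 / 2 : ℝ) • -z = 0 := by
    rw [← smul_add, add_neg_cancel, smul_zero]
  rwa [e] at h

theorem CONTACT_mid (hΩ : AxDomain Ω) {z w : ℂ} (h1 : z + w ∈ Ω) (h2 : z - w ∈ Ω) : z ∈ Ω := by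
  have h := hΩ.convex h1 h2 (a := 1 / 2) (b := 1 / 2) (by norm_num) (by norm_num) (by norm_num)
  have e : (1 / 2 : ℝ) • (z + w) + (1 / 2 : ℝ) • (z - w) = z := by
    apply Complex.ext
    · simp
      ring
    · simp
      ring
  rwa [e] at h

/-- the segment from `0` to `p`, without `p` -/
theorem CONTACT_seg (hΩ : AxDomain Ω) {p : ℂ} (hp : p ∈ closure Ω) {s : ℝ} (h0 : 0 ≤ s)
    (h1 : s < 1) : (s : ℂ) * p ∈ Ω := by
  have hint : (0 : ℂ) ∈ interior Ω := by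
    rw [hΩ.isOpen.interior_eq]
    exact hΩ.zero_mem
  have h := hΩ.convex.combo_interior_closure_mem_interior hint hp (a := 1 - s) (b := s)
    (by linarith) h0 (by ring)
  rw [hΩ.isOpen.interior_eq, smul_zero, zero_add] at h
  simpa using h

theorem CONTACT_line (hΩ : AxDomain Ω) {C S : ℝ} (hR : 0 < C ^ 2 + S ^ 2)
    (hp : (⟨C, -S⟩ : ℂ) ∈ closure Ω) {z : ℂ} (hz : S * z.re + C * z.im = 0)
    (hlt : z.re ^ 2 + z.im ^ 2 < C ^ 2 + S ^ 2) : z ∈ Ω := by
  set s : ℝ := (C * z.re - S * z.im) / (C ^ 2 + S ^ 2) with hs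
  have hs' : s * (C ^ 2 + S ^ 2) = C * z.re - S * z.im := div_mul_cancel₀ _ hR.ne'
  have hre : z.re = s * C := by
    have : z.re * (C ^ 2 + S ^ 2) = s * C * (C ^ 2 + S ^ 2) := by
      calc z.re * (C ^ 2 + S ^ 2) = C * (C * z.re - S * z.im) + S * (S * z.re + C * z.im) := by
            ring
        _ = s * C * (C ^ 2 + S ^ 2) := by
            rw [hz, ← hs']
            ring
    exact mul_right_cancel₀ hR.ne' this
  have him : z.im = -(s * S) := by
    have : z.im * (C ^ 2 + S ^ 2) = -(s * S) * (C ^ 2 + S ^ 2) := by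
      calc z.im * (C ^ 2 + S ^ 2) = -S * (C * z.re - S * z.im) + C * (S * z.re + C * z.im) := by
            ring
        _ = -(s * S) * (C ^ 2 + S ^ 2) := by
            rw [hz, ← hs']
            ring
    exact mul_right_cancel₀ hR.ne' this
  have hs1 : s ^ 2 < 1 := by
    have h2 : s ^ 2 * (C ^ 2 + S ^ 2) < 1 * (C ^ 2 + S ^ 2) := by
      rw [hre, him] at hlt
      nlinarith
    exact lt_of_mul_lt_mul_right h2 hR.le
  rcases le_total 0 s with h | h
  · have h3 := CONTACT_seg hΩ hp h (by nlinarith)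
    have e : (s : ℂ) * (⟨C, -S⟩ : ℂ) = z := by
      apply Complex.ext
      · simp [hre]
      · simp [him]
    rwa [e] at h3
  · have h3 := hΩ.neg_mem (CONTACT_seg hΩ hp (s := -s) (by linarith) (by nlinarith))
    have e : -(((-s : ℝ) : ℂ) * (⟨C, -S⟩ : ℂ)) = z := by
      apply Complex.ext
      · simp [hre]
      · simp [him]
    rwa [e] at h3

theorem exists_contact (hΩ : AxDomain Ω) {C S : ℝ} (hR : 0 < C ^ 2 + S ^ 2)
    (hp : (⟨C, -S⟩ : ℂ) ∈ closure Ω) (hmax : ∀ z ∈ Ω, z.re ^ 2 + z.im ^ 2 < C ^ 2 + S ^ 2)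
    (hne : ∃ z : ℂ, z.re ^ 2 + z.im ^ 2 < C ^ 2 + S ^ 2 ∧ z ∉ Ω) :
    ∃ (κ : ℝ) (z : ℂ), 0 < κ ∧ z ∈ frontier Ω ∧ 0 < S * z.re + C * z.im ∧
      (z.re + κ * S) ^ 2 + (z.im + κ * C) ^ 2 = C ^ 2 + S ^ 2 ∧
      ∀ y : ℂ, (y.re + κ * S) ^ 2 + (y.im + κ * C) ^ 2 < C ^ 2 + S ^ 2 →
        0 < S * y.re + C * y.im → y ∈ Ω := by
  set K : Set ℝ := {κ | 0 ≤ κ ∧ ∀ y : ℂ, (y.re + κ * S) ^ 2 + (y.im + κ * C) ^ 2 < C ^ 2 + S ^ 2 →
        0 < S * y.re + C * y.im → y ∈ Ω} with hK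
  have h1K : (1 : ℝ) ∈ K := by
    refine ⟨zero_le_one, fun y h1 h2 => ?_⟩
    exfalso
    nlinarith [sq_nonneg y.re, sq_nonneg y.im]
  have hbdd : BddBelow K := ⟨0, fun κ hκ => hκ.1⟩
  set κ := sInf K with hκ
  have hκ0 : 0 ≤ κ := le_csInf ⟨1, h1K⟩ (fun κ hκ => hκ.1)
  have hκK : ∀ y : ℂ, (y.re + κ * S) ^ 2 + (y.im + κ * C) ^ 2 < C ^ 2 + S ^ 2 →
        0 < S * y.re + C * y.im → y ∈ Ω := by
    intro y h1 h2
    have hc : Continuous (fun t : ℝ => (y.re + t * S) ^ 2 + (y.im + t * C) ^ 2) := by fun_prop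
    have hev : ∀ᶠ t in 𝓝 κ, (y.re + t * S) ^ 2 + (y.im + t * C) ^ 2 < C ^ 2 + S ^ 2 :=
      hc.continuousAt.eventually_lt continuousAt_const h1
    obtain ⟨ε, hε, hev⟩ := Metric.eventually_nhds_iff.1 hev
    obtain ⟨t, htK, ht⟩ := exists_lt_of_csInf_lt ⟨1, h1K⟩ (show sInf K < κ + ε by linarith)
    have ht2 : κ ≤ t := csInf_le hbdd htK
    exact htK.2 y (hev (by rw [Real.dist_eq, abs_of_nonneg (by linarith)]; linarith)) h2
  have hκpos : 0 < κ := by
    rcases hκ0.lt_or_eq with h | h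
    · exact h
    exfalso
    rw [← h] at hκK
    have hκK' : ∀ y : ℂ, y.re ^ 2 + y.im ^ 2 < C ^ 2 + S ^ 2 → 0 < S * y.re + C * y.im → y ∈ Ω := by
      intro y h1 h2
      exact hκK y (by simpa using h1) h2
    obtain ⟨z, hz1, hz2⟩ := hne
    apply hz2
    rcases lt_trichotomy 0 (S * z.re + C * z.im) with h1 | h1 | h1
    · exact hκK' z hz1 h1
    · -- midpoint
      have hc : Continuous (fun t : ℝ => z.re ^ 2 + z.im ^ 2 + t ^ 2 * (C ^ 2 + S ^ 2)) := by
        fun_prop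
      have hev : ∀ᶠ t in 𝓝 (0:ℝ), z.re ^ 2 + z.im ^ 2 + t ^ 2 * (C ^ 2 + S ^ 2) < C ^ 2 + S ^ 2 :=
        hc.continuousAt.eventually_lt continuousAt_const (by simpa using hz1)
      obtain ⟨ε, hε, hev⟩ := Metric.eventually_nhds_iff.1 hev
      have ht := hev (y := ε / 2) (by rw [Real.dist_eq, sub_zero, abs_of_pos (by linarith)]; linarith)
      have hpos : 0 < ε / 2 := by linarith
      have e1 : z + (⟨ε / 2 * S, ε / 2 * C⟩ : ℂ) ∈ Ω := by
        apply hκK'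
        · simp only [Complex.add_re, Complex.add_im]
          nlinarith
        · simp only [Complex.add_re, Complex.add_im]
          nlinarith [mul_pos hpos hR]
      have e2 : -(z - (⟨ε / 2 * S, ε / 2 * C⟩ : ℂ)) ∈ Ω := by
        apply hκK'
        · simp only [Complex.neg_re, Complex.neg_im, Complex.sub_re, Complex.sub_im]
          nlinarith
        · simp only [Complex.neg_re, Complex.neg_im, Complex.sub_re, Complex.sub_im]
          nlinarith [mul_pos hpos hR]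
      have e3 := hΩ.neg_mem e2
      rw [neg_neg] at e3
      exact CONTACT_mid hΩ e1 e3
    · have h2 := hΩ.neg_mem (hκK' (-z) (by simpa using hz1) (by
        simp only [Complex.neg_re, Complex.neg_im]
        linarith))
      rwa [neg_neg] at h2
  -- the compact set
  have hcomp : IsCompact {q : ℝ × ℂ | q.1 ∈ Icc 0 κ ∧ q.2 ∉ Ω ∧
      (q.2.re + q.1 * S) ^ 2 + (q.2.im + q.1 * C) ^ 2 ≤ C ^ 2 + S ^ 2 ∧
      0 ≤ S * q.2.re + C * q.2.im} := by
    apply Metric.isCompact_of_isClosed_isBounded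
    · have c1 : IsClosed {q : ℝ × ℂ | q.1 ∈ Icc 0 κ} := isClosed_Icc.preimage continuous_fst
      have c2 : IsClosed {q : ℝ × ℂ | q.2 ∉ Ω} := hΩ.isOpen.isClosed_compl.preimage continuous_snd
      have c3 : IsClosed {q : ℝ × ℂ | (q.2.re + q.1 * S) ^ 2 + (q.2.im + q.1 * C) ^ 2 ≤
          C ^ 2 + S ^ 2} := isClosed_le (by fun_prop) continuous_const
      have c4 : IsClosed {q : ℝ × ℂ | 0 ≤ S * q.2.re + C * q.2.im} :=
        isClosed_le continuous_const (by fun_prop)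
      exact c1.inter (c2.inter (c3.inter c4))
    · have hb : Bornology.IsBounded (Icc (0:ℝ) κ ×ˢ closedBall (0:ℂ) (2 * (C ^ 2 + S ^ 2 + 1) +
          2 * κ * (|S| + |C|))) := (isBounded_Icc 0 κ).prod isBounded_closedBall
      apply hb.subset
      rintro ⟨t, y⟩ ⟨h1, -, h3, -⟩
      refine ⟨h1, ?_⟩
      rw [mem_closedBall_zero_iff]
      simp only at h3 h1
      have a1 : |y.re + t * S| ≤ C ^ 2 + S ^ 2 + 1 := by
        rw [abs_le]
        constructor <;> nlinarith [sq_nonneg (y.im + t * C), sq_nonneg (y.re + t * S - 1),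
          sq_nonneg (y.re + t * S + 1)]
      have a2 : |y.im + t * C| ≤ C ^ 2 + S ^ 2 + 1 := by
        rw [abs_le]
        constructor <;> nlinarith [sq_nonneg (y.re + t * S), sq_nonneg (y.im + t * C - 1),
          sq_nonneg (y.im + t * C + 1)]
      have b1 : |y.re| ≤ |y.re + t * S| + t * |S| := by
        have := abs_sub (y.re + t * S) (t * S)
        rw [add_sub_cancel_right, abs_mul, abs_of_nonneg h1.1] at this
        exact this
      have b2 : |y.im| ≤ |y.im + t * C| + t * |C| := by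
        have := abs_sub (y.im + t * C) (t * C)
        rw [add_sub_cancel_right, abs_mul, abs_of_nonneg h1.1] at this
        exact this
      have b3 : t * |S| ≤ κ * |S| := mul_le_mul_of_nonneg_right h1.2 (abs_nonneg _)
      have b4 : t * |C| ≤ κ * |C| := mul_le_mul_of_nonneg_right h1.2 (abs_nonneg _)
      have b5 := Complex.norm_le_abs_re_add_abs_im y
      have b6 : 0 ≤ κ * |S| := mul_nonneg hκ0 (abs_nonneg _)
      have b7 : 0 ≤ κ * |C| := mul_nonneg hκ0 (abs_nonneg _)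
      linarith
  have himg := (hcomp.image continuous_fst).isClosed
  have hsub : Ico 0 κ ⊆ Prod.fst '' {q : ℝ × ℂ | q.1 ∈ Icc 0 κ ∧ q.2 ∉ Ω ∧
      (q.2.re + q.1 * S) ^ 2 + (q.2.im + q.1 * C) ^ 2 ≤ C ^ 2 + S ^ 2 ∧
      0 ≤ S * q.2.re + C * q.2.im} := by
    intro t ht
    have htK : t ∉ K := notMem_of_lt_csInf ht.2 hbdd
    have htK2 : ¬ ∀ y : ℂ, (y.re + t * S) ^ 2 + (y.im + t * C) ^ 2 < C ^ 2 + S ^ 2 →
        0 < S * y.re + C * y.im → y ∈ Ω := fun h => htK ⟨ht.1, h⟩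
    push Not at htK2
    obtain ⟨y, h1, h2, h3⟩ := htK2
    exact ⟨(t, y), ⟨⟨ht.1, ht.2.le⟩, h3, h1.le, h2.le⟩, rfl⟩
  have hκmem : κ ∈ closure (Ico 0 κ) := by
    rw [closure_Ico hκpos.ne]
    exact right_mem_Icc.2 hκ0
  obtain ⟨⟨t, z⟩, ⟨-, hz1, hz2, hz3⟩, ht⟩ := himg.closure_subset_iff.2 hsub hκmem
  simp only at ht hz1 hz2 hz3
  rw [ht] at hz2
  have hpos : 0 < S * z.re + C * z.im := by
    rcases hz3.lt_or_eq with h | h
    · exact h
    exfalso
    apply hz1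
    apply CONTACT_line hΩ hR hp h.symm
    nlinarith [mul_pos (mul_pos hκpos hκpos) hR]
  have heq : (z.re + κ * S) ^ 2 + (z.im + κ * C) ^ 2 = C ^ 2 + S ^ 2 := by
    rcases hz2.lt_or_eq with h | h
    · exact absurd (hκK z h hpos) hz1
    · exact h
  refine ⟨κ, z, hκpos, ?_, hpos, heq, hκK⟩
  rw [frontier, hΩ.isOpen.interior_eq]
  refine ⟨?_, hz1⟩
  -- z is a limit of points of the cap
  have hc : Continuous (fun t : ℝ => (⟨z.re - t * (z.re + κ * S), z.im - t * (z.im + κ * C)⟩ : ℂ)) := by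
    have : (fun t : ℝ => (⟨z.re - t * (z.re + κ * S), z.im - t * (z.im + κ * C)⟩ : ℂ)) =
        fun t : ℝ => ((z.re - t * (z.re + κ * S) : ℝ) : ℂ) + ((z.im - t * (z.im + κ * C) : ℝ) : ℂ) * I := by
      funext t
      apply Complex.ext <;> simp
    rw [this]
    fun_prop
  have hlim : Tendsto (fun t : ℝ => (⟨z.re - t * (z.re + κ * S), z.im - t * (z.im + κ * C)⟩ : ℂ))
      (𝓝[>] 0) (𝓝 z) := by
    have := hc.tendsto 0
    simp only [zero_mul, sub_zero] at this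
    exact this.mono_left nhdsWithin_le_nhds
  apply mem_closure_of_tendsto hlim
  have hc2 : Continuous (fun t : ℝ => S * (z.re - t * (z.re + κ * S)) +
      C * (z.im - t * (z.im + κ * C))) := by fun_prop
  have hev : ∀ᶠ t in 𝓝 (0:ℝ), 0 < S * (z.re - t * (z.re + κ * S)) +
      C * (z.im - t * (z.im + κ * C)) :=
    continuousAt_const.eventually_lt hc2.continuousAt (by simpa using hpos)
  filter_upwards [hev.filter_mono nhdsWithin_le_nhds, Ioo_mem_nhdsGT (zero_lt_one' ℝ)] with t h1 h2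
  apply hκK
  · show (z.re - t * (z.re + κ * S) + κ * S) ^ 2 + (z.im - t * (z.im + κ * C) + κ * C) ^ 2 < _
    have e : (z.re - t * (z.re + κ * S) + κ * S) ^ 2 + (z.im - t * (z.im + κ * C) + κ * C) ^ 2 =
        (1 - t) ^ 2 * (C ^ 2 + S ^ 2) := by
      rw [← heq]
      ring
    rw [e]
    have : (1 - t) ^ 2 < 1 := by nlinarith [h2.1, h2.2]
    nlinarith
  · exact h1

end MStress
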