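import Pool.Agent.MStress.SWAP
import Pool.Agent.MStress.CONTACT
import Pool.Agent.MStress.ALG
/-!
# CMP : local comparison, case `σ > 0`

`a = γ + i σ` as in ALG, `T y = a * conj (y + κ n)`, `n = ⟨S, C⟩`; `T z = ⟨C, -S⟩`, `‖T y‖ = ‖y + κ n‖`.
-/
open Complex Metric Set Filter Topology
open scoped ComplexConjugate
namespace MStress

variable {Ω : Set ℂ} {U : ℂ → ℝ}

theorem rect_mem (hΩ : AxDomain Ω) (hU : Tor Ω U) {C S : ℝ} (hp : (⟨C, -S⟩ : ℂ) ∈ closure Ω)
    {y : ℂ} (h1 : |y.re| < C) (h2 : |y.im| < S) : y ∈ Ω := by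
  have hopen : IsOpen {w : ℂ | |y.re| < w.re ∧ |y.im| < -w.im} :=
    (isOpen_lt continuous_const Complex.continuous_re).inter
      (isOpen_lt continuous_const (Complex.continuous_im.neg))
  obtain ⟨w, hw, hwΩ⟩ := mem_closure_iff.1 hp _ hopen (by simpa using ⟨h1, h2⟩)
  refine mem_of_le hΩ hU ?_ ?_ hwΩ
  · exact hw.1.le.trans (le_abs_self _)
  · exact hw.2.le.trans (neg_le_abs _)

theorem cmp_pos (hΩ : AxDomain Ω) (hU : Tor Ω U) {C S κ : ℝ} {z : ℂ} (hC : 0 ≤ C) (hS : 0 ≤ S)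
    (hmax : ∀ w ∈ Ω, w.re ^ 2 + w.im ^ 2 < C ^ 2 + S ^ 2)
    (hp : (⟨C, -S⟩ : ℂ) ∈ closure Ω)
    (hκ : 0 < κ) (hz : z ∈ frontier Ω) (hnz : 0 < S * z.re + C * z.im)
    (hzc : (z.re + κ * S) ^ 2 + (z.im + κ * C) ^ 2 = C ^ 2 + S ^ 2)
    (hcap : ∀ y : ℂ, (y.re + κ * S) ^ 2 + (y.im + κ * C) ^ 2 < C ^ 2 + S ^ 2 →
        0 < S * y.re + C * y.im → y ∈ Ω)
    (hσ : 0 < (z.im + κ * C) * C - (z.re + κ * S) * S) :
    ∃ a : ℂ, ‖a‖ = 1 ∧ a * conj (z + κ * ⟨S, C⟩) = ⟨C, -S⟩ ∧
      ∃ r > 0, ∀ y ∈ ball z r, a * conj (y + κ * ⟨S, C⟩) ∈ Ω →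
        U (a * conj (y + κ * ⟨S, C⟩)) < U y := by
  obtain ⟨E₁, hE₁⟩ : ∃ E₁, E₁ = z.re + κ * S := ⟨_, rfl⟩
  obtain ⟨E₂, hE₂⟩ : ∃ E₂, E₂ = z.im + κ * C := ⟨_, rfl⟩
  rw [← hE₁, ← hE₂] at hzc hσ
  have hn : κ * (C ^ 2 + S ^ 2) < S * E₁ + C * E₂ := by
    rw [hE₁, hE₂]; nlinarith
  have hR : 0 < C ^ 2 + S ^ 2 := by
    rcases (show 0 ≤ C ^ 2 + S ^ 2 by positivity).lt_or_eq with h | h
    · exact h
    · exfalso
      have hC0 : C = 0 := by nlinarith [sq_nonneg C, sq_nonneg S]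
      have hS0 : S = 0 := by nlinarith [sq_nonneg C, sq_nonneg S]
      rw [hC0, hS0] at hnz
      simp at hnz
  obtain ⟨hCpos, hE2S⟩ := algA1 hC hS hκ hzc hn hσ
  set a : ℂ := ⟨(E₁ * C + E₂ * S) / (C ^ 2 + S ^ 2), (E₂ * C - E₁ * S) / (C ^ 2 + S ^ 2)⟩ with ha
  have hsq : (E₁ * C + E₂ * S) ^ 2 + (E₂ * C - E₁ * S) ^ 2 = (C ^ 2 + S ^ 2) ^ 2 := by
    calc (E₁ * C + E₂ * S) ^ 2 + (E₂ * C - E₁ * S) ^ 2 = (E₁ ^ 2 + E₂ ^ 2) * (C ^ 2 + S ^ 2) := by ring
      _ = (C ^ 2 + S ^ 2) ^ 2 := by rw [hzc]; ring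
  have hnorm : ‖a‖ = 1 := by
    have h1 : a.re ^ 2 + a.im ^ 2 = 1 := by
      simp only [ha]
      rw [div_pow, div_pow, ← add_div, hsq, div_self (by positivity)]
    rw [Complex.norm_eq_sqrt_sq_add_sq, h1, Real.sqrt_one]
  set T : ℂ → ℂ := fun y => a * conj (y + κ * ⟨S, C⟩) with hT
  have hTeq : ∀ y, T y = a * conj y + a * conj ((κ : ℂ) * ⟨S, C⟩) := by
    intro y
    simp only [hT, map_add, mul_add]
  have hTrig : Rigid T := by
    have := rigid_refl (a := a) (b := a * conj ((κ : ℂ) * ⟨S, C⟩)) hnorm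
    have h2 : T = fun y => a * conj y + a * conj ((κ : ℂ) * ⟨S, C⟩) := funext hTeq
    rw [h2]; exact this
  have hTcont : Continuous T := hTrig.continuous
  have hTre : ∀ y : ℂ, (C ^ 2 + S ^ 2) * (T y).re =
      (E₁ * C + E₂ * S) * (y.re + κ * S) + (E₂ * C - E₁ * S) * (y.im + κ * C) := by
    intro y
    simp only [hT, ha, Complex.mul_re, Complex.conj_re, Complex.conj_im, Complex.add_re,
      Complex.add_im, Complex.mul_im, Complex.ofReal_re, Complex.ofReal_im]
    field_simp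
    ring
  have hTim : ∀ y : ℂ, (C ^ 2 + S ^ 2) * (T y).im =
      (E₂ * C - E₁ * S) * (y.re + κ * S) - (E₁ * C + E₂ * S) * (y.im + κ * C) := by
    intro y
    simp only [hT, ha, Complex.mul_re, Complex.conj_re, Complex.conj_im, Complex.add_re,
      Complex.add_im, Complex.mul_im, Complex.ofReal_re, Complex.ofReal_im]
    field_simp
    ring
  have hTnorm : ∀ y : ℂ, (T y).re ^ 2 + (T y).im ^ 2 = (y.re + κ * S) ^ 2 + (y.im + κ * C) ^ 2 := by
    intro y
    have h1 : (C ^ 2 + S ^ 2) ^ 2 * ((T y).re ^ 2 + (T y).im ^ 2) =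
        (C ^ 2 + S ^ 2) ^ 2 * ((y.re + κ * S) ^ 2 + (y.im + κ * C) ^ 2) := by
      calc (C ^ 2 + S ^ 2) ^ 2 * ((T y).re ^ 2 + (T y).im ^ 2)
          = ((C ^ 2 + S ^ 2) * (T y).re) ^ 2 + ((C ^ 2 + S ^ 2) * (T y).im) ^ 2 := by ring
        _ = ((E₁ * C + E₂ * S) ^ 2 + (E₂ * C - E₁ * S) ^ 2) *
            ((y.re + κ * S) ^ 2 + (y.im + κ * C) ^ 2) := by rw [hTre, hTim]; ring
        _ = _ := by rw [hsq]
    exact mul_left_cancel₀ (by positivity) h1
  have habs : ∀ x : ℝ, |(C ^ 2 + S ^ 2) * x| = (C ^ 2 + S ^ 2) * |x| := fun x => by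
    rw [abs_mul, abs_of_pos hR]
  have hdom : ∀ y : ℂ, |(T y).im| ≤ y.im → |y.re| < |(T y).re| := by
    intro y hy
    have h1 := algA2 (x := y.re) (y := y.im) hC hS hκ hzc hn hσ (by
      rw [← hTim, habs]
      exact mul_le_mul_of_nonneg_left hy hR.le)
    rw [← hTre] at h1
    have h2 := sq_lt_sq.1 h1
    rw [habs, habs] at h2
    exact lt_of_mul_lt_mul_left h2 hR.le
  have hA3 : ∀ y : ℂ, |(T y).im| < y.im → S * y.re + C * y.im ≤ 0 → |y.re| < C ∧ |y.im| < S := by
    intro y hy hle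
    exact algA3 (x := y.re) (y := y.im) hC hS hκ hzc hn hσ (by
      rw [← hTim, habs]
      exact mul_lt_mul_of_pos_left hy hR) hle
  -- the region
  set A : Set ℂ := {y | |(T y).im| < y.im} ∩ T ⁻¹' Ω with hAdef
  have himT : Continuous fun y => |(T y).im| := (Complex.continuous_im.comp hTcont).abs
  have hAo : IsOpen A :=
    (isOpen_lt himT Complex.continuous_im).inter (hΩ.isOpen.preimage hTcont)
  have hAΩ : A ⊆ Ω := by
    rintro y ⟨hy1, hy2⟩
    by_cases h : 0 < S * y.re + C * y.im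
    · refine hcap y ?_ h
      rw [← hTnorm]
      exact hmax _ hy2
    · obtain ⟨h1, h2⟩ := hA3 y hy1 (not_lt.1 h)
      exact rect_mem hΩ hU hp h1 h2
  have hAb : Bornology.IsBounded A := hΩ.bounded.subset hAΩ
  have hTaff : ∀ (x y : ℂ) (s t : ℝ), s + t = 1 → T (s • x + t • y) = s • T x + t • T y := by
    intro x y s t hst
    rw [hTeq, hTeq, hTeq]
    have hs : (s : ℂ) + t = 1 := by exact_mod_cast hst
    simp only [Complex.real_smul, map_add, map_mul, Complex.conj_ofReal]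
    linear_combination (-(a * ((κ : ℂ) * conj (⟨S, C⟩ : ℂ)))) * hs
  have hAc : Convex ℝ A := by
    rintro x ⟨hx1, hx2⟩ y ⟨hy1, hy2⟩ s t hs ht hst
    refine ⟨?_, ?_⟩
    · simp only [mem_ofPred_eq] at hx1 hy1 ⊢
      rw [hTaff x y s t hst]
      simp only [Complex.add_im, Complex.real_smul, Complex.mul_im, Complex.ofReal_re,
        Complex.ofReal_im, zero_mul, add_zero]
      have h1 : |s * (T x).im + t * (T y).im| ≤ s * |(T x).im| + t * |(T y).im| := by
        refine (abs_add_le _ _).trans ?_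
        rw [abs_mul, abs_mul, abs_of_nonneg hs, abs_of_nonneg ht]
      refine h1.trans_lt ?_
      rcases hs.lt_or_eq with h | h
      · have := mul_lt_mul_of_pos_left hx1 h
        have := mul_le_mul_of_nonneg_left hy1.le ht
        linarith
      · have ht1 : t = 1 := by linarith
        subst ht1
        rw [← h]
        simpa using hy1
    · show T (s • x + t • y) ∈ Ω
      rw [hTaff x y s t hst]
      exact hΩ.convex hx2 hy2 hs ht hst
  have hfcont : Continuous fun y => U y - U (T y) := hU.cont.sub (hU.cont.comp hTcont)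
  have hmv : ∀ x ∈ A, SuperMV (fun y => U y - U (T y)) x := by
    intro x hx
    have := hU.sub_mean (hU.comp hTrig) (hAΩ hx) hx.2
    filter_upwards [this] with r hr
    exact hr.le
  have hclW : closure A ⊆ {y | |(T y).im| ≤ y.im} := by
    refine closure_minimal (fun y hy => ?_) (isClosed_le himT Complex.continuous_im)
    exact mem_ofPred_eq.mpr (le_of_lt (mem_ofPred_eq.mp hy.1))
  have hUnn : ∀ x, 0 ≤ U x := hU.nonneg hΩ.isOpen hΩ.bounded
  have hfront : ∀ x ∈ frontier A, 0 ≤ U x - U (T x) := by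
    intro x hx
    by_cases hTx : T x ∈ Ω
    · have h1 : |(T x).im| ≤ x.im := hclW hx.1
      have h2 : ¬ |(T x).im| < x.im := by
        intro h
        have : x ∈ interior A := by rw [hAo.interior_eq]; exact ⟨h, hTx⟩
        exact hx.2 this
      have h3 : |x.im| ≤ |(T x).im| := by
        rw [abs_of_nonneg ((abs_nonneg _).trans h1)]
        exact not_lt.1 h2
      have := mono hΩ hU (hdom x h1).le h3
      linarith
    · rw [hU.zero _ hTx, sub_zero]
      exact hUnn x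
  have hge : ∀ x ∈ closure A, 0 ≤ U x - U (T x) :=
    weak_max hAo hAb hfcont.continuousOn hmv hfront
  -- strictness
  have hpos : ∀ x ∈ A, 0 < U x - U (T x) := by
    intro x₀ hx₀
    rcases (hge x₀ (subset_closure hx₀)).lt_or_eq with h | h
    · exact h
    exfalso
    have hz0 := strong_max hAo hAc.isPreconnected hfcont.continuousOn hmv
      (fun x hx => hge x (subset_closure hx)) hx₀ h.symm
    set c : ℂ := -((κ : ℂ) * ⟨S, C⟩) with hc
    have hTc : T c = 0 := by simp [hT, hc]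
    have hcim : c.im = -(κ * C) := by simp [hc]
    have hcim' : c.im < 0 := by
      rw [hcim]
      have := mul_pos hκ hCpos
      linarith
    -- intermediate value theorem
    set φ : ℝ → ℝ := fun t => ((1 - t) • x₀ + t • c : ℂ).im - |(T ((1 - t) • x₀ + t • c)).im| with hφ
    have hpath : Continuous fun t : ℝ => ((1 - t) • x₀ + t • c : ℂ) := by fun_prop
    have hφc : Continuous φ := (Complex.continuous_im.comp hpath).sub (himT.comp hpath)
    have hφ0 : 0 < φ 0 := by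
      have : (T x₀).im ≤ |(T x₀).im| := le_abs_self _
      have h1 : |(T x₀).im| < x₀.im := hx₀.1
      simp only [hφ, sub_zero, one_smul, zero_smul, add_zero]
      linarith
    have hφ1 : φ 1 < 0 := by
      simp only [hφ, sub_self, zero_smul, one_smul, zero_add, hTc]
      simpa using hcim'
    obtain ⟨t, ht, hφt⟩ : (0:ℝ) ∈ φ '' Icc 0 1 :=
      intermediate_value_Icc' zero_le_one hφc.continuousOn ⟨hφ1.le, hφ0.le⟩
    set y : ℂ := (1 - t) • x₀ + t • c with hy
    have hTy : T y ∈ Ω := by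
      rw [hy, hTaff x₀ c (1 - t) t (by ring), hTc, smul_zero, add_zero]
      have := hΩ.convex hx₀.2 hΩ.zero_mem (sub_nonneg.2 ht.2) ht.1 (by ring)
      simpa using this
    have hyeq : |(T y).im| = y.im := by
      have : y.im - |(T y).im| = 0 := hφt
      linarith
    -- y ∈ closure A
    have hycl : y ∈ closure A := by
      have hlim : Tendsto (fun s : ℝ => ((1 - s) • x₀ + s • y : ℂ)) (𝓝[<] 1) (𝓝 y) := by
        have : Continuous fun s : ℝ => ((1 - s) • x₀ + s • y : ℂ) := by fun_prop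
        have h2 := this.tendsto 1
        simp only [sub_self, zero_smul, one_smul, zero_add] at h2
        exact h2.mono_left nhdsWithin_le_nhds
      refine mem_closure_of_tendsto hlim ?_
      have h01 : Ioo (0:ℝ) 1 ∈ 𝓝[<] (1:ℝ) := Ioo_mem_nhdsLT (by norm_num)
      filter_upwards [h01] with s hs
      refine ⟨?_, ?_⟩
      · simp only [mem_ofPred_eq]
        rw [hTaff x₀ y (1 - s) s (by ring)]
        simp only [Complex.add_im, Complex.real_smul, Complex.mul_im, Complex.ofReal_re,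
          Complex.ofReal_im, zero_mul, add_zero]
        have h1s : 0 < 1 - s := by linarith [hs.2]
        have h1 : |(1 - s) * (T x₀).im + s * (T y).im| ≤ (1 - s) * |(T x₀).im| + s * |(T y).im| := by
          refine (abs_add_le _ _).trans ?_
          rw [abs_mul, abs_mul, abs_of_nonneg h1s.le, abs_of_nonneg hs.1.le]
        rw [hyeq] at h1
        have h2 := mul_lt_mul_of_pos_left (show |(T x₀).im| < x₀.im from hx₀.1) h1s
        linarith
      · show T ((1 - s) • x₀ + s • y) ∈ Ω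
        rw [hTaff x₀ y (1 - s) s (by ring)]
        exact hΩ.convex hx₀.2 hTy (by linarith [hs.2]) hs.1.le (by ring)
    have hfy : U y - U (T y) = 0 := by
      have hcl : IsClosed {w | U w - U (T w) = 0} := isClosed_eq hfcont continuous_const
      exact closure_minimal (fun w hw => hz0 w hw) hcl hycl
    have hlt := mono_lt hΩ hU (hdom y hyeq.le) (by
      rw [hyeq]
      exact le_of_eq (abs_of_nonneg (by rw [← hyeq]; exact abs_nonneg _))) hTy
    linarith
  -- near z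
  have hzΩ : z ∉ Ω := by
    have := hz.2
    rwa [hΩ.isOpen.interior_eq] at this
  have hzre : E₁ - κ * S = z.re := by rw [hE₁]; ring
  have hzim : E₂ - κ * C = z.im := by rw [hE₂]; ring
  have hzS : S ≤ z.im := by
    by_contra h
    have h4 := algA4 hC hS hκ hzc hn hσ (by rw [hzim]; exact not_le.1 h)
    rw [hzre, hzim] at h4
    exact hzΩ (rect_mem hΩ hU hp h4.1 h4.2)
  have hz0 : 0 < z.im := by
    rcases (hS.trans hzS).lt_or_eq with h | h
    · exact h
    · exfalso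
      have hS0 : S = 0 := le_antisymm (by rw [← h] at hzS; exact hzS) hS
      rw [hS0, ← h] at hnz
      simp at hnz
  have hTz : T z = ⟨C, -S⟩ := by
    apply Complex.ext
    · have h1 : (C ^ 2 + S ^ 2) * (T z).re = (C ^ 2 + S ^ 2) * C := by
        rw [hTre, ← hE₁, ← hE₂]
        calc _ = C * (E₁ ^ 2 + E₂ ^ 2) := by ring
          _ = _ := by rw [hzc]; ring
      exact mul_left_cancel₀ hR.ne' h1
    · have h1 : (C ^ 2 + S ^ 2) * (T z).im = (C ^ 2 + S ^ 2) * (-S) := by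
        rw [hTim, ← hE₁, ← hE₂]
        calc _ = -S * (E₁ ^ 2 + E₂ ^ 2) := by ring
          _ = _ := by rw [hzc]; ring
      exact mul_left_cancel₀ hR.ne' h1
  have hzdom : |z.re| < |(T z).re| := hdom z (by
    rw [hTz]
    simpa [abs_of_nonneg hS] using hzS)
  have hnb : IsOpen {y : ℂ | 0 < y.im ∧ |y.re| < |(T y).re|} :=
    (isOpen_lt continuous_const Complex.continuous_im).inter
      (isOpen_lt Complex.continuous_re.abs (Complex.continuous_re.comp hTcont).abs)
  obtain ⟨r, hr, hball⟩ := Metric.isOpen_iff.1 hnb z ⟨hz0, hzdom⟩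
  refine ⟨a, hnorm, hTz, r, hr, ?_⟩
  intro y hy hTy
  obtain ⟨h1, h2⟩ := hball hy
  change U (T y) < U y
  by_cases h : |(T y).im| < y.im
  · have := hpos y ⟨h, hTy⟩
    linarith
  · refine mono_lt hΩ hU h2 ?_ hTy
    rw [abs_of_pos h1]
    exact not_lt.1 h

end MStress
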