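import Pool.Agent.MStress.Defs
/-!
# SUP : supporting lines (geometric Hahn-Banach) and segments from `x ∈ Ω` to `y ∉ Ω`
-/
open Complex Metric Set Filter Topology
open scoped ComplexConjugate
namespace MStress

variable {Ω : Set ℂ}

/-- real linear functionals on `ℂ` -/
theorem sup_conj_repr (f : ℂ →L[ℝ] ℝ) : ∃ w : ℂ, ∀ z : ℂ, f z = (z * conj w).re := by
  refine ⟨⟨f 1, f I⟩, fun z => ?_⟩
  have hz : z = (z.re : ℝ) • (1 : ℂ) + (z.im : ℝ) • I := by
    apply Complex.ext <;> simp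
  have h1 : f z = z.re * f 1 + z.im * f I := by
    conv_lhs => rw [hz]
    rw [map_add, map_smul, map_smul, smul_eq_mul, smul_eq_mul]
  rw [h1]
  simp [Complex.mul_re]

/-- supporting line at a boundary point, unit outer normal `ν` -/
theorem exists_normal (ho : IsOpen Ω) (hc : Convex ℝ Ω) (hne : Ω.Nonempty) {ζ : ℂ}
    (hζ : ζ ∈ frontier Ω) : ∃ ν : ℂ, ‖ν‖ = 1 ∧ ∀ y ∈ Ω, ((y - ζ) * conj ν).re < 0 := by
  have hnot : ζ ∉ Ω := by
    intro h
    rw [ho.frontier_eq] at hζ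
    exact hζ.2 h
  obtain ⟨f, hf⟩ := geometric_hahn_banach_open_point hc ho hnot
  obtain ⟨w, hw⟩ := sup_conj_repr f
  have hw0 : w ≠ 0 := by
    rintro rfl
    obtain ⟨y, hy⟩ := hne
    have := hf y hy
    rw [hw, hw] at this
    simp at this
  have hn : 0 < ‖w‖ := norm_pos_iff.mpr hw0
  refine ⟨(‖w‖⁻¹ : ℝ) • w, ?_, ?_⟩
  · rw [norm_smul, norm_inv, Real.norm_eq_abs, abs_norm, inv_mul_cancel₀ hn.ne']
  · intro y hy
    have h1 := hf y hy
    rw [hw, hw] at h1
    have h2 : ((y - ζ) * conj ((‖w‖⁻¹ : ℝ) • w)).re = ‖w‖⁻¹ * ((y * conj w).re - (ζ * conj w).re) := by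
      rw [Complex.real_smul, map_mul, Complex.conj_ofReal]
      have : (y - ζ) * (((‖w‖⁻¹ : ℝ) : ℂ) * conj w) = ((‖w‖⁻¹ : ℝ) : ℂ) * ((y * conj w) - (ζ * conj w)) := by
        ring
      rw [this, Complex.re_ofReal_mul, Complex.sub_re]
    rw [h2]
    have : 0 < ‖w‖⁻¹ := inv_pos.mpr hn
    nlinarith

/-- a segment from `x ∈ Ω` to `y ∉ Ω` contains a boundary point `ζ`, with `[x, ζ) ⊆ Ω` -/
theorem exists_frontier_segment (ho : IsOpen Ω) (hc : Convex ℝ Ω) {x y : ℂ} (hx : x ∈ Ω)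
    (hy : y ∉ Ω) : ∃ ζ ∈ frontier Ω, ζ ∈ segment ℝ x y ∧ ∀ w ∈ segment ℝ x ζ, w ≠ ζ → w ∈ Ω := by
  have hne : (segment ℝ x y ∩ frontier Ω).Nonempty := by
    have hpc : IsPreconnected (segment ℝ x y) := (convex_segment x y).isPreconnected
    by_contra hemp
    rw [Set.not_nonempty_iff_eq_empty] at hemp
    have hsub : segment ℝ x y ⊆ Ω ∪ (closure Ω)ᶜ := by
      intro z hz
      by_cases h : z ∈ closure Ω
      · left
        by_contra hz'
        have : z ∈ frontier Ω := by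
          rw [ho.frontier_eq]
          exact ⟨h, hz'⟩
        have : z ∈ segment ℝ x y ∩ frontier Ω := ⟨hz, this⟩
        rw [hemp] at this
        exact this
      · right
        exact h
    have hyc : y ∈ (closure Ω)ᶜ := by
      rcases hsub (right_mem_segment ℝ x y) with h | h
      · exact absurd h hy
      · exact h
    obtain ⟨z, hz, hz1, hz2⟩ := hpc Ω (closure Ω)ᶜ ho isClosed_closure.isOpen_compl hsub
      ⟨x, left_mem_segment ℝ x y, hx⟩ ⟨y, right_mem_segment ℝ x y, hyc⟩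
    exact hz2 (subset_closure hz1)
  obtain ⟨ζ, hζs, hζf⟩ := hne
  refine ⟨ζ, hζf, hζs, ?_⟩
  intro w hw hwne
  have hxi : x ∈ interior Ω := by rwa [ho.interior_eq]
  have hζc : ζ ∈ closure Ω := frontier_subset_closure hζf
  rw [← ho.interior_eq]
  rw [segment_eq_image] at hw
  obtain ⟨t, ht, rfl⟩ := hw
  have ht1 : t ≠ 1 := by
    rintro rfl
    apply hwne
    simp
  have : t < 1 := lt_of_le_of_ne ht.2 ht1
  exact hc.combo_interior_closure_mem_interior hxi hζc (by linarith) ht.1 (by ring)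

end MStress
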