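import Pool.Agent.MStress.CMP
import Pool.Agent.MStress.SUP
/-!
# CMP2 : local comparison in general

`p` farthest. `C = |p.re|`, `S = |p.im|`. By symmetry `⟨C, -S⟩ ∈ closure Ω` and `‖w‖ < ‖p‖` on `Ω`.
`Ω` is not the open disc (`halfX ≠ halfY`), so `exists_contact` applies. Three cases for
`H = (z.im + κ C) C - (z.re + κ S) S`: `H = 0` impossible by (A5) and `rect_mem`; `H > 0`: `cmp_pos`;
`H < 0`: `cmp_pos` for `swap ⁻¹' Ω`, `U ∘ swap`, with `C, S` exchanged and `z` replaced by `swap z`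
(if `a'` is the unimodular number obtained, take `a = conj a'` and use `U (-w) = U w`).
Finally compose with the symmetry mapping `⟨C, -S⟩` to `p` (`U_conj`, `U_neg_conj`, `U_neg`).
`T` is a composition of `rigid_refl`/`rigid_conj`/`rigid_rot`.
-/
open Complex Metric Set Filter Topology
open scoped ComplexConjugate
namespace MStress

variable {Ω : Set ℂ} {U : ℂ → ℝ}

theorem norm_lt_of_farthest (hΩ : AxDomain Ω) {p : ℂ} (hp : IsFarthest Ω p) :
    0 < ‖p‖ ∧ ∀ w ∈ Ω, ‖w‖ < ‖p‖ := by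
  have h0 : (0:ℂ) ∈ Ω := hΩ.zero_mem
  have hfr : ∀ ζ ∈ frontier Ω, ζ ∉ Ω := by
    intro ζ hζ h
    rw [frontier, hΩ.isOpen.interior_eq] at hζ
    exact hζ.2 h
  have hp0 : 0 < ‖p‖ := by
    rw [norm_pos_iff]
    rintro rfl
    exact hfr _ hp.1 h0
  refine ⟨hp0, ?_⟩
  intro w hw
  rcases eq_or_ne w 0 with rfl | hw0
  · simpa using hp0
  obtain ⟨M, hM⟩ := hΩ.bounded.exists_norm_le
  have hwn : 0 < ‖w‖ := norm_pos_iff.mpr hw0
  -- a far point
  set t : ℝ := (M + 1) / ‖w‖ with ht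
  have hMw : ‖w‖ ≤ M := hM w hw
  have ht1 : 1 < t := by
    rw [ht, lt_div_iff₀ hwn]; linarith
  have hfar : (t : ℂ) * w ∉ Ω := by
    intro h
    have h1 := hM _ h
    rw [norm_mul, Complex.norm_real, Real.norm_eq_abs, abs_of_pos (by linarith), ht,
      div_mul_cancel₀ _ hwn.ne'] at h1
    linarith
  obtain ⟨ζ, hζ, hseg, _⟩ := exists_frontier_segment hΩ.isOpen hΩ.convex hw hfar
  rw [segment_eq_image] at hseg
  obtain ⟨s, hs, hsζ⟩ := hseg
  have hζe : ζ = ((1 + s * (t - 1) : ℝ) : ℂ) * w := by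
    rw [← hsζ]
    simp only [Complex.real_smul]
    push_cast
    ring
  have hs0 : s ≠ 0 := by
    rintro rfl
    apply hfr _ hζ
    rw [hζe]
    simpa using hw
  have hspos : 0 < s := lt_of_le_of_ne hs.1 (Ne.symm hs0)
  have h1 : ‖w‖ < ‖ζ‖ := by
    rw [hζe, norm_mul, Complex.norm_real, Real.norm_eq_abs]
    have h2 : 0 < s * (t - 1) := mul_pos hspos (by linarith)
    rw [abs_of_pos (by linarith)]
    nlinarith
  exact lt_of_lt_of_le h1 (hp.2 ζ hζ)

theorem not_ball (_hΩ : AxDomain Ω) (hab : halfX Ω ≠ halfY Ω) {R : ℝ} (hR : 0 < R) :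
    Ω ≠ ball 0 R := by
  rintro rfl
  apply hab
  unfold halfX halfY
  rw [closure_ball _ hR.ne']
  congr 1
  ext x
  simp only [Set.mem_ofPred_eq, mem_closedBall, dist_zero_right, norm_mul, Complex.norm_I, mul_one]

/-- `swap` as a homeomorphism -/
noncomputable def CMP2_swapH : ℂ ≃ₜ ℂ where
  toFun := swap
  invFun := swap
  left_inv := swap_swap
  right_inv := swap_swap
  continuous_toFun := by unfold swap; fun_prop
  continuous_invFun := by unfold swap; fun_prop

theorem CMP2_closure_conj (hΩ : AxDomain Ω) {z : ℂ} (hz : z ∈ closure Ω) :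
    conj z ∈ closure Ω :=
  map_mem_closure (f := fun z => conj z) (by fun_prop) hz (fun w hw => hΩ.symm_conj w hw)

theorem CMP2_closure_negconj (hΩ : AxDomain Ω) {z : ℂ} (hz : z ∈ closure Ω) :
    -conj z ∈ closure Ω :=
  map_mem_closure (f := fun z => -conj z) (by fun_prop) hz (fun w hw => hΩ.symm_neg_conj w hw)

theorem CMP2_closure_neg (hΩ : AxDomain Ω) {z : ℂ} (hz : z ∈ closure Ω) :
    -z ∈ closure Ω := by
  have := CMP2_closure_conj hΩ (CMP2_closure_negconj hΩ hz)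
  simpa using this

/-- symmetry mapping `⟨|p.re|, -|p.im|⟩` to `p` -/
theorem CMP2_sym (hΩ : AxDomain Ω) (hU : Tor Ω U) (p : ℂ) :
    ∃ σ : ℂ → ℂ, Rigid σ ∧ σ ⟨|p.re|, -|p.im|⟩ = p ∧ σ 0 = 0 ∧ (∀ w, σ w ∈ Ω → w ∈ Ω) ∧
      (∀ w, U (σ w) = U w) ∧ (p ∈ closure Ω → (⟨|p.re|, -|p.im|⟩ : ℂ) ∈ closure Ω) := by
  rcases le_or_gt 0 p.re with h1 | h1 <;> rcases le_or_gt 0 p.im with h2 | h2
  · refine ⟨fun y => conj y, rigid_conj, ?_, by simp, ?_, fun w => U_conj hΩ hU w, ?_⟩
    · apply Complex.ext <;> simp [abs_of_nonneg h1, abs_of_nonneg h2]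
    · intro w hw
      have := hΩ.symm_conj _ hw
      simpa using this
    · intro hp
      have := CMP2_closure_conj hΩ hp
      convert this using 1
      apply Complex.ext <;> simp [abs_of_nonneg h1, abs_of_nonneg h2]
  · refine ⟨fun y => 1 * y + 0, rigid_rot (by simp), ?_, by simp, ?_, ?_, ?_⟩
    · apply Complex.ext <;> simp [abs_of_nonneg h1, abs_of_neg h2]
    · intro w hw
      simpa using hw
    · intro w
      simp
    · intro hp
      convert hp using 1
      apply Complex.ext <;> simp [abs_of_nonneg h1, abs_of_neg h2]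
  · refine ⟨fun y => (-1) * y + 0, rigid_rot (by simp), ?_, by simp, ?_, ?_, ?_⟩
    · apply Complex.ext <;> simp [abs_of_neg h1, abs_of_nonneg h2]
    · intro w hw
      have := hΩ.neg_mem hw
      simpa using this
    · intro w
      have := U_neg hΩ hU w
      simpa using this
    · intro hp
      have := CMP2_closure_neg hΩ hp
      convert this using 1
      apply Complex.ext <;> simp [abs_of_neg h1, abs_of_nonneg h2]
  · refine ⟨fun y => (-1) * conj y + 0, rigid_refl (by simp), ?_, by simp, ?_, ?_, ?_⟩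
    · apply Complex.ext <;> simp [abs_of_neg h1, abs_of_neg h2]
    · intro w hw
      have := hΩ.symm_neg_conj _ hw
      simpa using this
    · intro w
      have := U_neg_conj hΩ hU w
      simpa using this
    · intro hp
      have := CMP2_closure_negconj hΩ hp
      convert this using 1
      apply Complex.ext <;> simp [abs_of_neg h1, abs_of_neg h2]

/-- `cmp_pos` without a sign condition -/
theorem CMP2_any (hΩ : AxDomain Ω) (hU : Tor Ω U) {C S κ : ℝ} {z : ℂ} (hC : 0 ≤ C) (hS : 0 ≤ S)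
    (hmax : ∀ w ∈ Ω, w.re ^ 2 + w.im ^ 2 < C ^ 2 + S ^ 2)
    (hp : (⟨C, -S⟩ : ℂ) ∈ closure Ω)
    (hκ : 0 < κ) (hz : z ∈ frontier Ω) (hnz : 0 < S * z.re + C * z.im)
    (hzc : (z.re + κ * S) ^ 2 + (z.im + κ * C) ^ 2 = C ^ 2 + S ^ 2)
    (hcap : ∀ y : ℂ, (y.re + κ * S) ^ 2 + (y.im + κ * C) ^ 2 < C ^ 2 + S ^ 2 →
        0 < S * y.re + C * y.im → y ∈ Ω) :
    ∃ a : ℂ, ‖a‖ = 1 ∧ a * conj (z + κ * ⟨S, C⟩) = ⟨C, -S⟩ ∧
      ∃ r > 0, ∀ y ∈ ball z r, a * conj (y + κ * ⟨S, C⟩) ∈ Ω →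
        U (a * conj (y + κ * ⟨S, C⟩)) < U y := by
  rcases lt_trichotomy ((z.im + κ * C) * C - (z.re + κ * S) * S) 0 with hH | hH | hH
  · -- exchange the coordinates
    have hΩ' := hΩ.swap
    have hU' : Tor (swap ⁻¹' Ω) (fun y => U (swap y)) := hU.swap
    have hfr : frontier (swap ⁻¹' Ω) = swap ⁻¹' (frontier Ω) :=
      (CMP2_swapH.preimage_frontier Ω).symm
    have hcl : closure (swap ⁻¹' Ω) = swap ⁻¹' (closure Ω) :=
      (CMP2_swapH.preimage_closure Ω).symm
    have key := cmp_pos (C := S) (S := C) (κ := κ) (z := swap z) hΩ' hU' hS hC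
      (by
        intro w hw
        have := hmax _ hw
        simp only [swap_re, swap_im] at this
        linarith)
      (by
        rw [hcl]
        have := CMP2_closure_neg hΩ hp
        show swap _ ∈ closure Ω
        convert this using 1
        apply Complex.ext <;> simp)
      hκ
      (by
        rw [hfr]
        show swap (swap z) ∈ frontier Ω
        rw [swap_swap]
        exact hz)
      (by simp only [swap_re, swap_im]; linarith)
      (by simp only [swap_re, swap_im]; linarith)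
      (by
        intro y hy1 hy2
        show swap y ∈ Ω
        apply hcap
        · simp only [swap_re, swap_im]; linarith
        · simp only [swap_re, swap_im]; linarith)
      (by simp only [swap_re, swap_im]; linarith)
    obtain ⟨a', ha', haz, r, hr, hcmp⟩ := key
    have hsw : ∀ y : ℂ, swap y + κ * ⟨C, S⟩ = I * conj (y + κ * ⟨S, C⟩) := by
      intro y
      apply Complex.ext
      · simp [swap]
        ring
      · simp [swap]
    have hsw2 : ∀ y : ℂ, swap (a' * conj (swap y + κ * ⟨C, S⟩)) =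
        -(conj a' * conj (y + κ * ⟨S, C⟩)) := by
      intro y
      rw [hsw]
      unfold swap
      simp only [map_mul, map_neg, Complex.conj_conj, Complex.conj_I, neg_neg]
      linear_combination (conj a' * conj (y + κ * ⟨S, C⟩)) * Complex.I_mul_I
    refine ⟨conj a', by rw [RCLike.norm_conj, ha'], ?_, r, hr, ?_⟩
    · have h1 := hsw2 z
      rw [haz] at h1
      have h2 : swap ⟨S, -C⟩ = -(⟨C, -S⟩ : ℂ) := by
        apply Complex.ext <;> simp
      rw [h2] at h1
      exact (neg_injective h1).symm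
    · intro y hy hyΩ
      have hy' : swap y ∈ ball (swap z) r := by
        rw [mem_ball, dist_eq_norm] at hy ⊢
        have : swap y - swap z = I * conj (y - z) := by
          unfold swap
          rw [map_sub]; ring
        rw [this, norm_mul, Complex.norm_I, one_mul, RCLike.norm_conj]
        exact hy
      have h3 := hcmp (swap y) hy' (by
        show swap _ ∈ Ω
        rw [hsw2]
        exact hΩ.neg_mem hyΩ)
      simp only [swap_swap] at h3
      rw [hsw2, U_neg hΩ hU] at h3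
      exact h3
  · -- degenerate direction
    exfalso
    have hn : κ * (C ^ 2 + S ^ 2) < S * (z.re + κ * S) + C * (z.im + κ * C) := by nlinarith
    obtain ⟨h1, h2⟩ := algA5 hC hS hκ hzc hn hH
    have h1' : |z.re| < C := by simpa using h1
    have h2' : |z.im| < S := by simpa using h2
    have hzΩ := rect_mem hΩ hU hp h1' h2'
    rw [frontier, hΩ.isOpen.interior_eq] at hz
    exact hz.2 hzΩ
  · exact cmp_pos hΩ hU hC hS hmax hp hκ hz hnz hzc hcap hH

theorem exists_cmp (hΩ : AxDomain Ω) (hU : Tor Ω U) {p : ℂ} (hp : IsFarthest Ω p)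
    (hab : halfX Ω ≠ halfY Ω) :
    ∃ (T : ℂ → ℂ) (z c : ℂ) (r : ℝ), Rigid T ∧ z ∈ frontier Ω ∧ T z = p ∧ T c = 0 ∧ 0 < r ∧
      (∀ y ∈ ball z r, ‖y - c‖ < ‖p‖ → y ∈ Ω) ∧
      (∀ y ∈ ball z r, T y ∈ Ω → U (T y) < U y) := by
  obtain ⟨hp0, hlt⟩ := norm_lt_of_farthest hΩ hp
  obtain ⟨σ, hσr, hσp, hσ0, hσΩ, hσU, hσcl⟩ := CMP2_sym hΩ hU p
  set C : ℝ := |p.re| with hC
  set S : ℝ := |p.im| with hS
  have hC0 : 0 ≤ C := abs_nonneg _
  have hS0 : 0 ≤ S := abs_nonneg _
  have hns : ‖p‖ ^ 2 = C ^ 2 + S ^ 2 := by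
    rw [← Complex.normSq_eq_norm_sq, Complex.normSq_apply, hC, hS, sq_abs, sq_abs]; ring
  have hpc : (⟨C, -S⟩ : ℂ) ∈ closure Ω := hσcl (frontier_subset_closure hp.1)
  have hsq : ∀ w : ℂ, ‖w‖ ^ 2 = w.re ^ 2 + w.im ^ 2 := by
    intro w
    rw [← Complex.normSq_eq_norm_sq, Complex.normSq_apply]; ring
  have hmax : ∀ w ∈ Ω, w.re ^ 2 + w.im ^ 2 < C ^ 2 + S ^ 2 := by
    intro w hw
    rw [← hns, ← hsq]
    exact pow_lt_pow_left₀ (hlt w hw) (norm_nonneg _) (by norm_num)
  have hne : ∃ z : ℂ, z.re ^ 2 + z.im ^ 2 < C ^ 2 + S ^ 2 ∧ z ∉ Ω := by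
    by_contra hcon
    push Not at hcon
    apply not_ball hΩ hab hp0
    ext w
    rw [mem_ball, dist_zero_right]
    constructor
    · exact hlt w
    · intro hw
      apply hcon
      rw [← hns, ← hsq]
      exact pow_lt_pow_left₀ hw (norm_nonneg _) (by norm_num)
  have hR : 0 < C ^ 2 + S ^ 2 := by rw [← hns]; positivity
  obtain ⟨κ, z, hκ, hz, hnz, hzc, hcap⟩ := exists_contact hΩ hR hpc hmax hne
  obtain ⟨a, ha, haz, r, hr, hcmp⟩ :=
    CMP2_any hΩ hU hC0 hS0 hmax hpc hκ hz hnz hzc hcap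
  -- continuity near z
  have hev : ∀ᶠ y in 𝓝 z, 0 < S * y.re + C * y.im := by
    have hc : Continuous (fun y : ℂ => S * y.re + C * y.im) := by fun_prop
    exact hc.continuousAt.eventually (lt_mem_nhds hnz)
  obtain ⟨r', hr', hball⟩ := Metric.eventually_nhds_iff_ball.mp hev
  have hTeq : ∀ y : ℂ, a * conj y + a * conj ((κ:ℂ) * ⟨S, C⟩) = a * conj (y + κ * ⟨S, C⟩) := by
    intro y
    rw [map_add]; ring
  refine ⟨fun y => σ (a * conj y + a * conj ((κ:ℂ) * ⟨S, C⟩)), z, -((κ:ℂ) * ⟨S, C⟩), min r r',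
    hσr.comp (rigid_refl ha), hz, ?_, ?_, lt_min hr hr', ?_, ?_⟩
  · show σ (a * conj z + a * conj ((κ:ℂ) * ⟨S, C⟩)) = p
    rw [hTeq, haz, hσp]
  · show σ (a * conj (-((κ:ℂ) * ⟨S, C⟩)) + a * conj ((κ:ℂ) * ⟨S, C⟩)) = 0
    rw [hTeq, neg_add_cancel, map_zero, mul_zero, hσ0]
  · intro y hy hyc
    apply hcap
    · rw [← hns]
      have h1 := pow_lt_pow_left₀ hyc (norm_nonneg _) (show (2:ℕ) ≠ 0 by norm_num)
      rw [hsq] at h1
      simpa using h1
    · exact hball y (ball_subset_ball (min_le_right _ _) hy)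
  · intro y hy hyT
    have hyT' : σ (a * conj y + a * conj ((κ:ℂ) * ⟨S, C⟩)) ∈ Ω := hyT
    show U (σ (a * conj y + a * conj ((κ:ℂ) * ⟨S, C⟩))) < U y
    rw [hσU, hTeq]
    apply hcmp y (ball_subset_ball (min_le_left _ _) hy)
    rw [hTeq] at hyT'
    exact hσΩ _ hyT'

end MStress
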