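import Mathlib

/-!
# Squad MST (MP_9a3074_an): definitions
Everything takes place in the plane `ℂ` (`x = re`, `y = im`).
-/

open Complex Metric Set Filter Topology
open scoped ComplexConjugate Laplacian Gradient

namespace MStress

/-- A bounded convex planar domain (nonempty, open) symmetric under `z ↦ conj z` (reflection in the
`x`-axis) and under `z ↦ -conj z` (reflection in the `y`-axis). -/
structure AxDomain (Ω : Set ℂ) : Prop where
  isOpen : IsOpen Ω
  convex : Convex ℝ Ω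
  bounded : Bornology.IsBounded Ω
  nonempty : Ω.Nonempty
  symm_conj : ∀ z ∈ Ω, conj z ∈ Ω
  symm_neg_conj : ∀ z ∈ Ω, -conj z ∈ Ω

/-- `u` is the torsion function of `Ω`: `-Δ u = 2` in `Ω`, `u = 0` on `∂Ω` (classical solution). -/
structure Torsion (Ω : Set ℂ) (u : ℂ → ℝ) : Prop where
  cont : ContinuousOn u (closure Ω)
  smooth : ContDiffOn ℝ 2 u Ω
  lap : ∀ z ∈ Ω, Δ u z = -2
  bdry : ∀ z ∈ frontier Ω, u z = 0

/-- Half-length of the horizontal axis. -/
noncomputable def halfX (Ω : Set ℂ) : ℝ := sSup {x : ℝ | (x : ℂ) ∈ closure Ω}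

/-- Half-length of the vertical axis. -/
noncomputable def halfY (Ω : Set ℂ) : ℝ := sSup {y : ℝ | (y : ℂ) * I ∈ closure Ω}

/-- `p` is a farthest boundary point. -/
def IsFarthest (Ω : Set ℂ) (p : ℂ) : Prop := p ∈ frontier Ω ∧ ∀ w ∈ frontier Ω, ‖w‖ ≤ ‖p‖

/-- The boundary value of `|∇ u|` at `ζ ∈ ∂Ω`: the upper limit of `|∇ u|(y)` as `y → ζ` inside `Ω`
(it is the limit whenever the limit exists). -/
noncomputable def stress (Ω : Set ℂ) (u : ℂ → ℝ) (ζ : ℂ) : ENNReal :=
  limsup (fun y => ‖∇ u y‖ₑ) (𝓝[Ω] ζ)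

/-- `p` is a point of maximal stress. -/
def IsMaxStress (Ω : Set ℂ) (u : ℂ → ℝ) (p : ℂ) : Prop :=
  p ∈ frontier Ω ∧ ∀ z ∈ frontier Ω, stress Ω u z ≤ stress Ω u p

/-! ### Internal notions -/

/-- Abstract torsion function, extended by zero, in mean-value form. -/
structure Tor (Ω : Set ℂ) (U : ℂ → ℝ) : Prop where
  cont : Continuous U
  zero : ∀ x, x ∉ Ω → U x = 0
  mean : ∀ x ∈ Ω, ∀ᶠ r in 𝓝[>] (0:ℝ), Real.circleAverage U x r = U x - r ^ 2 / 2

/-- Super mean value property at `x` for all small radii. -/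
def SuperMV (f : ℂ → ℝ) (x : ℂ) : Prop :=
  ∀ᶠ r in 𝓝[>] (0:ℝ), Real.circleAverage f x r ≤ f x

/-- Rigid motions of the plane, in the form we need. -/
structure Rigid (T : ℂ → ℂ) : Prop where
  iso : ∀ x y, ‖T x - T y‖ = ‖x - y‖
  surj : Function.Surjective T
  avg : ∀ (f : ℂ → ℝ) (x : ℂ) (r : ℝ),
    Real.circleAverage (fun y => f (T y)) x r = Real.circleAverage f (T x) r

/-- exchange of the two coordinates -/
noncomputable def swap (z : ℂ) : ℂ := I * conj z

end MStress
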