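import Pool.Agent.MStress.Defs
/-!
# ISO : rigid motions preserve circle averages
`circleAverage f x r = (2π)⁻¹ ∫_0^{2π} f (x + r e^{iθ}) dθ`; `a = e^{iα}`:
`a * conj (x + r e^{iθ}) + b = (a conj x + b) + r e^{i(α - θ)}`, periodicity.
-/
open Complex Metric Set Filter Topology
open scoped ComplexConjugate
namespace MStress

theorem iso_circleMap_period (c : ℂ) (R θ : ℝ) :
    circleMap c R (θ + 2 * Real.pi) = circleMap c R θ := periodic_circleMap c R θ

theorem rigid_rot {a b : ℂ} (ha : ‖a‖ = 1) : Rigid (fun y => a * y + b) where
  iso x y := by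
    have : a * x + b - (a * y + b) = a * (x - y) := by ring
    rw [this, norm_mul, ha, one_mul]
  surj y := by
    have ha0 : a ≠ 0 := by
      rintro rfl
      simp at ha
    exact ⟨a⁻¹ * (y - b), by field_simp; ring⟩
  avg f x r := by
    have hexp : a = Complex.exp ((Complex.arg a : ℂ) * I) := by
      have := Complex.norm_mul_exp_arg_mul_I a
      rw [ha] at this
      simpa using this.symm
    unfold Real.circleAverage
    congr 1
    have key : ∀ θ : ℝ, a * circleMap x r θ + b = circleMap (a * x + b) r (θ + Complex.arg a) := by
      intro θ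
      simp only [circleMap]
      push_cast
      rw [add_mul, Complex.exp_add, ← hexp]
      ring
    simp only [key]
    rw [intervalIntegral.integral_comp_add_right
      (fun θ : ℝ => f (circleMap (a * x + b) r θ)) (Complex.arg a)]
    have hper : Function.Periodic (fun θ : ℝ => f (circleMap (a * x + b) r θ))
        (2 * Real.pi) := by
      intro θ
      simp only [iso_circleMap_period]
    have := hper.intervalIntegral_add_eq (Complex.arg a) 0
    rw [zero_add] at this
    rw [zero_add, add_comm (2 * Real.pi) (Complex.arg a)]
    exact this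

theorem rigid_conj : Rigid (fun y => conj y) where
  iso x y := by
    rw [← map_sub, Complex.norm_conj]
  surj y := ⟨conj y, by simp⟩
  avg f x r := by
    unfold Real.circleAverage
    congr 1
    have key : ∀ θ : ℝ, conj (circleMap x r θ) = circleMap (conj x) r (2 * Real.pi - θ) := by
      intro θ
      have h1 : circleMap (conj x) r (2 * Real.pi - θ) = circleMap (conj x) r (-θ) := by
        have := iso_circleMap_period (conj x) r (-θ)
        rw [← this]
        congr 1
        ring
      rw [h1]
      simp only [circleMap, map_add, map_mul, Complex.conj_ofReal]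
      rw [← Complex.exp_conj]
      simp
    simp only [key]
    rw [intervalIntegral.integral_comp_sub_left
      (fun θ : ℝ => f (circleMap (conj x) r θ)) (2 * Real.pi)]
    simp

theorem Rigid.comp {S T : ℂ → ℂ} (hS : Rigid S) (hT : Rigid T) : Rigid (fun y => S (T y)) where
  iso x y := by rw [hS.iso, hT.iso]
  surj := hS.surj.comp hT.surj
  avg f x r := by rw [hT.avg (fun w => f (S w)), hS.avg]

theorem rigid_refl {a b : ℂ} (ha : ‖a‖ = 1) : Rigid (fun y => a * conj y + b) :=
  (rigid_rot ha).comp rigid_conj

theorem Rigid.continuous {T : ℂ → ℂ} (hT : Rigid T) : Continuous T := by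
  have : Isometry T := by
    refine Isometry.of_dist_eq ?_
    intro x y
    rw [dist_eq_norm, dist_eq_norm]
    exact hT.iso x y
  exact this.continuous

/-- `U ∘ T` has the same mean value property on `T ⁻¹' Ω`. -/
theorem Tor.comp {Ω : Set ℂ} {U : ℂ → ℝ} (hU : Tor Ω U) {T : ℂ → ℂ} (hT : Rigid T) :
    Tor (T ⁻¹' Ω) (fun y => U (T y)) where
  cont := hU.cont.comp hT.continuous
  zero x hx := hU.zero _ hx
  mean x hx := by
    filter_upwards [hU.mean (T x) hx] with r hr
    rw [hT.avg, hr]

end MStress
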