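import Pool.Agent.MStress.Defs
/-!
# MVU : the zero extension of a torsion function satisfies `Tor`

* continuity: `continuous_indicator` (u = 0 on the frontier, continuous on the closure);
* mean value: `h z = u z + ‖z‖^2 / 2` is harmonic on `Ω` (Mathlib: `ContDiffOn`, `Δ (‖·‖^2/2) = 2` on `ℂ`,
  e.g. `laplacian_eq_iteratedFDeriv_complexPlane`, or `‖z‖^2 = re^2 + im^2`), so
  `InnerProductSpace.HarmonicOnNhd.circleAverage_eq` applies on small closed balls, and the circle average
  of `‖·‖^2` over the circle `(x, r)` is `‖x‖^2 + r^2`.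
-/
open Complex Metric Set Filter Topology InnerProductSpace
open scoped ComplexConjugate Laplacian
namespace MStress

theorem circleAverage_re_conj_mul (x : ℂ) (r : ℝ) :
    Real.circleAverage (fun y => (conj x * y).re) x r = ‖x‖ ^ 2 := by
  have hd : DiffContOnCl ℂ (fun y : ℂ => conj x * y) (ball x |r|) :=
    (Differentiable.diffContOnCl (by fun_prop))
  have h1 := hd.circleAverage
  have h2 := Complex.reCLM.circleAverage_comp_comm (f := fun y : ℂ => conj x * y) (c := x) (R := r)
    ((Continuous.continuousOn (by fun_prop)).circleIntegrable')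
  have h3 : (⇑Complex.reCLM ∘ fun y : ℂ => conj x * y) = fun y => (conj x * y).re := rfl
  rw [h3] at h2
  rw [h2, h1]
  simp only [reCLM_apply]
  rw [mul_comm, Complex.mul_conj, Complex.ofReal_re, Complex.normSq_eq_norm_sq]

theorem circleAverage_normSq (x : ℂ) (r : ℝ) :
    Real.circleAverage (fun y => ‖y‖ ^ 2) x r = ‖x‖ ^ 2 + r ^ 2 := by
  have h1 : Set.EqOn (fun y : ℂ => ‖y‖ ^ 2) (fun y => 2 * (conj x * y).re + (r ^ 2 - ‖x‖ ^ 2))
      (sphere x |r|) := by
    intro y hy
    have hy' : ‖y - x‖ ^ 2 = r ^ 2 := by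
      rw [mem_sphere, dist_eq_norm] at hy
      rw [hy, sq_abs]
    simp only [← Complex.normSq_eq_norm_sq, Complex.normSq_apply, Complex.sub_re, Complex.sub_im,
      Complex.mul_re, Complex.conj_re, Complex.conj_im] at hy' ⊢
    nlinarith
  rw [Real.circleAverage_congr_sphere h1]
  have hc : Continuous (fun y : ℂ => 2 * (conj x * y).re) := by fun_prop
  rw [Real.circleAverage_fun_add hc.continuousOn.circleIntegrable'
    continuousOn_const.circleIntegrable']
  have h2 : Real.circleAverage (fun y : ℂ => 2 * (conj x * y).re) x r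
      = 2 * Real.circleAverage (fun y : ℂ => (conj x * y).re) x r := by
    have := Real.circleAverage_fun_smul (a := (2:ℝ)) (f := fun y : ℂ => (conj x * y).re) (c := x)
      (R := r)
    simpa [smul_eq_mul] using this
  rw [h2, circleAverage_re_conj_mul, Real.circleAverage_const]
  ring

theorem laplacian_normSq (z : ℂ) : Δ (fun y : ℂ => ‖y‖ ^ 2) z = 4 := by
  rw [laplacian_eq_iteratedFDeriv_complexPlane]
  simp only [iteratedFDeriv_two_apply, fderiv_norm_sq]
  have e : ((2 : ℕ) • ⇑(innerSL ℝ (E := ℂ))) = ⇑((2 : ℕ) • innerSL ℝ (E := ℂ)) := rfl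
  rw [e, ContinuousLinearMap.fderiv]
  have h1 : ((innerSL ℝ) (1:ℂ)) 1 = (1:ℝ) := by
    rw [innerSL_apply_apply, real_inner_self_eq_norm_sq]; simp
  have h2 : ((innerSL ℝ) (I:ℂ)) I = (1:ℝ) := by
    rw [innerSL_apply_apply, real_inner_self_eq_norm_sq]; simp
  simp
  rw [h1, h2]
  norm_num

theorem Torsion.tor {Ω : Set ℂ} {u : ℂ → ℝ} (hΩ : IsOpen Ω) (hu : Torsion Ω u) :
    Tor Ω (Ω.indicator u) where
  cont := by
    refine continuous_indicator hu.bdry ?_
    exact hu.cont
  zero x hx := by simp [hx]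
  mean x hx := by
    have hharm : HarmonicOnNhd (fun z => u z + (1/2:ℝ) * ‖z‖ ^ 2) Ω := by
      intro z hz
      have hu2 : ContDiffAt ℝ 2 u z := hu.smooth.contDiffAt (hΩ.mem_nhds hz)
      have hn2 : ContDiff ℝ 2 (fun z : ℂ => ‖z‖ ^ 2) := contDiff_norm_sq ℝ
      refine ⟨hu2.add (contDiffAt_const.mul hn2.contDiffAt), ?_⟩
      filter_upwards [hΩ.mem_nhds hz] with w hw
      have hw2 : ContDiffAt ℝ 2 u w := hu.smooth.contDiffAt (hΩ.mem_nhds hw)
      have e1 := hw2.laplacian_add (f₂ := fun z : ℂ => (1/2:ℝ) * ‖z‖ ^ 2)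
        (contDiffAt_const.mul hn2.contDiffAt)
      have e2 : Δ (fun z : ℂ => (1/2:ℝ) * ‖z‖ ^ 2) w = 2 := by
        have := laplacian_smul (f := fun z : ℂ => ‖z‖ ^ 2) (x := w) (1/2:ℝ) hn2.contDiffAt
        have e3 : ((1/2:ℝ) • fun z : ℂ => ‖z‖ ^ 2) = fun z : ℂ => (1/2:ℝ) * ‖z‖ ^ 2 := rfl
        rw [e3, laplacian_normSq] at this
        rw [this]
        norm_num
      have e4 : (u + fun z : ℂ => (1/2:ℝ) * ‖z‖ ^ 2) = fun z => u z + (1/2:ℝ) * ‖z‖ ^ 2 := rfl
      rw [e4] at e1
      rw [e1, e2, hu.lap w hw]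
      simp
    obtain ⟨ε, hε, hball⟩ := Metric.isOpen_iff.1 hΩ x hx
    have : ∀ᶠ r in 𝓝[>] (0:ℝ), r ∈ Ioo (0:ℝ) ε := Ioo_mem_nhdsGT hε
    filter_upwards [this] with r hr
    have hsub : closedBall x |r| ⊆ Ω := by
      rw [abs_of_pos hr.1]
      exact (closedBall_subset_ball hr.2).trans hball
    have hh : HarmonicOnNhd (fun z => u z + (1/2:ℝ) * ‖z‖ ^ 2) (closedBall x |r|) :=
      fun z hz => hharm z (hsub hz)
    have havg := hh.circleAverage_eq
    have hsph : sphere x |r| ⊆ Ω := sphere_subset_closedBall.trans hsub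
    have huc : ContinuousOn u (sphere x |r|) := hu.smooth.continuousOn.mono hsph
    have hnc : Continuous (fun z : ℂ => (1/2:ℝ) * ‖z‖ ^ 2) := by fun_prop
    rw [Real.circleAverage_fun_add huc.circleIntegrable' hnc.continuousOn.circleIntegrable'] at havg
    have e5 : Real.circleAverage (fun z : ℂ => (1/2:ℝ) * ‖z‖ ^ 2) x r
        = (1/2) * Real.circleAverage (fun z : ℂ => ‖z‖ ^ 2) x r := by
      have := Real.circleAverage_fun_smul (a := (1/2:ℝ)) (f := fun y : ℂ => ‖y‖ ^ 2) (c := x)
        (R := r)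
      simpa [smul_eq_mul] using this
    rw [e5, circleAverage_normSq] at havg
    have e6 : Real.circleAverage (Ω.indicator u) x r = Real.circleAverage u x r := by
      apply Real.circleAverage_congr_sphere
      intro y hy
      simp [Set.indicator_of_mem (hsph hy)]
    rw [e6, Set.indicator_of_mem hx]
    linarith

end MStress
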