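import Pool.Agent.MStress.WMP
import Pool.Agent.MStress.MVU
import Pool.Agent.MStress.ISO
/-!
# HD : half disc barrier

`d y = -((y - ζ) * conj ν).re` (distance to the line, positive inside), `y_r = ζ - r ν`, `y* = ζ + r ν`.
`h y = log (‖y - y*‖ / ‖y - y_r‖) = (1/2) log (1 + 4 r d / ‖y - y_r‖²)` (since `‖y-y*‖² - ‖y-y_r‖² = 4 r d`),
harmonic away from `y_r, y*`. Barrier
`b y = λ (h y - d y / (4 r)) - (8 r d y - d y ^ 2)`, `λ = g / log (3/θ)`;
`circleAverage b y ρ = b y + ρ²/2` (the average of `d²` is `d² + ρ²/2`).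
Region `A = {d > 0, ‖y - ζ‖ < 4 r, ‖y - y_r‖ > θ r}`; `q - b` is super-mean-valued; frontier:
`d = 0`: `b = 0`; `‖y-ζ‖ = 4r`: `h ≤ 2 r d/(3r)² ≤ d/(4r)`, and `8 r d ≥ d²`: `b ≤ 0 ≤ q`;
`‖y-y_r‖ = θ r`: `b ≤ λ log ((2r+θr)/(θ r)) ≤ λ log (3/θ) = g ≤ q`. `weak_max`.
For `‖y-ζ‖ ≤ r/4`: `‖y-y_r‖ ≤ 5r/4`, `h ≥ (1/2) log (1 + 2.56 d/r) ≥ (1/2)(2.56 d/r)/(1.64) ≥ 0.78 d/r`
(`log (1+x) ≥ x/(1+x)`, `d/r ≤ 1/4`), so `q ≥ b ≥ λ d/(2r) - 8 r d`.
-/
open Complex Metric Set Filter Topology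
open scoped ComplexConjugate
namespace MStress

/-- harmonic part of the barrier -/
noncomputable def HD_H (ζ ν : ℂ) (r l : ℝ) (y : ℂ) : ℝ :=
  (l * (Real.log ‖y - (ζ + r * ν)‖ - Real.log ‖y - (ζ - r * ν)‖)
    + (l / (4 * r) + 8 * r) * ((y - ζ) * conj ν).re) + (1 / 2) * (((y - ζ) * conj ν) ^ 2).re

theorem HD_harm {ζ ν : ℂ} {r l : ℝ} {y : ℂ} (h1 : y ≠ ζ + r * ν) (h2 : y ≠ ζ - r * ν) :
    InnerProductSpace.HarmonicAt (HD_H ζ ν r l) y := by
  have a1 : InnerProductSpace.HarmonicAt (fun z : ℂ => Real.log ‖z - (ζ + r * ν)‖) y := by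
    apply AnalyticAt.harmonicAt_log_norm (f := fun z : ℂ => z - (ζ + r * ν))
    · fun_prop
    · exact sub_ne_zero.mpr h1
  have a2 : InnerProductSpace.HarmonicAt (fun z : ℂ => Real.log ‖z - (ζ - r * ν)‖) y := by
    apply AnalyticAt.harmonicAt_log_norm (f := fun z : ℂ => z - (ζ - r * ν))
    · fun_prop
    · exact sub_ne_zero.mpr h2
  have a3 : InnerProductSpace.HarmonicAt (fun z : ℂ => ((z - ζ) * conj ν).re) y := by
    apply AnalyticAt.harmonicAt_re (f := fun z : ℂ => ((z - ζ) * conj ν))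
    fun_prop
  have a4 : InnerProductSpace.HarmonicAt (fun z : ℂ => (((z - ζ) * conj ν) ^ 2).re) y := by
    apply AnalyticAt.harmonicAt_re (f := fun z : ℂ => ((z - ζ) * conj ν) ^ 2)
    fun_prop
  have := (((a1.sub a2).const_smul (c := l)).add (a3.const_smul (c := (l / (4 * r) + 8 * r)))).add
    (a4.const_smul (c := (1/2 : ℝ)))
  exact this

/-- the barrier -/
noncomputable def HD_b (ζ ν : ℂ) (r l : ℝ) (y : ℂ) : ℝ :=
  HD_H ζ ν r l y + (1 / 2) * ‖y - ζ‖ ^ 2

theorem HD_b_eq {ζ ν : ℂ} (hν : ‖ν‖ = 1) (r l : ℝ) (y : ℂ) :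
    HD_b ζ ν r l y =
      l * ((Real.log ‖y - (ζ + r * ν)‖ - Real.log ‖y - (ζ - r * ν)‖)
        - (-((y - ζ) * conj ν).re) / (4 * r))
      - (8 * r * (-((y - ζ) * conj ν).re) - (-((y - ζ) * conj ν).re) ^ 2) := by
  have h1 : ‖y - ζ‖ ^ 2 = ‖(y - ζ) * conj ν‖ ^ 2 := by
    rw [norm_mul, RCLike.norm_conj, hν, mul_one]
  have h2 : ‖(y - ζ) * conj ν‖ ^ 2 = ((y - ζ) * conj ν).re ^ 2 + ((y - ζ) * conj ν).im ^ 2 := by
    rw [← Complex.normSq_eq_norm_sq, Complex.normSq_apply]; ring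
  have h3 : (((y - ζ) * conj ν) ^ 2).re = ((y - ζ) * conj ν).re ^ 2 - ((y - ζ) * conj ν).im ^ 2 := by
    rw [pow_two ((y - ζ) * conj ν), Complex.mul_re]; ring
  unfold HD_b HD_H
  rw [h1, h2, h3]
  ring

theorem HD_normSq {ζ ν : ℂ} (r : ℝ) (y : ℂ) :
    ‖y - (ζ + r * ν)‖ ^ 2 = ‖y - (ζ - r * ν)‖ ^ 2 + 4 * r * (-((y - ζ) * conj ν).re) := by
  rw [← Complex.normSq_eq_norm_sq, ← Complex.normSq_eq_norm_sq, Complex.normSq_apply,
    Complex.normSq_apply]
  simp only [Complex.sub_re, Complex.add_re, Complex.mul_re, Complex.ofReal_re, Complex.ofReal_im,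
    Complex.sub_im, Complex.add_im, Complex.mul_im, Complex.conj_re, Complex.conj_im]
  ring

theorem HD_avg {ζ ν : ℂ} {r l : ℝ} {y : ℂ} {ρ : ℝ} (hρ : 0 < ρ)
    (h1 : ρ < ‖y - (ζ + r * ν)‖) (h2 : ρ < ‖y - (ζ - r * ν)‖) :
    CircleIntegrable (HD_b ζ ν r l) y ρ ∧
    Real.circleAverage (HD_b ζ ν r l) y ρ = HD_b ζ ν r l y + ρ ^ 2 / 2 := by
  have hharm : InnerProductSpace.HarmonicOnNhd (HD_H ζ ν r l) (closedBall y |ρ|) := by
    intro z hz
    rw [abs_of_pos hρ, mem_closedBall, dist_eq_norm] at hz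
    apply HD_harm
    · rintro rfl
      rw [← norm_neg, neg_sub] at hz
      linarith
    · rintro rfl
      rw [← norm_neg, neg_sub] at hz
      linarith
  have hint : CircleIntegrable (HD_H ζ ν r l) y ρ :=
    (hharm.continuousOn.mono sphere_subset_closedBall).circleIntegrable'
  have hcont : Continuous (fun z : ℂ => (1 / 2 : ℝ) • ‖z - ζ‖ ^ 2) := by fun_prop
  have hint2 : CircleIntegrable (fun z : ℂ => (1 / 2 : ℝ) • ‖z - ζ‖ ^ 2) y ρ :=
    hcont.continuousOn.circleIntegrable'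
  have hbeq : HD_b ζ ν r l = fun z => HD_H ζ ν r l z + (1 / 2 : ℝ) • ‖z - ζ‖ ^ 2 := by
    funext z
    rfl
  constructor
  · rw [hbeq]
    exact hint.add hint2
  · have e1 : Real.circleAverage (HD_b ζ ν r l) y ρ =
        Real.circleAverage (HD_H ζ ν r l) y ρ +
          Real.circleAverage (fun z : ℂ => (1 / 2 : ℝ) • ‖z - ζ‖ ^ 2) y ρ := by
      rw [hbeq]
      exact Real.circleAverage_fun_add hint hint2
    have e2 : Real.circleAverage (fun z : ℂ => (1 / 2 : ℝ) • ‖z - ζ‖ ^ 2) y ρ =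
        (1 / 2 : ℝ) • (‖y - ζ‖ ^ 2 + ρ ^ 2) := by
      rw [Real.circleAverage_fun_smul]
      congr 1
      have := (rigid_rot (a := 1) (b := -ζ) (by simp)).avg (fun z => ‖z‖ ^ 2) y ρ
      simp only [one_mul, ← sub_eq_add_neg] at this
      rw [this, circleAverage_normSq]
    rw [e1, e2, hharm.circleAverage_eq]
    unfold HD_b
    simp only [smul_eq_mul]
    ring

theorem half_disc {q : ℂ → ℝ} (hq : Continuous q) {ζ ν : ℂ} (hν : ‖ν‖ = 1) {r θ g : ℝ}
    (hr : 0 < r) (hθ : 0 < θ) (hθ' : θ ≤ 1 / 2) (hg : 0 < g)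
    (hmv : ∀ y, ∀ᶠ ρ in 𝓝[>] (0:ℝ), Real.circleAverage q y ρ ≤ q y + ρ ^ 2 / 2)
    (h0 : ∀ y, ((y - ζ) * conj ν).re ≤ 0 → 0 ≤ q y)
    (hgap : ∀ y, ‖y - (ζ - r * ν)‖ ≤ θ * r → g ≤ q y) :
    ∀ y, ((y - ζ) * conj ν).re ≤ 0 → ‖y - ζ‖ ≤ r / 4 →
      (g / (2 * Real.log (3 / θ) * r) - 8 * r) * (-((y - ζ) * conj ν).re) ≤ q y := by
  have h3θ : 1 < 3 / θ := by
    rw [lt_div_iff₀ hθ]; linarith
  have hlog : 0 < Real.log (3 / θ) := Real.log_pos h3θ
  set l : ℝ := g / Real.log (3 / θ) with hl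
  have hlpos : 0 < l := div_pos hg hlog
  have hll : l * Real.log (3 / θ) = g := by
    rw [hl]; field_simp
  -- the region
  set A : Set ℂ := {y | ((y - ζ) * conj ν).re < 0 ∧ ‖y - ζ‖ < 4 * r ∧
    θ * r < ‖y - (ζ - r * ν)‖} with hA
  have hc1 : Continuous (fun y : ℂ => ((y - ζ) * conj ν).re) := by fun_prop
  have hc2 : Continuous (fun y : ℂ => ‖y - ζ‖) := by fun_prop
  have hc3 : Continuous (fun y : ℂ => ‖y - (ζ - r * ν)‖) := by fun_prop
  have hAo : IsOpen A := by
    apply (isOpen_lt hc1 continuous_const).inter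
    apply (isOpen_lt hc2 continuous_const).inter
    exact isOpen_lt continuous_const hc3
  have hAb : Bornology.IsBounded A := by
    apply (isBounded_ball (x := ζ) (r := 4 * r)).subset
    intro y hy
    rw [mem_ball, dist_eq_norm]
    exact hy.2.1
  have hcl : closure A ⊆ {y | ((y - ζ) * conj ν).re ≤ 0 ∧ ‖y - ζ‖ ≤ 4 * r ∧
      θ * r ≤ ‖y - (ζ - r * ν)‖} := by
    apply closure_minimal
    · intro y hy
      exact ⟨hy.1.le, hy.2.1.le, hy.2.2.le⟩
    · apply (isClosed_le hc1 continuous_const).inter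
      apply (isClosed_le hc2 continuous_const).inter
      exact isClosed_le continuous_const hc3
  have hpos1 : ∀ y ∈ closure A, 0 < ‖y - (ζ - r * ν)‖ := by
    intro y hy
    exact lt_of_lt_of_le (mul_pos hθ hr) (hcl hy).2.2
  have hpos2 : ∀ y ∈ closure A, 0 < ‖y - (ζ + r * ν)‖ := by
    intro y hy
    have h1 := hpos1 y hy
    have h2 := HD_normSq (ζ := ζ) (ν := ν) r y
    have h3 := (hcl hy).1
    have h4 : 0 ≤ 4 * r * (-((y - ζ) * conj ν).re) := by
      apply mul_nonneg (by positivity); linarith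
    have h5 : 0 < ‖y - (ζ + r * ν)‖ ^ 2 := by
      rw [h2]
      have : 0 < ‖y - (ζ - r * ν)‖ ^ 2 := by positivity
      linarith
    rcases (norm_nonneg (y - (ζ + r * ν))).lt_or_eq with h | h
    · exact h
    · rw [← h] at h5; norm_num at h5
  have hne1 : ∀ y ∈ closure A, y ≠ ζ - r * ν := by
    intro y hy h
    have := hpos1 y hy
    rw [h, sub_self, norm_zero] at this
    exact lt_irrefl _ this
  have hne2 : ∀ y ∈ closure A, y ≠ ζ + r * ν := by
    intro y hy h
    have := hpos2 y hy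
    rw [h, sub_self, norm_zero] at this
    exact lt_irrefl _ this
  have hdle : ∀ y : ℂ, |((y - ζ) * conj ν).re| ≤ ‖y - ζ‖ := by
    intro y
    have h1 : ‖(y - ζ) * conj ν‖ = ‖y - ζ‖ := by
      rw [norm_mul, RCLike.norm_conj, hν, mul_one]
    rw [← h1]
    exact Complex.abs_re_le_norm _
  -- log formula
  have hlogf : ∀ y ∈ closure A, Real.log ‖y - (ζ + r * ν)‖ - Real.log ‖y - (ζ - r * ν)‖ =
      (1 / 2) * Real.log (1 + 4 * r * (-((y - ζ) * conj ν).re) / ‖y - (ζ - r * ν)‖ ^ 2) := by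
    intro y hy
    have h1 := hpos1 y hy
    have h2 := hpos2 y hy
    have h3 := HD_normSq (ζ := ζ) (ν := ν) r y
    have h4 : 1 + 4 * r * (-((y - ζ) * conj ν).re) / ‖y - (ζ - r * ν)‖ ^ 2 =
        (‖y - (ζ + r * ν)‖ / ‖y - (ζ - r * ν)‖) ^ 2 := by
      rw [div_pow, h3]
      field_simp
    rw [h4, Real.log_pow, Real.log_div h2.ne' h1.ne']
    push_cast
    ring
  -- main inequality
  have hmain : ∀ x ∈ closure A, 0 ≤ q x - HD_b ζ ν r l x := by
    apply weak_max hAo hAb
    · -- continuity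
      apply hq.continuousOn.sub
      intro x hx
      have hh := HD_harm (l := l) (hne2 x hx) (hne1 x hx)
      have hcx : ContinuousAt (HD_H ζ ν r l) x := hh.1.continuousAt
      have : ContinuousAt (fun y => HD_H ζ ν r l y + (1 / 2) * ‖y - ζ‖ ^ 2) x := by
        apply hcx.add
        fun_prop
      exact this.continuousWithinAt
    · -- super mean value
      intro x hx
      have hx' : x ∈ closure A := subset_closure hx
      have e1 : ∀ᶠ ρ in 𝓝[>] (0:ℝ), 0 < ρ := eventually_mem_nhdsWithin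
      have e2 : ∀ᶠ ρ in 𝓝[>] (0:ℝ), ρ < ‖x - (ζ + r * ν)‖ :=
        mem_nhdsWithin_of_mem_nhds (Iio_mem_nhds (hpos2 x hx'))
      have e3 : ∀ᶠ ρ in 𝓝[>] (0:ℝ), ρ < ‖x - (ζ - r * ν)‖ :=
        mem_nhdsWithin_of_mem_nhds (Iio_mem_nhds (hpos1 x hx'))
      unfold SuperMV
      filter_upwards [e1, e2, e3, hmv x] with ρ hρ0 hρ1 hρ2 hρ3
      obtain ⟨hi, ha⟩ := HD_avg (l := l) hρ0 hρ1 hρ2
      have hqi : CircleIntegrable q x ρ := hq.continuousOn.circleIntegrable'
      rw [Real.circleAverage_fun_sub hqi hi, ha]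
      linarith
    · -- frontier
      intro x hx
      have hx' : x ∈ closure A := frontier_subset_closure hx
      have hxA : x ∉ A := by
        intro h
        rw [frontier, hAo.interior_eq] at hx
        exact hx.2 h
      obtain ⟨c1, c2, c3⟩ := hcl hx'
      rw [HD_b_eq hν]
      set d : ℝ := -((x - ζ) * conj ν).re with hd
      have hd0 : 0 ≤ d := by rw [hd]; linarith
      have hdn : d ≤ ‖x - ζ‖ := by
        have := hdle x
        have h2 := neg_abs_le (((x - ζ) * conj ν).re)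
        rw [hd]; linarith
      have hd4 : d ≤ 4 * r := hdn.trans c2
      have hquad : 0 ≤ 8 * r * d - d ^ 2 := by nlinarith
      have hxx := hpos1 x hx'
      rcases eq_or_lt_of_le hd0 with hdz | hdp
      · -- d = 0
        have hnn := HD_normSq (ζ := ζ) (ν := ν) r x
        rw [← hd, ← hdz] at hnn
        have heq : ‖x - (ζ + r * ν)‖ = ‖x - (ζ - r * ν)‖ := by
          have h5 : ‖x - (ζ + r * ν)‖ ^ 2 = ‖x - (ζ - r * ν)‖ ^ 2 := by rw [hnn]; ring
          exact (pow_left_inj₀ (norm_nonneg _) (norm_nonneg _) (by norm_num)).mp h5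
        rw [heq, ← hdz]
        have := h0 x (by linarith)
        simpa using this
      · have hlt : ((x - ζ) * conj ν).re < 0 := by
          rw [hd] at hdp; linarith
        by_cases hfar : ‖x - ζ‖ < 4 * r
        · -- ‖x - y_r‖ ≤ θ r
          have hnear : ‖x - (ζ - r * ν)‖ ≤ θ * r := by
            by_contra hcon
            exact hxA ⟨hlt, hfar, not_le.mp hcon⟩
          have hgq := hgap x hnear
          have hub : ‖x - (ζ + r * ν)‖ ≤ (2 + θ) * r := by
            have h7 : x - (ζ + r * ν) = (x - (ζ - r * ν)) - (2 * r : ℝ) * ν := by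
              push_cast; ring
            rw [h7]
            refine (norm_sub_le _ _).trans ?_
            rw [norm_mul, hν, mul_one, Complex.norm_real, Real.norm_eq_abs,
              abs_of_pos (by positivity)]
            linarith
          have hle : Real.log ‖x - (ζ + r * ν)‖ - Real.log ‖x - (ζ - r * ν)‖ ≤
              Real.log (3 / θ) := by
            have heq : ‖x - (ζ - r * ν)‖ = θ * r := le_antisymm hnear c3
            rw [heq, ← Real.log_div (hpos2 x hx').ne' (by positivity)]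
            apply Real.log_le_log
            · have := hpos2 x hx'
              positivity
            · rw [div_le_div_iff₀ (by positivity) hθ]
              nlinarith
          have h9 : l * (Real.log ‖x - (ζ + r * ν)‖ - Real.log ‖x - (ζ - r * ν)‖ - d / (4 * r))
              ≤ g := by
            have : 0 ≤ d / (4 * r) := by positivity
            calc l * (Real.log ‖x - (ζ + r * ν)‖ - Real.log ‖x - (ζ - r * ν)‖ - d / (4 * r))
                ≤ l * Real.log (3 / θ) := by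
                  apply mul_le_mul_of_nonneg_left _ hlpos.le
                  linarith
              _ = g := hll
          linarith
        · -- ‖x - ζ‖ = 4 r
          push Not at hfar
          have hx3 : 3 * r ≤ ‖x - (ζ - r * ν)‖ := by
            have h7 : x - ζ = (x - (ζ - r * ν)) - (r : ℝ) * ν := by
              push_cast; ring
            have h8 : ‖x - ζ‖ ≤ ‖x - (ζ - r * ν)‖ + r := by
              conv_lhs => rw [h7]
              refine (norm_sub_le _ _).trans ?_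
              rw [norm_mul, hν, mul_one, Complex.norm_real, Real.norm_eq_abs, abs_of_pos hr]
            linarith
          have hle : Real.log ‖x - (ζ + r * ν)‖ - Real.log ‖x - (ζ - r * ν)‖ ≤ d / (4 * r) := by
            rw [hlogf x hx', ← hd]
            have h10 : 4 * r * d / ‖x - (ζ - r * ν)‖ ^ 2 ≤ 4 * r * d / (3 * r) ^ 2 := by
              apply div_le_div_of_nonneg_left (by positivity) (by positivity)
              exact pow_le_pow_left₀ (by positivity) hx3 2
            have h11 : (0:ℝ) < 1 + 4 * r * d / ‖x - (ζ - r * ν)‖ ^ 2 := by positivity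
            have h12 := Real.log_le_sub_one_of_pos h11
            have h13 : 4 * r * d / (3 * r) ^ 2 = (4 / 9) * (d / r) := by
              field_simp
              ring
            have h14 : d / (4 * r) = (1 / 4) * (d / r) := by
              field_simp
            have h15 : 0 ≤ d / r := by positivity
            rw [h14]
            linarith
          have h9 : l * (Real.log ‖x - (ζ + r * ν)‖ - Real.log ‖x - (ζ - r * ν)‖ - d / (4 * r))
              ≤ 0 := by
            apply mul_nonpos_of_nonneg_of_nonpos hlpos.le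
            linarith
          have := h0 x c1
          linarith
  -- conclusion
  intro y hy1 hy2
  rcases eq_or_lt_of_le hy1 with hz | hz
  · rw [hz]
    have := h0 y hy1
    simpa using this
  have hx3 : 3 / 4 * r ≤ ‖y - (ζ - r * ν)‖ := by
    have h7 : (r : ℝ) * ν = (y - (ζ - r * ν)) - (y - ζ) := by
      ring
    have h8 : r ≤ ‖y - (ζ - r * ν)‖ + ‖y - ζ‖ := by
      have h9 : ‖(r : ℂ) * ν‖ = r := by
        rw [norm_mul, hν, mul_one, Complex.norm_real, Real.norm_eq_abs, abs_of_pos hr]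
      have h10 : ‖(r : ℂ) * ν‖ ≤ ‖y - (ζ - r * ν)‖ + ‖y - ζ‖ := by
        conv_lhs => rw [h7]
        exact norm_sub_le (y - (ζ - r * ν)) (y - ζ)
      linarith
    linarith
  have hx5 : ‖y - (ζ - r * ν)‖ ≤ 5 / 4 * r := by
    have h7 : (y - (ζ - r * ν)) = (y - ζ) + (r : ℝ) * ν := by
      push_cast; ring
    have : ‖(r : ℂ) * ν‖ = r := by
      rw [norm_mul, hν, mul_one, Complex.norm_real, Real.norm_eq_abs, abs_of_pos hr]
    rw [h7]
    refine (norm_add_le _ _).trans ?_
    rw [this]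
    linarith
  have hyA : y ∈ closure A := by
    apply subset_closure
    refine ⟨hz, by linarith, ?_⟩
    nlinarith
  have hm := hmain y hyA
  rw [HD_b_eq hν, hlogf y hyA] at hm
  set d : ℝ := -((y - ζ) * conj ν).re with hd
  have hd0 : 0 < d := by rw [hd]; linarith
  have hdn : d ≤ r / 4 := by
    have := hdle y
    have h2 := neg_abs_le (((y - ζ) * conj ν).re)
    rw [hd]; linarith
  have hn := hpos1 y hyA
  -- lower bound of the logarithm
  have hlow : 3 / 4 * (d / r) ≤
      (1 / 2) * Real.log (1 + 4 * r * d / ‖y - (ζ - r * ν)‖ ^ 2) := by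
    have h10 : 4 * r * d / (5 / 4 * r) ^ 2 ≤ 4 * r * d / ‖y - (ζ - r * ν)‖ ^ 2 := by
      apply div_le_div_of_nonneg_left (by positivity) (by positivity)
      exact pow_le_pow_left₀ hn.le hx5 2
    have h13 : 4 * r * d / (5 / 4 * r) ^ 2 = (64 / 25) * (d / r) := by
      field_simp
      ring
    rw [h13] at h10
    set s : ℝ := d / r with hs
    have hs0 : 0 < s := by positivity
    have hs1 : s ≤ 1 / 4 := by
      rw [hs, div_le_iff₀ hr]; linarith
    have h11 : Real.log (1 + 64 / 25 * s) ≤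
        Real.log (1 + 4 * r * d / ‖y - (ζ - r * ν)‖ ^ 2) := by
      apply Real.log_le_log (by positivity)
      linarith
    have h12 := Real.one_sub_inv_le_log_of_pos (x := 1 + 64 / 25 * s) (by positivity)
    have h14 : 3 / 2 * s ≤ 1 - (1 + 64 / 25 * s)⁻¹ := by
      have h15 : 1 - (1 + 64 / 25 * s)⁻¹ = (64 / 25 * s) / (1 + 64 / 25 * s) := by
        field_simp
        ring
      rw [h15, le_div_iff₀ (by positivity)]
      nlinarith
    linarith
  have hfin : (g / (2 * Real.log (3 / θ) * r) - 8 * r) * d =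
      l * (1 / 2 * (d / r)) - 8 * r * d := by
    rw [hl]
    field_simp
  rw [hfin]
  have h16 : d / (4 * r) = (1 / 4) * (d / r) := by
    field_simp
  rw [h16] at hm
  have h17 : l * (1 / 2 * (d / r)) ≤
      l * (1 / 2 * Real.log (1 + 4 * r * d / ‖y - (ζ - r * ν)‖ ^ 2) - 1 / 4 * (d / r)) := by
    apply mul_le_mul_of_nonneg_left _ hlpos.le
    linarith
  nlinarith [sq_nonneg d]

end MStress
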