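import Pool.Agent.MStress.POS
import Pool.Agent.MStress.ISO
/-!
# HOPF : boundary point lemma at `z`

`R = ‖p‖ = ‖z - c‖`, `ρ` small (`ρ < R/2`, `2ρ < r`), `y₀ = z - (ρ/R)(z - c)`; `ball y₀ ρ ⊆ ball c R ∩ ball z r
⊆ Ω`, and `closedBall y₀ ρ \ {z} ⊆ Ω`. `g y = U y - U (T y) ≥ 0` on `ball z r`; `g > 0` on the compact circle
`sphere y₀ (ρ/2)` (if `T y ∈ Ω` by `hcmp`, else `g y = U y > 0`), minimum `m₀ > 0`.
`ε' = min (m₀ / log 2) (ρ²/4)`. On `A = {y | ρ/2 < ‖y - y₀‖ < ρ, T y ∈ Ω}`: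
`f y = U y - U (T y) - ε' log (ρ/‖y - y₀‖)` has the mean value equality (`log ‖·‖` is harmonic:
`AnalyticAt.harmonicAt_log_norm`, `HarmonicOnNhd.circleAverage_eq`), and `f ≥ 0` on the frontier:
`‖y-y₀‖ = ρ`: log = 0; `‖y-y₀‖ = ρ/2`: choice of `ε'`; `T y ∉ Ω`: `U y ≥ (ρ² - ‖y-y₀‖²)/2 ≥ ρ (ρ-s)/2 ≥
ε' · 2(ρ-s)/ρ ≥ ε' log (ρ/s)` (`ge_ball`). `weak_max`. Then `log (ρ/s) ≥ (ρ - s)/ρ`; take `ε = ε'/ρ`
(and for `T y ∉ Ω` again `ge_ball`).
-/
open Complex Metric Set Filter Topology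
open scoped ComplexConjugate
namespace MStress

variable {Ω : Set ℂ} {U : ℂ → ℝ}

theorem hopf_log_harm (y₀ x : ℂ) {ρ : ℝ} (hρ : 0 < ρ) {r : ℝ} (hr : 0 < r) (hx : r < ‖x - y₀‖) :
    InnerProductSpace.HarmonicOnNhd (fun y : ℂ => Real.log ‖(y - y₀) / (ρ : ℂ)‖)
      (closedBall x |r|) := by
  intro y hy
  have hρ' : (ρ : ℂ) ≠ 0 := by exact_mod_cast hρ.ne'
  apply AnalyticAt.harmonicAt_log_norm (f := fun y => (y - y₀) / (ρ : ℂ)) (by fun_prop)
  rw [div_ne_zero_iff]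
  refine ⟨?_, hρ'⟩
  intro h
  have : y = y₀ := sub_eq_zero.1 h
  rw [this, mem_closedBall, dist_comm, dist_eq_norm, abs_of_pos hr] at hy
  exact absurd hx (not_lt.2 hy)

theorem hopf_mean (hU : Tor Ω U) {T : ℂ → ℂ} (hT : Rigid T) (y₀ : ℂ) {ρ ε : ℝ} (hρ : 0 < ρ)
    {x : ℂ} (hx : x ∈ Ω) (hTx : T x ∈ Ω) (hne : x ≠ y₀) :
    SuperMV (fun y => (U y - U (T y)) + ε * Real.log ‖(y - y₀) / (ρ : ℂ)‖) x := by
  have h0 : 0 < ‖x - y₀‖ := norm_pos_iff.2 (sub_ne_zero.2 hne)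
  have h1 := hU.sub_mean (hU.comp hT) hx (show x ∈ T ⁻¹' Ω from hTx)
  unfold SuperMV
  filter_upwards [Ioo_mem_nhdsGT h0, h1] with r hr h1
  have hh := hopf_log_harm y₀ x hρ hr.1 hr.2
  have hi : CircleIntegrable (fun y : ℂ => Real.log ‖(y - y₀) / (ρ : ℂ)‖) x r :=
    (hh.continuousOn.mono sphere_subset_closedBall).circleIntegrable'
  have hi2 : CircleIntegrable (fun y : ℂ => ε * Real.log ‖(y - y₀) / (ρ : ℂ)‖) x r :=
    ((continuousOn_const.mul hh.continuousOn).mono sphere_subset_closedBall).circleIntegrable'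
  have hi1 : CircleIntegrable (fun y : ℂ => U y - U (T y)) x r :=
    ((hU.cont.sub (hU.cont.comp hT.continuous)).continuousOn).circleIntegrable'
  rw [Real.circleAverage_fun_add hi1 hi2]
  have h2 : Real.circleAverage (fun y : ℂ => ε * Real.log ‖(y - y₀) / (ρ : ℂ)‖) x r
      = ε * Real.log ‖(x - y₀) / (ρ : ℂ)‖ := by
    have := Real.circleAverage_fun_smul (a := ε) (f := fun y : ℂ => Real.log ‖(y - y₀) / (ρ : ℂ)‖)
      (c := x) (R := r)
    simp only [smul_eq_mul] at this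
    rw [this, hh.circleAverage_eq]
  rw [h1, h2]

theorem hopf (hU : Tor Ω U) (ho : IsOpen Ω) (hb : Bornology.IsBounded Ω) {p c z : ℂ} {T : ℂ → ℂ}
    (hT : Rigid T) (hTz : T z = p) (hTc : T c = 0) {r : ℝ} (hr : 0 < r) (hR : 0 < ‖p‖)
    (hin : ∀ y ∈ ball z r, ‖y - c‖ < ‖p‖ → y ∈ Ω)
    (hcmp : ∀ y ∈ ball z r, T y ∈ Ω → U (T y) < U y) :
    ∃ ρ ε : ℝ, 0 < ρ ∧ 0 < ε ∧ 2 * ρ < ‖p‖ ∧ 2 * ρ < r ∧
      ball (z - ((ρ / ‖p‖ : ℝ) : ℂ) * (z - c)) ρ ⊆ Ω ∧
      ∀ y ∈ ball (z - ((ρ / ‖p‖ : ℝ) : ℂ) * (z - c)) ρ,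
        ρ / 2 < ‖y - (z - ((ρ / ‖p‖ : ℝ) : ℂ) * (z - c))‖ →
        U (T y) + ε * (ρ - ‖y - (z - ((ρ / ‖p‖ : ℝ) : ℂ) * (z - c))‖) ≤ U y := by
  have hzc : ‖z - c‖ = ‖p‖ := by
    have := hT.iso z c
    rw [hTz, hTc, sub_zero] at this
    exact this.symm
  set R : ℝ := ‖p‖ with hRdef
  obtain ⟨ρ, hρ, hρR, hρr⟩ : ∃ ρ : ℝ, 0 < ρ ∧ 2 * ρ < R ∧ 2 * ρ < r := by
    refine ⟨min (R / 4) (r / 4), lt_min (by positivity) (by positivity), ?_, ?_⟩
    · have := min_le_left (R / 4) (r / 4); linarith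
    · have := min_le_right (R / 4) (r / 4); linarith
  set y₀ : ℂ := z - ((ρ / R : ℝ) : ℂ) * (z - c) with hy₀
  have hzy : ‖y₀ - z‖ = ρ := by
    have : y₀ - z = -(((ρ / R : ℝ) : ℂ) * (z - c)) := by rw [hy₀]; ring
    rw [this, norm_neg, norm_mul, hzc, Complex.norm_real, Real.norm_of_nonneg (by positivity)]
    field_simp
  have hyc : ‖y₀ - c‖ = R - ρ := by
    have : y₀ - c = ((1 - ρ / R : ℝ) : ℂ) * (z - c) := by rw [hy₀]; push_cast; ring
    have h1 : (0:ℝ) ≤ 1 - ρ / R := by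
      rw [sub_nonneg, div_le_one hR]; linarith
    rw [this, norm_mul, hzc, Complex.norm_real, Real.norm_of_nonneg h1]
    field_simp
  have hball_z : ∀ y, ‖y - y₀‖ ≤ ρ → y ∈ ball z r := by
    intro y hy
    rw [mem_ball, dist_eq_norm]
    calc ‖y - z‖ = ‖(y - y₀) + (y₀ - z)‖ := by ring_nf
      _ ≤ ‖y - y₀‖ + ‖y₀ - z‖ := norm_add_le _ _
      _ < r := by rw [hzy]; linarith
  have hballΩ : ball y₀ ρ ⊆ Ω := by
    intro y hy
    rw [mem_ball, dist_eq_norm] at hy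
    apply hin y (hball_z y hy.le)
    calc ‖y - c‖ = ‖(y - y₀) + (y₀ - c)‖ := by ring_nf
      _ ≤ ‖y - y₀‖ + ‖y₀ - c‖ := norm_add_le _ _
      _ < R := by rw [hyc]; linarith
  have hgnn : ∀ y ∈ ball z r, 0 ≤ U y - U (T y) := by
    intro y hy
    by_cases h : T y ∈ Ω
    · exact (sub_pos.2 (hcmp y hy h)).le
    · rw [hU.zero _ h, sub_zero]
      exact hU.nonneg ho hb y
  have hgc : Continuous (fun y => U y - U (T y)) := hU.cont.sub (hU.cont.comp hT.continuous)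
  -- the minimum on the small circle
  obtain ⟨m₀, hm₀, hm₀'⟩ : ∃ m₀ : ℝ, 0 < m₀ ∧ ∀ y ∈ sphere y₀ (ρ / 2), m₀ ≤ U y - U (T y) := by
    have hne : (sphere y₀ (ρ / 2)).Nonempty := by
      rw [NormedSpace.sphere_nonempty]; positivity
    obtain ⟨w, hw, hwm⟩ := (isCompact_sphere y₀ (ρ / 2)).exists_isMinOn hne hgc.continuousOn
    refine ⟨U w - U (T w), ?_, fun y hy => hwm hy⟩
    rw [mem_sphere, dist_eq_norm] at hw
    have hwb : w ∈ ball z r := hball_z w (by rw [hw]; linarith)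
    have hwΩ : w ∈ Ω := hballΩ (by rw [mem_ball, dist_eq_norm, hw]; linarith)
    by_cases h : T w ∈ Ω
    · exact sub_pos.2 (hcmp w hwb h)
    · rw [hU.zero _ h, sub_zero]
      exact hU.pos ho hb hwΩ
  set ε' : ℝ := min (m₀ / Real.log 2) (ρ ^ 2 / 4) with hε'
  have hlog2 : 0 < Real.log 2 := Real.log_pos (by norm_num)
  have hε'pos : 0 < ε' := lt_min (by positivity) (by positivity)
  have hε'1 : ε' * Real.log 2 ≤ m₀ := by
    have : ε' ≤ m₀ / Real.log 2 := min_le_left _ _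
    rwa [le_div_iff₀ hlog2] at this
  have hε'2 : ε' ≤ ρ ^ 2 / 4 := min_le_right _ _
  -- lower bound for U
  have hlow : ∀ y ∈ ball y₀ ρ, ρ / 2 * (ρ - ‖y - y₀‖) ≤ U y := by
    intro y hy
    have h1 := hU.ge_ball ho hb hρ hballΩ y hy
    rw [mem_ball, dist_eq_norm] at hy
    have h2 := norm_nonneg (y - y₀)
    nlinarith
  have hnd : ∀ y : ℂ, ‖(y - y₀) / (ρ : ℂ)‖ = ‖y - y₀‖ / ρ := by
    intro y
    rw [norm_div, Complex.norm_real, Real.norm_of_nonneg hρ.le]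
  set f : ℂ → ℝ := fun y => (U y - U (T y)) + ε' * Real.log ‖(y - y₀) / (ρ : ℂ)‖ with hf
  set A : Set ℂ := {y | ρ / 2 < ‖y - y₀‖ ∧ ‖y - y₀‖ < ρ ∧ T y ∈ Ω} with hA
  have hnc : Continuous (fun y : ℂ => ‖y - y₀‖) := by fun_prop
  have hAo : IsOpen A := by
    have e : A = {y | ρ / 2 < ‖y - y₀‖} ∩ ({y | ‖y - y₀‖ < ρ} ∩ T ⁻¹' Ω) := rfl
    rw [e]
    exact (isOpen_lt continuous_const hnc).inter
      ((isOpen_lt hnc continuous_const).inter (ho.preimage hT.continuous))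
  have hAb : Bornology.IsBounded A := by
    apply (isBounded_ball (x := y₀) (r := ρ)).subset
    intro y hy
    rw [mem_ball, dist_eq_norm]
    exact hy.2.1
  have hAcl : ∀ y ∈ closure A, ρ / 2 ≤ ‖y - y₀‖ ∧ ‖y - y₀‖ ≤ ρ := by
    have hcl : IsClosed {y : ℂ | ρ / 2 ≤ ‖y - y₀‖ ∧ ‖y - y₀‖ ≤ ρ} :=
      (isClosed_le continuous_const hnc).inter (isClosed_le hnc continuous_const)
    have : A ⊆ {y : ℂ | ρ / 2 ≤ ‖y - y₀‖ ∧ ‖y - y₀‖ ≤ ρ} := fun y hy => ⟨hy.1.le, hy.2.1.le⟩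
    exact fun y hy => closure_minimal this hcl hy
  have hfc : ContinuousOn f (closure A) := by
    apply hgc.continuousOn.add
    apply continuousOn_const.mul
    apply ContinuousOn.log
    · fun_prop
    · intro y hy
      rw [hnd]
      have := (hAcl y hy).1
      have : 0 < ‖y - y₀‖ := by linarith
      positivity
  have hfm : ∀ x ∈ A, SuperMV f x := by
    intro x hx
    apply hopf_mean hU hT y₀ hρ _ hx.2.2
    · intro h
      have := hx.1
      rw [h, sub_self, norm_zero] at this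
      linarith
    · apply hballΩ
      rw [mem_ball, dist_eq_norm]
      exact hx.2.1
  have hfb : ∀ x ∈ frontier A, 0 ≤ f x := by
    intro x hx
    have hxc := frontier_subset_closure hx
    have hxA : x ∉ A := by
      rw [hAo.frontier_eq] at hx
      exact hx.2
    obtain ⟨h1, h2⟩ := hAcl x hxc
    have hxb : x ∈ ball z r := hball_z x h2
    rcases h1.eq_or_lt with h1 | h1
    · -- inner circle
      have := hm₀' x (by rw [mem_sphere, dist_eq_norm]; exact h1.symm)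
      simp only [hf]
      rw [hnd, ← h1]
      have e : ρ / 2 / ρ = 2⁻¹ := by field_simp
      rw [e, Real.log_inv]
      linarith
    rcases h2.eq_or_lt with h2 | h2
    · simp only [hf]
      rw [hnd, h2, div_self hρ.ne', Real.log_one, mul_zero, add_zero]
      exact hgnn x hxb
    have h3 : T x ∉ Ω := fun h => hxA ⟨h1, h2, h⟩
    simp only [hf]
    rw [hU.zero _ h3, sub_zero, hnd]
    have h4 := hlow x (by rw [mem_ball, dist_eq_norm]; exact h2)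
    set s := ‖x - y₀‖ with hs
    have hs0 : 0 < s := by linarith
    have h5 : -Real.log (s / ρ) ≤ 2 * (ρ - s) / ρ := by
      have e : -Real.log (s / ρ) = Real.log (ρ / s) := by
        rw [← Real.log_inv, inv_div]
      rw [e]
      have h6 : Real.log (ρ / s) ≤ ρ / s - 1 := Real.log_le_sub_one_of_pos (by positivity)
      refine h6.trans ?_
      rw [div_sub_one hs0.ne', div_le_div_iff₀ hs0 hρ]
      nlinarith
    have h7 : ε' * (-Real.log (s / ρ)) ≤ ρ / 2 * (ρ - s) := by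
      calc ε' * (-Real.log (s / ρ)) ≤ ε' * (2 * (ρ - s) / ρ) :=
            mul_le_mul_of_nonneg_left h5 hε'pos.le
        _ ≤ ρ ^ 2 / 4 * (2 * (ρ - s) / ρ) := by
            apply mul_le_mul_of_nonneg_right hε'2
            have : 0 < ρ - s := by linarith
            positivity
        _ = ρ / 2 * (ρ - s) := by field_simp; ring
    linarith
  have hfin := weak_max hAo hAb hfc hfm hfb
  refine ⟨ρ, ε' / ρ, hρ, by positivity, hρR, hρr, hballΩ, ?_⟩
  intro y hy hys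
  have hy' := hy
  rw [mem_ball, dist_eq_norm] at hy'
  by_cases h : T y ∈ Ω
  · have h1 := hfin y (subset_closure ⟨hys, hy', h⟩)
    simp only [hf] at h1
    rw [hnd] at h1
    set s := ‖y - y₀‖ with hs
    have hs0 : 0 < s := by linarith
    have h2 : Real.log (s / ρ) ≤ s / ρ - 1 := Real.log_le_sub_one_of_pos (by positivity)
    have h3 : ε' * Real.log (s / ρ) ≤ ε' * (s / ρ - 1) := mul_le_mul_of_nonneg_left h2 hε'pos.le
    have h4 : ε' * (s / ρ - 1) = - (ε' / ρ * (ρ - s)) := by field_simp; ring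
    linarith
  · rw [hU.zero _ h, zero_add]
    refine le_trans ?_ (hlow y hy)
    apply mul_le_mul_of_nonneg_right _ (by linarith)
    rw [div_le_iff₀ hρ]
    nlinarith
end MStress
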