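import Pool.Agent.MStress.POS
import Pool.Agent.MStress.SUP
import Pool.Agent.MStress.ISO
/-!
# LIP : translation comparison, Lipschitz bound

`translation_cmp`: for `τ` fixed let `A = Ω ∩ (Ω - τ)`, `f y = K‖τ‖ - (U (y+τ) - U y)`; mean value equality
on `A`; on the frontier of `A`: either `y ∈ ∂Ω`, `U y = 0`, `U (y+τ) ≤ K‖τ‖` by hypothesis; or
`y + τ ∉ Ω`, `U (y+τ) = 0`. For points outside `A` the bound is direct (use `U ≥ 0` and, when `x ∉ Ω`,
`x+τ ∈ Ω`, a boundary point on the segment `[x, x+τ]`, at distance `≤ ‖τ‖` from `x+τ`: so we need the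
hypothesis for all smaller `τ'` too).

`exists_lipschitz`: supporting line at `ζ` (`exists_normal`) and `le_strip` with `D` = diameter bound give
`U (ζ+τ) ≤ D ‖τ‖`.
-/
open Complex Metric Set Filter Topology
open scoped ComplexConjugate
namespace MStress

variable {Ω : Set ℂ} {U : ℂ → ℝ}

theorem lip_circleIntegrable {f : ℂ → ℝ} (hf : Continuous f) (x : ℂ) (r : ℝ) :
    CircleIntegrable f x r :=
  (hf.comp (continuous_circleMap x r)).intervalIntegrable _ _

theorem lip_one_sided (hU : Tor Ω U) (ho : IsOpen Ω) (hc : Convex ℝ Ω)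
    (hb : Bornology.IsBounded Ω) {K δ : ℝ} (hK : 0 ≤ K)
    (h : ∀ ζ ∈ frontier Ω, ∀ τ : ℂ, ‖τ‖ ≤ δ → U (ζ + τ) ≤ K * ‖τ‖) :
    ∀ x τ : ℂ, ‖τ‖ ≤ δ → U (x + τ) - U x ≤ K * ‖τ‖ := by
  intro x τ hτ
  have hKτ : 0 ≤ K * ‖τ‖ := mul_nonneg hK (norm_nonneg _)
  by_cases hxτ : x + τ ∈ Ω
  · by_cases hx : x ∈ Ω
    · -- interior case: the minimum principle
      set A : Set ℂ := Ω ∩ (fun y => y + τ) ⁻¹' Ω with hA
      have hcont : Continuous (fun y : ℂ => y + τ) := continuous_id.add continuous_const
      have hAo : IsOpen A := ho.inter (ho.preimage hcont)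
      have hAb : Bornology.IsBounded A := hb.subset Set.inter_subset_left
      set V : ℂ → ℝ := fun y => U (y + τ) with hV
      have hVc : Continuous V := hU.cont.comp hcont
      set f : ℂ → ℝ := fun y => K * ‖τ‖ - (V y - U y) with hf
      have hfc : Continuous f := continuous_const.sub (hVc.sub hU.cont)
      have hrig : Rigid (fun y : ℂ => 1 * y + τ) := rigid_rot (by simp)
      have hmv : ∀ y ∈ A, SuperMV f y := by
        intro y hy
        have h1 := hU.mean y hy.1
        have h2 := hU.mean (y + τ) hy.2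
        unfold SuperMV
        filter_upwards [h1, h2] with r hr1 hr2
        have e1 : Real.circleAverage V y r = Real.circleAverage U (y + τ) r := by
          have := hrig.avg U y r
          simp only [one_mul] at this
          exact this
        have e2 : Real.circleAverage f y r
            = Real.circleAverage (fun _ : ℂ => K * ‖τ‖) y r
              - (Real.circleAverage V y r - Real.circleAverage U y r) := by
          have hcI : CircleIntegrable (fun _ : ℂ => K * ‖τ‖) y r :=
            lip_circleIntegrable continuous_const y r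
          have hVI := lip_circleIntegrable hVc y r
          have hUI := lip_circleIntegrable hU.cont y r
          have hsub : f = (fun _ : ℂ => K * ‖τ‖) - (V - U) := by
            funext z
            simp [hf]
          rw [hsub, Real.circleAverage_sub hcI (hVI.sub hUI), Real.circleAverage_sub hVI hUI]
        rw [e2, e1, hr1, hr2, Real.circleAverage_const]
        simp only [hf, hV]
        linarith
      have hfr : ∀ y ∈ frontier A, 0 ≤ f y := by
        intro y hy
        rw [hAo.frontier_eq] at hy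
        obtain ⟨hyc, hyA⟩ := hy
        have hyΩ : y ∈ closure Ω := closure_mono Set.inter_subset_left hyc
        by_cases hy1 : y ∈ Ω
        · have hy2 : y + τ ∉ Ω := fun hy2 => hyA ⟨hy1, hy2⟩
          have hz : V y = 0 := hU.zero _ hy2
          have hn := hU.nonneg ho hb y
          simp only [hf, hz]
          linarith
        · have hyf : y ∈ frontier Ω := by
            rw [ho.frontier_eq]
            exact ⟨hyΩ, hy1⟩
          have h3 := h y hyf τ hτ
          have h4 := hU.zero y hy1
          simp only [hf, hV, h4]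
          linarith
      have hres := weak_max hAo hAb hfc.continuousOn hmv hfr x (subset_closure ⟨hx, hxτ⟩)
      simp only [hf, hV] at hres
      linarith
    · -- `x ∉ Ω`
      obtain ⟨ζ, hζf, hζs, -⟩ := exists_frontier_segment ho hc hxτ hx
      have hUx := hU.zero x hx
      have hnorm : ‖(x + τ) - ζ‖ ≤ ‖τ‖ := by
        rw [segment_eq_image] at hζs
        obtain ⟨t, ht, rfl⟩ := hζs
        have : (x + τ) - ((1 - t) • (x + τ) + t • x) = t • τ := by
          simp only [sub_smul, one_smul, smul_add]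
          ring
        rw [this, norm_smul, Real.norm_eq_abs, abs_of_nonneg ht.1]
        exact mul_le_of_le_one_left (norm_nonneg _) ht.2
      have h5 := h ζ hζf ((x + τ) - ζ) (hnorm.trans hτ)
      rw [add_sub_cancel] at h5
      rw [hUx, sub_zero]
      exact h5.trans (mul_le_mul_of_nonneg_left hnorm hK)
  · rw [hU.zero _ hxτ]
    have := hU.nonneg ho hb x
    linarith

theorem translation_cmp (hU : Tor Ω U) (ho : IsOpen Ω) (hc : Convex ℝ Ω)
    (hb : Bornology.IsBounded Ω) {K δ : ℝ} (hK : 0 ≤ K)
    (h : ∀ ζ ∈ frontier Ω, ∀ τ : ℂ, ‖τ‖ ≤ δ → U (ζ + τ) ≤ K * ‖τ‖) :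
    ∀ x τ : ℂ, ‖τ‖ ≤ δ → |U (x + τ) - U x| ≤ K * ‖τ‖ := by
  intro x τ hτ
  rw [abs_le]
  constructor
  · have := lip_one_sided hU ho hc hb hK h (x + τ) (-τ) (by rwa [norm_neg])
    rw [add_neg_cancel_right, norm_neg] at this
    linarith
  · exact lip_one_sided hU ho hc hb hK h x τ hτ

theorem exists_lipschitz (hU : Tor Ω U) (ho : IsOpen Ω) (hc : Convex ℝ Ω)
    (hb : Bornology.IsBounded Ω) (hne : Ω.Nonempty) :
    ∃ K : ℝ, 0 ≤ K ∧ ∀ x y : ℂ, |U x - U y| ≤ K * ‖x - y‖ := by
  obtain ⟨M, hM⟩ := (isBounded_iff_forall_norm_le.mp hb.closure)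
  set D : ℝ := 2 * max M 0 + 1 with hD
  have hD0 : 0 < D := by
    have := le_max_right M 0
    linarith
  have hbd : ∀ y ∈ closure Ω, ‖y‖ ≤ max M 0 := fun y hy => (hM y hy).trans (le_max_left _ _)
  have key : ∀ ζ ∈ frontier Ω, ∀ τ : ℂ, U (ζ + τ) ≤ D * ‖τ‖ := by
    intro ζ hζ τ
    by_cases hin : ζ + τ ∈ Ω
    · obtain ⟨ν, hν, hsep⟩ := exists_normal ho hc hne hζ
      have hs : ∀ y ∈ Ω, (y * conj ν).re < (ζ * conj ν).re ∧
          (ζ * conj ν).re - D < (y * conj ν).re := by
        intro y hy
        have h1 := hsep y hy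
        rw [sub_mul, Complex.sub_re] at h1
        refine ⟨by linarith, ?_⟩
        have h2 : |((y - ζ) * conj ν).re| ≤ ‖y - ζ‖ := by
          refine (Complex.abs_re_le_norm _).trans ?_
          rw [norm_mul, Complex.norm_conj, hν, mul_one]
        have h3 : ‖y - ζ‖ ≤ ‖y‖ + ‖ζ‖ := norm_sub_le _ _
        have h4 := hbd y (subset_closure hy)
        have h5 := hbd ζ (frontier_subset_closure hζ)
        rw [sub_mul, Complex.sub_re] at h2
        have h6 := (abs_le.mp h2).1
        linarith
      have h7 := hU.le_strip ho hb hν hD0 hs (ζ + τ) hin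
      refine h7.trans (mul_le_mul_of_nonneg_left ?_ hD0.le)
      rw [add_mul, Complex.add_re]
      have h8 : |(τ * conj ν).re| ≤ ‖τ‖ := by
        refine (Complex.abs_re_le_norm _).trans ?_
        rw [norm_mul, Complex.norm_conj, hν, mul_one]
      have h9 := (abs_le.mp h8).1
      linarith
    · rw [hU.zero _ hin]
      exact mul_nonneg hD0.le (norm_nonneg _)
  refine ⟨D, hD0.le, fun x y => ?_⟩
  have := translation_cmp hU ho hc hb (δ := ‖x - y‖) hD0.le (fun ζ hζ τ _ => key ζ hζ τ) y (x - y)
    le_rfl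
  rwa [add_sub_cancel] at this

end MStress
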