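import Pool.Agent.MStress.HD
import Pool.Agent.MStress.LIP
/-!
# LOCAL1 : if the slope at `p` is `≤ m < S` then the slopes at all boundary points near `p` are `≤ S' < S`

`S` a Lipschitz constant of `U`. Fix `r` small. For `ζ ∈ frontier Ω` near `p`, supporting line with outer
normal `ν` (`exists_normal`). `q y = S * d y - U y`, `d y = -((y - ζ) * conj ν).re`.
* `q ≥ 0` on `{d ≥ 0}`: for `y ∈ Ω` the foot `f = y + (d y) ν` of the perpendicular is not in `Ω`
  (`d f = 0`), so `U y = U y - U f ≤ S ‖y - f‖ = S d y`; for `y ∉ Ω`, `U y = 0`.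
* mean value: `Tor.sub_mean_all` and linearity of `d` (circle average of an affine function).
* gap: at `y_r = ζ - r ν`: `U y_r ≤ m ‖y_r - p‖ ≤ m (r + ‖ζ - p‖)`, so `q y_r ≥ (S-m) r / 2` if
  `m ‖ζ - p‖ ≤ (S-m) r/2` and `y_r` in the neighbourhood where `hm'` holds; `q` is `2S`-Lipschitz, so
  `q ≥ g = (S-m) r/4` on `‖y - y_r‖ ≤ θ r`, `θ = (S-m)/(8S)`.
* `half_disc`: `q ≥ (c₀/2 - 8 r) d ≥ (c₀/4) d`, `c₀ = (S-m)/(4 log (3/θ))`, if `r ≤ c₀/32`.
  So `U (ζ+τ) ≤ (S - c₀/4) d (ζ+τ) ≤ (S - c₀/4) ‖τ‖` for `‖τ‖ ≤ r/4` (and `U = 0` where `d < 0`).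
-/
open Complex Metric Set Filter Topology
open scoped ComplexConjugate
namespace MStress

variable {Ω : Set ℂ} {U : ℂ → ℝ}

/-- mean value property of the real part of an entire function -/
theorem LOCAL1_avg_re {F : ℂ → ℂ} (hF : Differentiable ℂ F) (x : ℂ) (r : ℝ) :
    Real.circleAverage (fun y => (F y).re) x r = (F x).re := by
  have h : InnerProductSpace.HarmonicOnNhd (fun y => (F y).re) (closedBall x |r|) := by
    intro y _
    exact (hF.analyticAt y).harmonicAt_re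
  exact h.circleAverage_eq

theorem local_slope (hU : Tor Ω U) (ho : IsOpen Ω) (hc : Convex ℝ Ω)
    (hb : Bornology.IsBounded Ω) (hne : Ω.Nonempty) {S m : ℝ} {p : ℂ} (hp : p ∈ frontier Ω)
    (hm : 0 ≤ m) (hmS : m < S) (hlip : ∀ x y : ℂ, |U x - U y| ≤ S * ‖x - y‖)
    (hm' : ∀ᶠ y in 𝓝 p, U y ≤ m * ‖y - p‖) :
    ∃ S' : ℝ, 0 ≤ S' ∧ S' < S ∧ ∃ δ > 0, ∀ ζ ∈ frontier Ω, ‖ζ - p‖ < δ →
      ∀ τ : ℂ, ‖τ‖ ≤ δ → U (ζ + τ) ≤ S' * ‖τ‖ := by
  have hS : 0 < S := lt_of_le_of_lt hm hmS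
  have hSm : 0 < S - m := by linarith
  obtain ⟨ε₀, hε₀, hε₀'⟩ := Metric.eventually_nhds_iff.mp hm'
  set θ : ℝ := (S - m) / (8 * S) with hθ
  have hθ0 : 0 < θ := by positivity
  have hθ8 : θ ≤ 1 / 8 := by
    rw [hθ, div_le_div_iff₀ (by positivity) (by norm_num)]; linarith
  have hθ3 : 24 ≤ 3 / θ := by
    rw [le_div_iff₀ hθ0]; linarith
  have hlog : 1 ≤ Real.log (3 / θ) := by
    have h1 : Real.exp 1 ≤ 3 / θ := by
      have := Real.exp_one_lt_d9
      linarith
    have h2 := Real.log_le_log (Real.exp_pos 1) h1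
    rwa [Real.log_exp] at h2
  have hlog0 : 0 < Real.log (3 / θ) := by linarith
  set c₁ : ℝ := (S - m) / (8 * Real.log (3 / θ)) with hc₁
  have hc₁0 : 0 < c₁ := by positivity
  have hc₁S : c₁ ≤ S := by
    rw [hc₁, div_le_iff₀ (by positivity)]
    nlinarith
  set r : ℝ := min (ε₀ / 2) (c₁ / 16) with hr
  have hr0 : 0 < r := by positivity
  have hr1 : r ≤ ε₀ / 2 := min_le_left _ _
  have hr2 : r ≤ c₁ / 16 := min_le_right _ _
  set δ : ℝ := min (r / 4) ((S - m) * r / (2 * (m + 1))) with hδ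
  have hδ0 : 0 < δ := by positivity
  have hδ1 : δ ≤ r / 4 := min_le_left _ _
  have hδ2 : m * δ ≤ (S - m) * r / 2 := by
    have h1 : δ ≤ (S - m) * r / (2 * (m + 1)) := min_le_right _ _
    rw [le_div_iff₀ (by positivity)] at h1
    nlinarith
  refine ⟨S - c₁ / 2, by linarith, by linarith, δ, hδ0, ?_⟩
  intro ζ hζ hζp τ hτ
  obtain ⟨ν, hν, hν'⟩ := exists_normal ho hc hne hζ
  set w : ℂ → ℂ := fun y => (y - ζ) * conj ν with hw
  have hwd : Differentiable ℂ w := by simp only [hw]; fun_prop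
  have hwn : ∀ y, ‖w y‖ = ‖y - ζ‖ := by
    intro y; simp only [hw]; rw [norm_mul, RCLike.norm_conj, hν, mul_one]
  have hνν : ν * conj ν = 1 := by
    rw [Complex.mul_conj, Complex.normSq_eq_norm_sq, hν]; simp
  have hUc := hU.cont
  have hnn : ∀ x, 0 ≤ U x := fun x => hU.nonneg ho hb x
  have hwc : Continuous (fun y => (w y).re) := Complex.continuous_re.comp hwd.continuous
  set q : ℂ → ℝ := fun y => -S * (w y).re - U y with hq
  have hqc : Continuous q := by simp only [hq]; fun_prop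
  -- outside of the half plane `U` vanishes
  have hout : ∀ y, 0 ≤ (w y).re → U y = 0 := by
    intro y hy
    apply hU.zero
    intro hyΩ
    have := hν' y hyΩ
    linarith
  have hmv : ∀ y, ∀ᶠ ρ in 𝓝[>] (0:ℝ), Real.circleAverage q y ρ ≤ q y + ρ ^ 2 / 2 := by
    intro y
    filter_upwards [hU.sub_mean_all ho hb y] with ρ hρ
    have ci : ∀ {g : ℂ → ℝ}, Continuous g → CircleIntegrable g y ρ :=
      fun hg => hg.continuousOn.circleIntegrable'
    have e1 : Real.circleAverage (fun z => (w z).re) y ρ = (w y).re := LOCAL1_avg_re hwd y ρ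
    have e2 : Real.circleAverage (fun z => -S * (w z).re) y ρ = -S * (w y).re := by
      have := Real.circleAverage_fun_smul (a := -S) (f := fun z => (w z).re) (c := y) (R := ρ)
      simp only [smul_eq_mul] at this
      rw [this, e1]
    simp only [hq]
    rw [Real.circleAverage_fun_sub (ci (by fun_prop)) (ci hUc), e2]
    linarith
  have h0 : ∀ y, ((y - ζ) * conj ν).re ≤ 0 → 0 ≤ q y := by
    intro y hy
    have hy' : (w y).re ≤ 0 := hy
    simp only [hq]
    have hf : (w (y + ((-(w y).re : ℝ) : ℂ) * ν)).re = 0 := by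
      have : w (y + ((-(w y).re : ℝ) : ℂ) * ν) = w y + ((-(w y).re : ℝ) : ℂ) := by
        simp only [hw]
        linear_combination ((-((y - ζ) * conj ν).re : ℝ) : ℂ) * hνν
      rw [this, Complex.add_re, Complex.ofReal_re]
      ring
    have hUf := hout _ hf.ge
    have h2 := (abs_le.mp (hlip y (y + ((-(w y).re : ℝ) : ℂ) * ν))).2
    rw [hUf] at h2
    have h3 : ‖y - (y + ((-(w y).re : ℝ) : ℂ) * ν)‖ = -(w y).re := by
      rw [show y - (y + ((-(w y).re : ℝ) : ℂ) * ν) = -(((-(w y).re : ℝ) : ℂ) * ν) by ring,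
        norm_neg, norm_mul, hν, mul_one, Complex.norm_real, Real.norm_eq_abs, abs_of_nonneg]
      linarith
    rw [h3] at h2
    linarith
  have hgap : ∀ y, ‖y - (ζ - r * ν)‖ ≤ θ * r → (S - m) * r / 4 ≤ q y := by
    intro y hy
    have e1 : w (ζ - r * ν) = -(r : ℂ) := by
      simp only [hw]
      linear_combination (-(r : ℂ)) * hνν
    have e2 : (w (ζ - r * ν)).re = -r := by rw [e1]; simp
    have e3 : ‖ζ - r * ν - p‖ ≤ r + ‖ζ - p‖ := by
      calc ‖ζ - r * ν - p‖ = ‖(ζ - p) - r * ν‖ := by congr 1; ring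
        _ ≤ ‖ζ - p‖ + ‖(r : ℂ) * ν‖ := norm_sub_le _ _
        _ = r + ‖ζ - p‖ := by
          rw [norm_mul, hν, mul_one, Complex.norm_real, Real.norm_eq_abs, abs_of_pos hr0]; ring
    have e4 : U (ζ - r * ν) ≤ m * (r + ‖ζ - p‖) := by
      have h1 : U (ζ - r * ν) ≤ m * ‖ζ - r * ν - p‖ := by
        apply hε₀'
        rw [dist_eq_norm]
        linarith
      exact h1.trans (mul_le_mul_of_nonneg_left e3 hm)
    have e5 : m * ‖ζ - p‖ ≤ (S - m) * r / 2 :=
      (mul_le_mul_of_nonneg_left hζp.le hm).trans hδ2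
    have e6 := (abs_le.mp (hlip y (ζ - r * ν))).2
    have e7 : -(w y).re ≥ r - ‖y - (ζ - r * ν)‖ := by
      have h1 : w y = w (ζ - r * ν) + (y - (ζ - r * ν)) * conj ν := by
        simp only [hw]; ring
      have h2 : ((y - (ζ - r * ν)) * conj ν).re ≤ ‖y - (ζ - r * ν)‖ := by
        calc ((y - (ζ - r * ν)) * conj ν).re ≤ ‖(y - (ζ - r * ν)) * conj ν‖ :=
              Complex.re_le_norm _
          _ = ‖y - (ζ - r * ν)‖ := by rw [norm_mul, RCLike.norm_conj, hν, mul_one]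
      rw [h1, Complex.add_re, e2]
      linarith
    have e8 : S * ‖y - (ζ - r * ν)‖ ≤ (S - m) * r / 8 := by
      calc S * ‖y - (ζ - r * ν)‖ ≤ S * (θ * r) := by gcongr
        _ = (S - m) * r / 8 := by rw [hθ]; field_simp
    have e9 : S * (r - ‖y - (ζ - r * ν)‖) ≤ S * (-(w y).re) :=
      mul_le_mul_of_nonneg_left e7 hS.le
    simp only [hq]
    nlinarith
  have hHD := half_disc hqc hν hr0 hθ0 (by linarith) (show 0 < (S - m) * r / 4 by positivity)
    hmv h0 hgap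
  rcases lt_or_ge 0 (w (ζ + τ)).re with hpos | hneg
  · rw [hout _ hpos.le]
    have : 0 ≤ S - c₁ / 2 := by linarith
    positivity
  · have h1 := hHD (ζ + τ) hneg (by rw [add_sub_cancel_left]; linarith)
    have h2 : (S - m) * r / 4 / (2 * Real.log (3 / θ) * r) = c₁ := by
      rw [hc₁]; field_simp; ring
    rw [h2] at h1
    have h1' : (c₁ - 8 * r) * (-(w (ζ + τ)).re) ≤ -S * (w (ζ + τ)).re - U (ζ + τ) := h1
    have h3 : -(w (ζ + τ)).re ≤ ‖τ‖ := by
      have h4 := (abs_le.mp (Complex.abs_re_le_norm (w (ζ + τ)))).1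
      rw [hwn, add_sub_cancel_left] at h4
      linarith
    have h5 : 0 ≤ -(w (ζ + τ)).re := by linarith
    have h6 : c₁ / 2 * (-(w (ζ + τ)).re) ≤ (c₁ - 8 * r) * (-(w (ζ + τ)).re) :=
      mul_le_mul_of_nonneg_right (by linarith) h5
    calc U (ζ + τ) ≤ (S - c₁ / 2) * (-(w (ζ + τ)).re) := by linarith
      _ ≤ (S - c₁ / 2) * ‖τ‖ := mul_le_mul_of_nonneg_left h3 (by linarith)

end MStress
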