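import Pool.Agent.MStress.LIP
/-!
# LOCAL2 : bound of difference quotients near `p`

`ν` outer normal at `p`, `d y = -((y-p) * conj ν).re > 0` on `Ω`, `ρ = δ/2`,
`b y = (‖y-p‖² - 2 (d y)² + 2 ρ d y)/ρ²`: harmonic (mean value equality), `b ≥ 1` if `‖y-p‖ = ρ`, `0 ≤ d y`
(`d ≤ ρ`), `b ≥ 0` if `0 ≤ d y ≤ ρ`, `b p = 0`. For `‖τ‖` small (`≤ ρ/4`), on
`A = Ω ∩ (Ω - τ) ∩ ball p ρ`, `f y = S' ‖τ‖ + (S - S') ‖τ‖ b y - (U (y+τ) - U y)` has the mean value
equality; frontier: `y ∈ ∂Ω`: `U y = 0`, `U (y+τ) ≤ S' ‖τ‖` (hypothesis); `y+τ ∉ Ω`: `U (y+τ) = 0`;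
`‖y-p‖ = ρ`: Lipschitz. So `U (x+τ) - U x ≤ (S' + (S-S') b x) ‖τ‖` for `x ∈ A`; for `x ∉ A`, `x` near `p`:
`x+τ ∉ Ω` trivial, or `x ∉ Ω`, `x + τ ∈ Ω`: boundary point on the segment (`exists_frontier_segment`).
Choose `x` so near `p` that `b x ≤ 1/2`. Replace `τ` by `-τ` (`x` by `x+τ`) for the absolute value.
-/
open Complex Metric Set Filter Topology
open scoped ComplexConjugate
namespace MStress

variable {Ω : Set ℂ} {U : ℂ → ℝ}

/-- mean value property of the real part of an entire function -/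
theorem LOCAL2_avg_re {F : ℂ → ℂ} (hF : Differentiable ℂ F) (x : ℂ) (r : ℝ) :
    Real.circleAverage (fun y => (F y).re) x r = (F x).re := by
  have h : InnerProductSpace.HarmonicOnNhd (fun y => (F y).re) (closedBall x |r|) := by
    intro y _
    exact (hF.analyticAt y).harmonicAt_re
  exact h.circleAverage_eq

theorem LOCAL2_upper (hU : Tor Ω U) (ho : IsOpen Ω) (hc : Convex ℝ Ω)
    (hb : Bornology.IsBounded Ω) (hne : Ω.Nonempty) {S S' δ : ℝ} {p : ℂ} (hp : p ∈ frontier Ω)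
    (hS' : 0 ≤ S') (hS'S : S' < S) (hlip : ∀ x y : ℂ, |U x - U y| ≤ S * ‖x - y‖) (hδ : 0 < δ)
    (h : ∀ ζ ∈ frontier Ω, ‖ζ - p‖ < δ → ∀ τ : ℂ, ‖τ‖ ≤ δ → U (ζ + τ) ≤ S' * ‖τ‖) :
    ∃ ε > 0, ∀ x : ℂ, ‖x - p‖ < ε → ∀ τ : ℂ, ‖τ‖ < ε →
      U (x + τ) - U x ≤ ((S + S') / 2) * ‖τ‖ := by
  obtain ⟨ν, hν, hν'⟩ := exists_normal ho hc hne hp
  set ρ : ℝ := δ / 2 with hρ
  have hρ0 : 0 < ρ := by positivity
  set w : ℂ → ℂ := fun y => (y - p) * conj ν with hw
  have hwc : Continuous w := by simp only [hw]; fun_prop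
  have hwn : ∀ y, ‖w y‖ = ‖y - p‖ := by
    intro y; simp only [hw]; rw [norm_mul, RCLike.norm_conj, hν, mul_one]
  set F : ℂ → ℂ := fun y => -((w y) ^ 2 + 2 * (ρ : ℂ) * w y) / ((ρ : ℂ) ^ 2) with hF
  have hFd : Differentiable ℂ F := by
    simp only [hF, hw]
    fun_prop
  set b : ℂ → ℝ := fun y => (F y).re with hbdef
  have hbc : Continuous b := Complex.continuous_re.comp hFd.continuous
  have hbval : ∀ y, b y = ((w y).im ^ 2 - (w y).re ^ 2 - 2 * ρ * (w y).re) / ρ ^ 2 := by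
    intro y
    simp only [hbdef, hF]
    rw [show ((ρ : ℂ) ^ 2) = ((ρ ^ 2 : ℝ) : ℂ) by push_cast; ring, Complex.div_ofReal_re]
    congr 1
    simp [pow_two]
    ring
  have hbp : b p = 0 := by
    rw [hbval]; simp [hw]
  -- sign of d on the closure
  have hdcl : ∀ y ∈ closure Ω, (w y).re ≤ 0 := by
    intro y hy
    have hcl : IsClosed {y : ℂ | (w y).re ≤ 0} :=
      isClosed_le (Complex.continuous_re.comp hwc) continuous_const
    exact closure_minimal (fun z hz => (hν' z hz).le) hcl hy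
  have hsq : ∀ y, (w y).re ^ 2 + (w y).im ^ 2 = ‖y - p‖ ^ 2 := by
    intro y; rw [← hwn y, Complex.sq_norm, Complex.normSq_apply]; ring
  have hb0 : ∀ y ∈ closure Ω, ‖y - p‖ ≤ ρ → 0 ≤ b y := by
    intro y hy hyp
    rw [hbval]
    apply div_nonneg _ (by positivity)
    have h1 := hdcl y hy
    have h2 : -ρ ≤ (w y).re := by
      have := Complex.abs_re_le_norm (w y)
      rw [hwn y] at this
      have := (abs_le.mp (this.trans hyp)).1
      exact this
    nlinarith [sq_nonneg (w y).im]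
  have hb1 : ∀ y ∈ closure Ω, ‖y - p‖ = ρ → 1 ≤ b y := by
    intro y hy hyp
    rw [hbval, le_div_iff₀ (by positivity)]
    have h1 := hdcl y hy
    have h2 : -ρ ≤ (w y).re := by
      have := Complex.abs_re_le_norm (w y)
      rw [hwn y, hyp] at this
      exact (abs_le.mp this).1
    have h3 := hsq y
    rw [hyp] at h3
    nlinarith
  -- near `p`
  have hnear : ∀ᶠ y in 𝓝 p, b y < 1 / 2 := by
    have : Tendsto b (𝓝 p) (𝓝 0) := by
      have := hbc.tendsto p
      rwa [hbp] at this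
    exact this.eventually (gt_mem_nhds (by norm_num))
  obtain ⟨ε₁, hε₁, hε₁'⟩ := Metric.eventually_nhds_iff.mp hnear
  have hnn : ∀ x, 0 ≤ U x := fun x => hU.nonneg ho hb x
  refine ⟨min ε₁ (ρ / 4), by positivity, ?_⟩
  intro x hx τ hτ
  have hx1 : ‖x - p‖ < ε₁ := lt_of_lt_of_le hx (min_le_left _ _)
  have hx2 : ‖x - p‖ < ρ / 4 := lt_of_lt_of_le hx (min_le_right _ _)
  have hτ2 : ‖τ‖ < ρ / 4 := lt_of_lt_of_le hτ (min_le_right _ _)
  have hτ0 : 0 ≤ ‖τ‖ := norm_nonneg τ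
  have hSS : S' ≤ (S + S') / 2 := by linarith
  by_cases hxτ : x + τ ∈ Ω
  swap
  · rw [hU.zero _ hxτ]
    have := hnn x
    have h2 : 0 ≤ (S + S') / 2 * ‖τ‖ := mul_nonneg (by linarith) hτ0
    linarith
  by_cases hxΩ : x ∈ Ω
  swap
  · rw [hU.zero _ hxΩ, sub_zero]
    obtain ⟨ζ, hζ, hζs, -⟩ := exists_frontier_segment ho hc hxτ hxΩ
    have h1 : ‖x + τ - ζ‖ ≤ ‖τ‖ := by
      have hd := dist_add_dist_of_mem_segment hζs
      rw [dist_eq_norm, dist_eq_norm, dist_eq_norm] at hd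
      have h3 : ‖x + τ - x‖ = ‖τ‖ := by congr 1; ring
      rw [h3] at hd
      have := norm_nonneg (ζ - x)
      linarith
    have h2 : ‖ζ - p‖ < δ := by
      have h4 : ζ - p = (x - p) + τ - (x + τ - ζ) := by ring
      rw [h4]
      calc ‖(x - p) + τ - (x + τ - ζ)‖ ≤ ‖(x - p) + τ‖ + ‖x + τ - ζ‖ := norm_sub_le _ _
        _ ≤ ‖x - p‖ + ‖τ‖ + ‖τ‖ := by
          have := norm_add_le (x - p) τ
          linarith
        _ < δ := by rw [hρ] at hx2 hτ2; linarith
    have h5 := h ζ hζ h2 (x + τ - ζ) (by rw [hρ] at hτ2; linarith)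
    rw [show ζ + (x + τ - ζ) = x + τ by ring] at h5
    calc U (x + τ) ≤ S' * ‖x + τ - ζ‖ := h5
      _ ≤ S' * ‖τ‖ := by gcongr
      _ ≤ (S + S') / 2 * ‖τ‖ := by gcongr
  -- main case
  set A : Set ℂ := Ω ∩ (fun y => y + τ) ⁻¹' Ω ∩ ball p ρ with hA
  have hAo : IsOpen A := (ho.inter (ho.preimage (by fun_prop))).inter isOpen_ball
  have hAb : Bornology.IsBounded A := isBounded_ball.subset inter_subset_right
  set f : ℂ → ℝ := fun y => S' * ‖τ‖ + (S - S') * ‖τ‖ * b y - (U (y + τ) - U y) with hf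
  have hUc := hU.cont
  have hfc : Continuous f := by
    simp only [hf]
    fun_prop
  have hmv : ∀ y ∈ A, SuperMV f y := by
    intro y hy
    have h1 := hU.mean y hy.1.1
    have h2 := hU.mean (y + τ) hy.1.2
    filter_upwards [h1, h2] with r hr1 hr2
    have ci : ∀ {g : ℂ → ℝ}, Continuous g → CircleIntegrable g y r :=
      fun hg => hg.continuousOn.circleIntegrable'
    have e1 : Real.circleAverage (fun z => U (z + τ)) y r = Real.circleAverage U (y + τ) r := by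
      have := (rigid_rot (a := 1) (b := τ) (by simp)).avg U y r
      simpa using this
    have e2 : Real.circleAverage b y r = b y := LOCAL2_avg_re hFd y r
    have e3 : Real.circleAverage f y r = f y := by
      have hc1 : Continuous (fun z : ℂ => S' * ‖τ‖ + (S - S') * ‖τ‖ * b z) := by fun_prop
      have hc2 : Continuous (fun z : ℂ => U (z + τ) - U z) := by fun_prop
      have hc3 : Continuous (fun z : ℂ => U (z + τ)) := by fun_prop
      simp only [hf]
      rw [Real.circleAverage_fun_sub (ci hc1) (ci hc2),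
        Real.circleAverage_fun_sub (ci hc3) (ci hUc),
        Real.circleAverage_fun_add (ci continuous_const) (ci (by fun_prop)),
        Real.circleAverage_const, e1, hr1, hr2]
      have e4 : Real.circleAverage (fun z => (S - S') * ‖τ‖ * b z) y r =
          (S - S') * ‖τ‖ * Real.circleAverage b y r := by
        have := Real.circleAverage_fun_smul (a := (S - S') * ‖τ‖) (f := b) (c := y) (R := r)
        simpa [smul_eq_mul] using this
      rw [e4, e2]
      ring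
    exact e3.le
  have hfr : ∀ y ∈ frontier A, 0 ≤ f y := by
    intro y hy
    have hyc : y ∈ closure A := hy.1
    have hyn : y ∉ A := by
      have := hy.2
      rwa [hAo.interior_eq] at this
    have hyΩ : y ∈ closure Ω := closure_mono (fun z hz => hz.1.1) hyc
    have hyρ : ‖y - p‖ ≤ ρ := by
      have : y ∈ closedBall p ρ :=
        closure_ball_subset_closedBall (closure_mono (fun z hz => hz.2) hyc)
      rwa [mem_closedBall, dist_eq_norm] at this
    have hby := hb0 y hyΩ hyρ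
    have hk : 0 ≤ (S - S') * ‖τ‖ * b y :=
      mul_nonneg (mul_nonneg (by linarith) hτ0) hby
    simp only [hf]
    by_cases c1 : y ∈ Ω
    · by_cases c2 : y + τ ∈ Ω
      · have c3 : ‖y - p‖ = ρ := by
          refine le_antisymm hyρ (not_lt.mp fun hlt => hyn ⟨⟨c1, c2⟩, ?_⟩)
          rwa [mem_ball, dist_eq_norm]
        have h1 := hb1 y hyΩ c3
        have h2 := (abs_le.mp (hlip (y + τ) y)).2
        rw [show y + τ - y = τ by ring] at h2
        have h3 : (S - S') * ‖τ‖ * 1 ≤ (S - S') * ‖τ‖ * b y :=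
          mul_le_mul_of_nonneg_left h1 (mul_nonneg (by linarith) hτ0)
        linarith
      · rw [hU.zero _ c2]
        have h1 := hnn y
        have h2 : 0 ≤ S' * ‖τ‖ := mul_nonneg hS' hτ0
        linarith
    · have hyf : y ∈ frontier Ω := ⟨hyΩ, by rwa [ho.interior_eq]⟩
      have h1 := h y hyf (by rw [hρ] at hyρ; linarith) τ (by rw [hρ] at hτ2; linarith)
      rw [hU.zero _ c1]
      linarith
  have hxA : x ∈ A := ⟨⟨hxΩ, hxτ⟩, by rw [mem_ball, dist_eq_norm]; linarith⟩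
  have h0 := weak_max hAo hAb hfc.continuousOn hmv hfr x (subset_closure hxA)
  simp only [hf] at h0
  have hbx : b x < 1 / 2 := hε₁' (by rw [dist_eq_norm]; exact hx1)
  have h3 : (S - S') * ‖τ‖ * b x ≤ (S - S') * ‖τ‖ * (1 / 2) :=
    mul_le_mul_of_nonneg_left hbx.le (mul_nonneg (by linarith) hτ0)
  linarith

theorem local_grad (hU : Tor Ω U) (ho : IsOpen Ω) (hc : Convex ℝ Ω)
    (hb : Bornology.IsBounded Ω) (hne : Ω.Nonempty) {S S' δ : ℝ} {p : ℂ} (hp : p ∈ frontier Ω)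
    (hS' : 0 ≤ S') (hS'S : S' < S) (hlip : ∀ x y : ℂ, |U x - U y| ≤ S * ‖x - y‖) (hδ : 0 < δ)
    (h : ∀ ζ ∈ frontier Ω, ‖ζ - p‖ < δ → ∀ τ : ℂ, ‖τ‖ ≤ δ → U (ζ + τ) ≤ S' * ‖τ‖) :
    ∃ S'' : ℝ, 0 ≤ S'' ∧ S'' < S ∧ ∀ᶠ x in 𝓝 p, ∀ᶠ τ in 𝓝 (0:ℂ),
      |U (x + τ) - U x| ≤ S'' * ‖τ‖ := by
  obtain ⟨ε, hε, hup⟩ := LOCAL2_upper hU ho hc hb hne hp hS' hS'S hlip hδ h
  refine ⟨(S + S') / 2, by linarith, by linarith, ?_⟩
  have h1 : ∀ᶠ x in 𝓝 p, ‖x - p‖ < ε / 2 := by
    rw [Metric.eventually_nhds_iff]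
    exact ⟨ε / 2, by positivity, fun y hy => by rwa [dist_eq_norm] at hy⟩
  filter_upwards [h1] with x hx
  have h2 : ∀ᶠ τ in 𝓝 (0:ℂ), ‖τ‖ < ε / 2 := by
    rw [Metric.eventually_nhds_iff]
    exact ⟨ε / 2, by positivity, fun y hy => by simpa [dist_eq_norm] using hy⟩
  filter_upwards [h2] with τ hτ
  rw [abs_le]
  constructor
  · have h3 : ‖x + τ - p‖ < ε := by
      calc ‖x + τ - p‖ = ‖(x - p) + τ‖ := by congr 1; ring
        _ ≤ ‖x - p‖ + ‖τ‖ := norm_add_le _ _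
        _ < ε := by linarith
    have h4 := hup (x + τ) h3 (-τ) (by rw [norm_neg]; linarith)
    rw [norm_neg, show x + τ + -τ = x by ring] at h4
    linarith
  · exact hup x (by linarith) τ (by linarith)

end MStress
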