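import Pool.Agent.MStress.SLOPE
import Pool.Agent.MStress.LOCAL1
import Pool.Agent.MStress.LOCAL2
import Pool.Agent.MStress.BDRY

/-!
# Main theorem, quantitative form
-/

open Complex Metric Set Filter Topology
open scoped ComplexConjugate Gradient

namespace MStress

/-- quantitative form: near a farthest boundary point `p` the gradient is at most `m`, and at some other
boundary point `z` the gradient is frequently larger than `M > m`. -/
theorem main {Ω : Set ℂ} {u : ℂ → ℝ} (hΩ : AxDomain Ω) (hab : halfX Ω ≠ halfY Ω)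
    (hu : Torsion Ω u) {p : ℂ} (hp : IsFarthest Ω p) :
    ∃ z ∈ frontier Ω, ∃ m M : ℝ, 0 ≤ m ∧ m < M ∧ (∀ᶠ y in 𝓝[Ω] p, ‖∇ u y‖ ≤ m) ∧
      (∃ᶠ y in 𝓝[Ω] z, M < ‖∇ u y‖) := by
  have hU : Tor Ω (Ω.indicator u) := hu.tor hΩ.isOpen
  -- best Lipschitz constant
  set U := Ω.indicator u with hUdef
  obtain ⟨K, hK0, hK⟩ := exists_lipschitz hU hΩ.isOpen hΩ.convex hΩ.bounded hΩ.nonempty
  set P : Set ℝ := {L | 0 ≤ L ∧ ∀ x y : ℂ, |U x - U y| ≤ L * ‖x - y‖} with hP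
  have hPne : P.Nonempty := ⟨K, hK0, hK⟩
  have hPbdd : BddBelow P := ⟨0, fun L hL => hL.1⟩
  set S := sInf P with hS
  have hlip : ∀ x y : ℂ, |U x - U y| ≤ S * ‖x - y‖ := by
    intro x y
    by_cases hxy : x = y
    · simp [hxy]
    have hpos : 0 < ‖x - y‖ := norm_pos_iff.2 (sub_ne_zero.2 hxy)
    rw [← div_le_iff₀ hpos]
    refine le_csInf hPne fun L hL => ?_
    rw [div_le_iff₀ hpos]
    exact hL.2 x y
  have hbest : ∀ M : ℝ, 0 ≤ M → M < S → ¬ ∀ x y : ℂ, |U x - U y| ≤ M * ‖x - y‖ := by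
    intro M hM hMS h
    exact absurd (csInf_le hPbdd ⟨hM, h⟩) (not_le.2 hMS)
  obtain ⟨z₁, hz₁, m, M, hm0, hmM, hmp, hMz⟩ := slope_gap hΩ hU hp hab
  -- M ≤ S
  have hMS : M ≤ S := by
    obtain ⟨y, hy⟩ := hMz.exists
    have hz1 : U z₁ = 0 := hU.zero _ (by
      have := hz₁.2
      rwa [hΩ.isOpen.interior_eq] at this)
    have h1 := hlip y z₁
    rw [hz1, sub_zero] at h1
    have h2 : M * ‖y - z₁‖ < S * ‖y - z₁‖ := lt_of_lt_of_le hy ((le_abs_self _).trans h1)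
    by_contra hlt
    have := mul_le_mul_of_nonneg_right (not_le.1 hlt).le (norm_nonneg (y - z₁))
    linarith
  have hmS : m < S := lt_of_lt_of_le hmM hMS
  obtain ⟨S', hS'0, hS'S, δ, hδ, hloc⟩ := local_slope hU hΩ.isOpen hΩ.convex hΩ.bounded
    hΩ.nonempty hp.1 hm0 hmS hlip hmp
  obtain ⟨S'', hS''0, hS''S, hnear⟩ := local_grad hU hΩ.isOpen hΩ.convex hΩ.bounded
    hΩ.nonempty hp.1 hS'0 hS'S hlip hδ hloc
  obtain ⟨z, hz, hfreq⟩ := exists_bdry hΩ hu hbest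
  refine ⟨z, hz, S'', (S'' + S) / 2, hS''0, by linarith, ?_, hfreq _ (by linarith)⟩
  have h1 : ∀ᶠ x in 𝓝[Ω] p, ∀ᶠ τ in 𝓝 (0:ℂ), |U (x + τ) - U x| ≤ S'' * ‖τ‖ :=
    hnear.filter_mono nhdsWithin_le_nhds
  filter_upwards [h1, self_mem_nhdsWithin] with x hx hxΩ
  exact grad_le hΩ hu hxΩ hS''0 hx

end MStress
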