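import Pool.Agent.MStress.POS
import Pool.Agent.MStress.ISO
/-!
# MONO : moving planes in the horizontal direction

For `λ ≥ 0` let `A = {z ∈ Ω | λ < z.re}` and `f z = U (2λ - conj z) - U z` (reflection in `re = λ`).
For `z ∈ A` the reflected point is in `Ω` (it lies between `-conj z` and `z` on the horizontal line;
`Ω` convex and symmetric), so `Tor.sub_mean` for `U ∘ refl` (`Tor.comp`, `rigid_refl` with `a = -1`,
`b = 2λ`) gives the mean value EQUALITY; on the frontier of `A` either `z.re = λ` and `f = 0`, or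
`z ∉ Ω`, `U z = 0 ≤ U (refl z)`. `weak_max` gives `f ≥ 0`.
`λ = 0` on all of `Ω` (both signs) gives `U (-conj x) = U x`.
Strict version: if `f y = 0` at a point `y ∈ A` (`λ = (x.re + y.re)/2 > 0`, after reflecting so that
`0 ≤ x.re < y.re`) then `strong_max` (`A` convex) gives `f = 0` on `A`, hence on `closure A`; but the right
end point `q` of `Ω` on the horizontal line through `y` has `U q = 0 < U (refl q)`.
-/
open Complex Metric Set Filter Topology
open scoped ComplexConjugate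
namespace MStress

variable {Ω : Set ℂ} {U : ℂ → ℝ}

/-- points on the horizontal line through `z`, closer to the vertical axis, are in `Ω` -/
theorem AxDomain.mem_of_re_le (hΩ : AxDomain Ω) {z w : ℂ} (hz : z ∈ Ω) (him : w.im = z.im)
    (hre : |w.re| ≤ |z.re|) : w ∈ Ω := by
  by_cases h0 : z.re = 0
  · have : w = z := by
      apply Complex.ext _ him
      rw [h0, abs_zero] at hre
      rw [h0]; exact abs_nonpos_iff.1 hre
    rw [this]; exact hz
  · have hz' := hΩ.symm_neg_conj z hz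
    have ht : |w.re / z.re| ≤ 1 := by
      rw [abs_div]; exact div_le_one_of_le₀ hre (abs_nonneg _)
    obtain ⟨h1, h2⟩ := abs_le.1 ht
    have hc := hΩ.convex hz hz' (a := (1 + w.re / z.re) / 2) (b := (1 - w.re / z.re) / 2)
      (by linarith) (by linarith) (by ring)
    convert hc using 1
    apply Complex.ext
    · simp
      field_simp
      ring
    · simp
      rw [him]; ring

/-- the reflection in the vertical line `re = l` -/
noncomputable def vrefl (l : ℝ) (y : ℂ) : ℂ := (-1) * conj y + ((2 * l : ℝ) : ℂ)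

theorem rigid_vrefl (l : ℝ) : Rigid (vrefl l) := rigid_refl (a := -1) (b := ((2 * l : ℝ) : ℂ)) (by simp)

theorem vrefl_re (l : ℝ) (y : ℂ) : (vrefl l y).re = 2 * l - y.re := by
  simp [vrefl]; ring

theorem vrefl_im (l : ℝ) (y : ℂ) : (vrefl l y).im = y.im := by
  simp [vrefl]

theorem vrefl_mem (hΩ : AxDomain Ω) {l : ℝ} (hl : 0 ≤ l) {z : ℂ} (hz : z ∈ Ω) (hlz : l ≤ z.re) :
    vrefl l z ∈ Ω := by
  apply hΩ.mem_of_re_le hz (vrefl_im l z)
  rw [vrefl_re]
  rw [abs_of_nonneg (by linarith : 0 ≤ z.re)]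
  rw [abs_le]; constructor <;> linarith

/-- the cap of `Ω` to the right of the line `re = l` -/
def capA (Ω : Set ℂ) (l : ℝ) : Set ℂ := Ω ∩ {z | l < z.re}

theorem isOpen_capA (hΩ : AxDomain Ω) (l : ℝ) : IsOpen (capA Ω l) :=
  hΩ.isOpen.inter (isOpen_lt continuous_const Complex.continuous_re)

theorem convex_capA (hΩ : AxDomain Ω) (l : ℝ) : Convex ℝ (capA Ω l) := by
  apply hΩ.convex.inter
  exact convex_halfSpace_re_gt l

theorem vrefl_mean (hΩ : AxDomain Ω) (hU : Tor Ω U) {l : ℝ} (hl : 0 ≤ l) {x : ℂ}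
    (hx : x ∈ capA Ω l) : SuperMV (fun z => U (vrefl l z) - U z) x := by
  have h := (hU.comp (rigid_vrefl l)).sub_mean hU (x := x)
    (show x ∈ vrefl l ⁻¹' Ω from vrefl_mem hΩ hl hx.1 (le_of_lt hx.2)) hx.1
  filter_upwards [h] with r hr
  exact hr.le

theorem vrefl_cont (hU : Tor Ω U) (l : ℝ) : Continuous (fun z => U (vrefl l z) - U z) :=
  (hU.cont.comp (rigid_vrefl l).continuous).sub hU.cont

theorem U_nonneg (hΩ : AxDomain Ω) (hU : Tor Ω U) (x : ℂ) : 0 ≤ U x :=
  hU.nonneg hΩ.isOpen hΩ.bounded x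

theorem vrefl_nonneg (hΩ : AxDomain Ω) (hU : Tor Ω U) {l : ℝ} (hl : 0 ≤ l) {x : ℂ}
    (hx : x ∈ capA Ω l) : 0 ≤ U (vrefl l x) - U x := by
  refine weak_max (isOpen_capA hΩ l) (hΩ.bounded.subset inter_subset_left)
    (vrefl_cont hU l).continuousOn (fun y hy => vrefl_mean hΩ hU hl hy) ?_ x (subset_closure hx)
  intro y hy
  have hyc : y ∈ closure (capA Ω l) := frontier_subset_closure hy
  have hyn : y ∉ capA Ω l := by
    rw [(isOpen_capA hΩ l).frontier_eq] at hy
    exact hy.2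
  have hre : l ≤ y.re := by
    have : closure (capA Ω l) ⊆ {z : ℂ | l ≤ z.re} := by
      apply closure_minimal
      · intro z hz
        have h1 : l < z.re := hz.2
        exact h1.le
      · exact isClosed_le continuous_const Complex.continuous_re
    exact this hyc
  rcases hre.eq_or_lt with h | h
  · have : vrefl l y = y := by
      apply Complex.ext
      · rw [vrefl_re, ← h]; ring
      · exact vrefl_im l y
    rw [this]; simp
  · have hyΩ : y ∉ Ω := fun hh => hyn ⟨hh, h⟩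
    rw [hU.zero y hyΩ, sub_zero]
    exact U_nonneg hΩ hU _

theorem U_neg_conj_le (hΩ : AxDomain Ω) (hU : Tor Ω U) (x : ℂ) : U x ≤ U (-conj x) := by
  have e : ∀ z : ℂ, vrefl 0 z = -conj z := by intro z; simp [vrefl]
  by_cases hx : x ∈ Ω
  · have h : 0 ≤ U (vrefl 0 x) - U x := by
      refine weak_max hΩ.isOpen hΩ.bounded
        (vrefl_cont hU 0).continuousOn (fun y hy => ?_) ?_ x (subset_closure hx)
      · have h := (hU.comp (rigid_vrefl 0)).sub_mean hU (x := y)
          (show y ∈ vrefl 0 ⁻¹' Ω by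
            rw [mem_preimage, e]; exact hΩ.symm_neg_conj y hy) hy
        filter_upwards [h] with r hr
        exact hr.le
      · intro y hy
        have hyn : y ∉ Ω := by
          rw [hΩ.isOpen.frontier_eq] at hy
          exact hy.2
        rw [hU.zero y hyn, sub_zero]
        exact U_nonneg hΩ hU _
    rw [e] at h
    linarith
  · rw [hU.zero x hx]
    exact U_nonneg hΩ hU _

theorem U_neg_conj (hΩ : AxDomain Ω) (hU : Tor Ω U) (x : ℂ) : U (-conj x) = U x := by
  apply le_antisymm _ (U_neg_conj_le hΩ hU x)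
  have h := U_neg_conj_le hΩ hU (-conj x)
  simpa using h

/-- the function `U` only depends on `|re|` -/
theorem U_abs (hΩ : AxDomain Ω) (hU : Tor Ω U) (x : ℂ) : U ⟨|x.re|, x.im⟩ = U x := by
  rcases abs_cases x.re with ⟨h, _⟩ | ⟨h, _⟩
  · rw [h]
  · rw [h, ← U_neg_conj hΩ hU x]
    congr 1
    apply Complex.ext <;> simp

theorem mono_re_aux (hΩ : AxDomain Ω) (hU : Tor Ω U) {x y : ℂ} (him : x.im = y.im)
    (h0 : 0 ≤ x.re) (hre : x.re < y.re) (hy : y ∈ Ω) : U y ≤ U x := by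
  have h := vrefl_nonneg hΩ hU (l := (x.re + y.re) / 2) (by linarith) (x := y)
    ⟨hy, by show (x.re + y.re) / 2 < y.re; linarith⟩
  have e : vrefl ((x.re + y.re) / 2) y = x := by
    apply Complex.ext
    · rw [vrefl_re]; ring
    · rw [vrefl_im]; exact him.symm
  rw [e] at h
  linarith

theorem mono_re_lt_aux (hΩ : AxDomain Ω) (hU : Tor Ω U) {x y : ℂ} (him : x.im = y.im)
    (h0 : 0 ≤ x.re) (hre : x.re < y.re) (hy : y ∈ Ω) : U y < U x := by
  rcases (mono_re_aux hΩ hU him h0 hre hy).lt_or_eq with h | h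
  · exact h
  exfalso
  set l : ℝ := (x.re + y.re) / 2 with hl
  have hl0 : 0 < l := by rw [hl]; linarith
  have hyA : y ∈ capA Ω l := ⟨hy, by show (x.re + y.re) / 2 < y.re; linarith⟩
  have e : vrefl l y = x := by
    apply Complex.ext
    · rw [vrefl_re, hl]; ring
    · rw [vrefl_im]; exact him.symm
  have hzero := strong_max (isOpen_capA hΩ l) (convex_capA hΩ l).isPreconnected
    (vrefl_cont hU l).continuousOn (fun z hz => vrefl_mean hΩ hU hl0.le hz)
    (fun z hz => vrefl_nonneg hΩ hU hl0.le hz) hyA (by simp only [e]; rw [h]; ring)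
  -- the right end point
  obtain ⟨R, hR⟩ := hΩ.bounded.exists_norm_le
  set K : Set ℝ := {s | 0 ≤ s ∧ y + (s : ℂ) ∈ Ω} with hK
  have hK0 : (0 : ℝ) ∈ K := ⟨le_rfl, by simpa using hy⟩
  have hKb : BddAbove K := by
    refine ⟨R + ‖y‖, ?_⟩
    rintro s ⟨hs, hsΩ⟩
    have h1 := hR _ hsΩ
    have h2 : ‖(s : ℂ)‖ ≤ ‖y + (s : ℂ)‖ + ‖y‖ := by
      have : (s : ℂ) = (y + (s : ℂ)) - y := by ring
      calc ‖(s : ℂ)‖ = ‖(y + (s : ℂ)) - y‖ := by rw [← this]
        _ ≤ _ := norm_sub_le _ _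
    rw [Complex.norm_real, Real.norm_eq_abs, abs_of_nonneg hs] at h2
    linarith
  set s₀ := sSup K with hs₀
  have hlt : ∀ s : ℝ, 0 ≤ s → s < s₀ → s ∈ K := by
    intro s hs hs'
    obtain ⟨t, ht, hst⟩ := exists_lt_of_lt_csSup ⟨0, hK0⟩ hs'
    refine ⟨hs, ?_⟩
    apply hΩ.mem_of_re_le ht.2
    · simp
    · simp
      rw [abs_of_nonneg (by linarith), abs_of_nonneg (by linarith)]
      linarith
  have hcontL : Continuous (fun s : ℝ => y + (s : ℂ)) := by fun_prop
  have hstep : ∀ s ∈ K, ∃ t ∈ K, s < t := by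
    rintro s ⟨hs, hsΩ⟩
    have h1 : ∀ᶠ t : ℝ in 𝓝 s, y + (t : ℂ) ∈ Ω :=
      hcontL.continuousAt.eventually_mem (hΩ.isOpen.mem_nhds hsΩ)
    have h2 : ∀ᶠ t : ℝ in 𝓝[>] s, y + (t : ℂ) ∈ Ω := h1.filter_mono nhdsWithin_le_nhds
    obtain ⟨t, ht, hst⟩ := (h2.and (self_mem_nhdsWithin)).exists
    exact ⟨t, ⟨hs.trans (le_of_lt hst), ht⟩, hst⟩
  have hs₀K : s₀ ∉ K := by
    intro hh
    obtain ⟨t, ht, hst⟩ := hstep _ hh
    exact absurd (le_csSup hKb ht) (not_le.2 hst)
  have hs₀pos : 0 < s₀ := by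
    obtain ⟨t, ht, hst⟩ := hstep _ hK0
    exact lt_of_lt_of_le hst (le_csSup hKb ht)
  have hfz : ∀ s ∈ Icc (0:ℝ) s₀, U (vrefl l (y + (s : ℂ))) - U (y + (s : ℂ)) = 0 := by
    have hE : EqOn (fun s : ℝ => U (vrefl l (y + (s : ℂ))) - U (y + (s : ℂ))) (fun _ => 0)
        (Ico (0:ℝ) s₀) := by
      intro s hs
      have hsK := hlt s hs.1 hs.2
      apply hzero
      refine ⟨hsK.2, ?_⟩
      have h1 := hyA.2
      have h2 := hs.1
      show l < (y + (s : ℂ)).re
      have h1' : l < y.re := h1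
      simp
      linarith
    have hE' := hE.closure ((vrefl_cont hU l).comp hcontL) continuous_const
    rw [closure_Ico hs₀pos.ne] at hE'
    intro s hs
    exact hE' hs
  have hq := hfz s₀ ⟨hs₀pos.le, le_rfl⟩
  have hqΩ : y + (s₀ : ℂ) ∉ Ω := fun hh => hs₀K ⟨hs₀pos.le, hh⟩
  rw [hU.zero _ hqΩ, sub_zero] at hq
  -- the reflected point is in `Ω`
  have hqm : vrefl l (y + (s₀ : ℂ)) ∈ Ω := by
    have hyl : l < y.re := hyA.2
    obtain ⟨s, hs1, hs2⟩ : ∃ s : ℝ, max 0 (max (2 * l - y.re - s₀ - y.re) (y.re + s₀ - 2 * l - y.re)) < s ∧ s < s₀ := by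
      apply exists_between
      apply max_lt hs₀pos
      apply max_lt
      · linarith
      · linarith
    have h1 := (max_lt_iff.1 hs1).1
    have h2 := (max_lt_iff.1 (max_lt_iff.1 hs1).2).1
    have h3 := (max_lt_iff.1 (max_lt_iff.1 hs1).2).2
    have hsK := hlt s h1.le hs2
    apply hΩ.mem_of_re_le hsK.2
    · rw [vrefl_im]; simp
    · rw [vrefl_re]
      simp only [add_re, ofReal_re]
      rw [abs_of_nonneg (by linarith : 0 ≤ y.re + s), abs_le]
      constructor <;> linarith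
  have := hU.pos hΩ.isOpen hΩ.bounded hqm
  linarith

theorem mono_re_lt (hΩ : AxDomain Ω) (hU : Tor Ω U) {x y : ℂ} (him : x.im = y.im)
    (hre : |x.re| < |y.re|) (hy : y ∈ Ω) : U y < U x := by
  rw [← U_abs hΩ hU x, ← U_abs hΩ hU y]
  apply mono_re_lt_aux hΩ hU
  · exact him
  · exact abs_nonneg _
  · exact hre
  · apply hΩ.mem_of_re_le hy
    · rfl
    · simp

theorem mono_re (hΩ : AxDomain Ω) (hU : Tor Ω U) {x y : ℂ} (him : x.im = y.im)
    (hre : |x.re| ≤ |y.re|) : U y ≤ U x := by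
  rcases hre.eq_or_lt with h | h
  · rw [← U_abs hΩ hU x, ← U_abs hΩ hU y, h, him]
  · by_cases hy : y ∈ Ω
    · exact (mono_re_lt hΩ hU him h hy).le
    · rw [hU.zero y hy]
      exact U_nonneg hΩ hU _

end MStress
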