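import Pool.Agent.MStress.WMP
import Pool.Agent.MStress.MVU
/-!
# POS : positivity and simple barriers

* `nonneg`, `pos`: `weak_max`, and the mean value identity at a zero.
* `diff_superMV`: difference of two torsion functions: the `r^2/2` cancel.
* `le_strip`: if `h - D < ⟨y, ν⟩ < h` on `Ω` (`⟨y, ν⟩ = re (y * conj ν)`, `‖ν‖ = 1`) then
  `U y ≤ D (h - ⟨y, ν⟩)`. Barrier `β(y) = d (D - d)`, `d = h - ⟨y,ν⟩`; `β + ‖y‖^2/2` is harmonic
  (`‖y‖^2 = ⟨y,ν⟩^2 + ⟨y, iν⟩^2`; real part of a complex polynomial), so circleAverage β = β - r²/2.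
* `ge_ball`: `(ρ² - ‖y - y₀‖²)/2` on a ball inside `Ω`.
-/
open Complex Metric Set Filter Topology
open scoped ComplexConjugate
namespace MStress

variable {Ω : Set ℂ} {U : ℂ → ℝ}

theorem circInt {f : ℂ → ℝ} (hf : Continuous f) (x : ℂ) (r : ℝ) : CircleIntegrable f x r :=
  hf.continuousOn.circleIntegrable'

/-- mean value identity for the real part of an entire function -/
theorem circleAverage_re {F : ℂ → ℂ} (hF : Differentiable ℂ F) (x : ℂ) (r : ℝ) :
    Real.circleAverage (fun y => (F y).re) x r = (F x).re := by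
  have h1 : Real.circleAverage F x r = F x :=
    DiffContOnCl.circleAverage hF.diffContOnCl
  have h2 := Complex.reCLM.circleAverage_comp_comm (f := F) (c := x) (R := r)
    (hF.continuous.continuousOn.circleIntegrable')
  rw [h1] at h2
  exact h2

theorem Tor.frontier_eq_zero (hU : Tor Ω U) (ho : IsOpen Ω) {x : ℂ} (hx : x ∈ frontier Ω) :
    U x = 0 := by
  refine hU.zero x ?_
  intro h
  rw [ho.frontier_eq] at hx
  exact hx.2 h

theorem Tor.nonneg (hU : Tor Ω U) (ho : IsOpen Ω) (hb : Bornology.IsBounded Ω) (x : ℂ) :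
    0 ≤ U x := by
  by_cases hx : x ∈ Ω
  · refine weak_max ho hb hU.cont.continuousOn ?_ ?_ x (subset_closure hx)
    · intro y hy
      filter_upwards [hU.mean y hy] with r hr
      rw [hr]
      nlinarith [sq_nonneg r]
    · intro y hy
      rw [hU.frontier_eq_zero ho hy]
  · rw [hU.zero x hx]

theorem Tor.pos (hU : Tor Ω U) (ho : IsOpen Ω) (hb : Bornology.IsBounded Ω) {x : ℂ} (hx : x ∈ Ω) :
    0 < U x := by
  rcases (hU.nonneg ho hb x).lt_or_eq with h | h
  · exact h
  · exfalso
    have h1 := (hU.mean x hx).and self_mem_nhdsWithin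
    obtain ⟨r, hr, hr0⟩ := h1.exists
    have hr0 : 0 < r := hr0
    have h2 : 0 ≤ Real.circleAverage U x r :=
      Real.circleAverage_nonneg_of_nonneg (fun y _ => hU.nonneg ho hb y)
    rw [hr, ← h] at h2
    nlinarith

/-- mean value identity for the difference of two torsion functions -/
theorem Tor.sub_mean {Ω' : Set ℂ} {V : ℂ → ℝ} (hU : Tor Ω U) (hV : Tor Ω' V) {x : ℂ}
    (hx : x ∈ Ω) (hx' : x ∈ Ω') :
    ∀ᶠ r in 𝓝[>] (0:ℝ), Real.circleAverage (fun y => U y - V y) x r = U x - V x := by
  filter_upwards [hU.mean x hx, hV.mean x hx'] with r h1 h2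
  rw [Real.circleAverage_fun_sub (circInt hU.cont x r) (circInt hV.cont x r), h1, h2]
  ring

/-- outside `Ω` the zero extension is subharmonic up to the constant -/
theorem Tor.sub_mean_all (hU : Tor Ω U) (ho : IsOpen Ω) (hb : Bornology.IsBounded Ω) (x : ℂ) :
    ∀ᶠ r in 𝓝[>] (0:ℝ), U x - r ^ 2 / 2 ≤ Real.circleAverage U x r := by
  by_cases hx : x ∈ Ω
  · filter_upwards [hU.mean x hx] with r hr
    rw [hr]
  · refine Eventually.of_forall fun r => ?_
    have h2 : 0 ≤ Real.circleAverage U x r :=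
      Real.circleAverage_nonneg_of_nonneg (fun y _ => hU.nonneg ho hb y)
    rw [hU.zero x hx]
    nlinarith [sq_nonneg r]

theorem circleAverage_inner (ν x : ℂ) (r : ℝ) :
    Real.circleAverage (fun y => (y * conj ν).re) x r = (x * conj ν).re :=
  circleAverage_re (F := fun y => y * conj ν) (by fun_prop) x r

theorem circleAverage_inner_sq {ν : ℂ} (hν : ‖ν‖ = 1) (x : ℂ) (r : ℝ) :
    Real.circleAverage (fun y => (y * conj ν).re ^ 2) x r = (x * conj ν).re ^ 2 + r ^ 2 / 2 := by
  have key : ∀ y : ℂ, (y * conj ν).re ^ 2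
      = (1/2 : ℝ) • (‖y‖ ^ 2 + ((y * conj ν) ^ 2).re) := by
    intro y
    have h1 : ‖y‖ ^ 2 = (y * conj ν).re ^ 2 + (y * conj ν).im ^ 2 := by
      have h3 : ‖y * conj ν‖ = ‖y‖ := by
        rw [norm_mul, Complex.norm_conj, hν, mul_one]
      rw [← h3, Complex.sq_norm, Complex.normSq_apply]
      ring
    have h2 : ((y * conj ν) ^ 2).re = (y * conj ν).re ^ 2 - (y * conj ν).im ^ 2 := by
      rw [sq, Complex.mul_re]; ring
    rw [h1, h2, smul_eq_mul]
    ring
  have e : (fun y : ℂ => (y * conj ν).re ^ 2)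
      = fun y => (1/2 : ℝ) • (‖y‖ ^ 2 + ((y * conj ν) ^ 2).re) := funext key
  have c1 : Continuous fun y : ℂ => ‖y‖ ^ 2 := by fun_prop
  have c2 : Continuous fun y : ℂ => ((y * conj ν) ^ 2).re := by fun_prop
  rw [e, Real.circleAverage_fun_smul, Real.circleAverage_fun_add (circInt c1 x r) (circInt c2 x r),
    circleAverage_normSq, circleAverage_re (F := fun y => (y * conj ν) ^ 2) (by fun_prop), key x]
  simp only [smul_eq_mul]
  ring

theorem Tor.le_strip (hU : Tor Ω U) (ho : IsOpen Ω) (hb : Bornology.IsBounded Ω) {ν : ℂ}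
    (hν : ‖ν‖ = 1) {h D : ℝ} (hD : 0 < D)
    (hs : ∀ y ∈ Ω, (y * conj ν).re < h ∧ h - D < (y * conj ν).re) :
    ∀ y ∈ Ω, U y ≤ D * (h - (y * conj ν).re) := by
  set β : ℂ → ℝ := fun y => h * (D - h) + (2 * h - D) * (y * conj ν).re - (y * conj ν).re ^ 2
    with hβ
  have cl : Continuous fun y : ℂ => (y * conj ν).re := by fun_prop
  have cβ : Continuous β := by fun_prop
  have avβ : ∀ x r, Real.circleAverage β x r = β x - r ^ 2 / 2 := by
    intro x r
    have c1 : Continuous fun y : ℂ => h * (D - h) + (2 * h - D) * (y * conj ν).re := by fun_prop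
    have c2 : Continuous fun y : ℂ => (y * conj ν).re ^ 2 := by fun_prop
    have c3 : Continuous fun y : ℂ => (2 * h - D) * (y * conj ν).re := by fun_prop
    have e3 : Real.circleAverage (fun y : ℂ => (2 * h - D) * (y * conj ν).re) x r
        = (2 * h - D) * (x * conj ν).re := by
      have := Real.circleAverage_fun_smul (a := (2 * h - D)) (f := fun y : ℂ => (y * conj ν).re)
        (c := x) (R := r)
      simp only [smul_eq_mul] at this
      rw [this, circleAverage_inner]
    rw [hβ]
    rw [Real.circleAverage_fun_sub (circInt c1 x r) (circInt c2 x r),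
      Real.circleAverage_fun_add (circInt continuous_const x r) (circInt c3 x r),
      circleAverage_inner_sq hν, e3, Real.circleAverage_const]
    ring
  have hcl : ∀ y ∈ closure Ω, (y * conj ν).re ≤ h ∧ h - D ≤ (y * conj ν).re := by
    intro y hy
    constructor
    · exact closure_minimal (fun z hz => (hs z hz).1.le)
        (isClosed_le cl continuous_const) hy
    · exact closure_minimal (fun z hz => (hs z hz).2.le)
        (isClosed_le continuous_const cl) hy
  have hmain := weak_max ho hb (f := fun y => β y - U y) (cβ.sub hU.cont).continuousOn ?_ ?_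
  · intro y hy
    have h1 := hmain y (subset_closure hy)
    have h2 := hs y hy
    simp only [hβ] at h1
    nlinarith [mul_pos (sub_pos.2 h2.1) (sub_pos.2 h2.1)]
  · intro x hx
    filter_upwards [hU.mean x hx] with r hr
    rw [Real.circleAverage_fun_sub (circInt cβ x r) (circInt hU.cont x r), avβ, hr]
    linarith
  · intro x hx
    have h1 := hcl x (frontier_subset_closure hx)
    rw [hU.frontier_eq_zero ho hx]
    simp only [hβ]
    nlinarith [mul_nonneg (sub_nonneg.2 h1.1) (sub_nonneg.2 h1.2)]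

theorem Tor.ge_ball (hU : Tor Ω U) (ho : IsOpen Ω) (hb : Bornology.IsBounded Ω) {y₀ : ℂ} {ρ : ℝ}
    (hρ : 0 < ρ) (hB : ball y₀ ρ ⊆ Ω) :
    ∀ y ∈ ball y₀ ρ, (ρ ^ 2 - ‖y - y₀‖ ^ 2) / 2 ≤ U y := by
  have key : ∀ y : ℂ, ‖y - y₀‖ ^ 2 = ‖y‖ ^ 2 + (-2 * (y * conj y₀)).re + ‖y₀‖ ^ 2 := by
    intro y
    simp only [Complex.sq_norm, Complex.normSq_apply, Complex.sub_re, Complex.sub_im,
      Complex.mul_re, Complex.mul_im, Complex.conj_re, Complex.conj_im, Complex.neg_re,
      Complex.neg_im, Complex.re_ofNat, Complex.im_ofNat]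
    ring
  have c1 : Continuous fun y : ℂ => ‖y‖ ^ 2 := by fun_prop
  have c2 : Continuous fun y : ℂ => (-2 * (y * conj y₀)).re := by fun_prop
  have c3 : Continuous fun y : ℂ => ‖y‖ ^ 2 + (-2 * (y * conj y₀)).re := by fun_prop
  have av : ∀ x r, Real.circleAverage (fun y => ‖y - y₀‖ ^ 2) x r = ‖x - y₀‖ ^ 2 + r ^ 2 := by
    intro x r
    rw [funext key, Real.circleAverage_fun_add (circInt c3 x r) (circInt continuous_const x r),
      Real.circleAverage_fun_add (circInt c1 x r) (circInt c2 x r), circleAverage_normSq,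
      circleAverage_re (F := fun y => -2 * (y * conj y₀)) (by fun_prop), Real.circleAverage_const,
      key x]
    ring
  have c4 : Continuous fun y : ℂ => ‖y - y₀‖ ^ 2 := by fun_prop
  set β : ℂ → ℝ := fun y => (ρ ^ 2 - ‖y - y₀‖ ^ 2) / 2 with hβ
  have cβ : Continuous β := by fun_prop
  have avβ : ∀ x r, Real.circleAverage β x r = β x - r ^ 2 / 2 := by
    intro x r
    have e1 : β = fun y => ρ ^ 2 / 2 - (1/2 : ℝ) • ‖y - y₀‖ ^ 2 := by
      funext y; simp only [hβ, smul_eq_mul]; ring
    have c5 : Continuous fun y : ℂ => (1/2 : ℝ) • ‖y - y₀‖ ^ 2 := by fun_prop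
    rw [e1, Real.circleAverage_fun_sub (circInt continuous_const x r) (circInt c5 x r),
      Real.circleAverage_fun_smul, av, Real.circleAverage_const]
    simp only [smul_eq_mul]
    ring
  have hmain := weak_max (A := ball y₀ ρ) isOpen_ball isBounded_ball (f := fun y => U y - β y)
    (hU.cont.sub cβ).continuousOn ?_ ?_
  · intro y hy
    have := hmain y (subset_closure hy)
    simp only [hβ] at this
    linarith
  · intro x hx
    filter_upwards [hU.mean x (hB hx)] with r hr
    rw [Real.circleAverage_fun_sub (circInt hU.cont x r) (circInt cβ x r), avβ, hr]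
    linarith
  · intro x hx
    rw [frontier_ball y₀ hρ.ne', mem_sphere, dist_eq_norm] at hx
    simp only [hβ, hx]
    have := hU.nonneg ho hb x
    linarith

end MStress
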