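import Pool.Agent.MStress.CMP2
import Pool.Agent.MStress.HOPF
import Pool.Agent.MStress.LIP
/-!
# SLOPE : the slope of `U` at `p` is strictly smaller than the slope at `z`

Let `K` be a Lipschitz constant (`exists_lipschitz`) and `L = inf {M ≥ 0 | ∀ᶠ y in 𝓝 z, U y ≤ M ‖y - z‖}`
(the upper slope at `z`). From `hopf`: `ρ, ε, y₀ = z - (ρ/R)(z-c)`.
* `L ≥ ρ`: `ge_ball` along `y = z - t (z-c)/R`: `U y ≥ (ρ² - (ρ-t)²)/2 = t ρ - t²/2`.
* Let `d y = ((z - y) * conj (z - c)).re / R` (depth). `‖y - y₀‖² = ρ² - 2 ρ d + ‖y - z‖²`.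
  For `x` near `p` write `x = T y`, `y` near `z`, `‖x - p‖ = ‖y - z‖`; if `x ∉ Ω`, `U x = 0`. If `x ∈ Ω`:
  - `d y < c₀ ‖y - z‖` (`c₀ = ρ/(8R)`): `le_strip` with `ν = p/R`, `h = R`, `D = 2R`:
    `U x ≤ 2R (R - re (x conj p)/R) = 2R d' ` where `d'` = depth of `x` at `p` equals `d y`
    (compute from `‖x‖² = ‖y-c‖²`, `‖x-p‖² = ‖y-z‖²`, `‖p‖ = ‖z-c‖`), so `U x ≤ (ρ/4) ‖x - p‖`.
  - `d y ≥ c₀ ‖y - z‖`: for `y` close to `z`, `y ∈ ball y₀ ρ`, `ρ/2 < ‖y-y₀‖`, and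
    `ρ - ‖y-y₀‖ ≥ (ρ² - ‖y-y₀‖²)/(2ρ) = d y - ‖y-z‖²/(2ρ) ≥ (c₀/2) ‖y - z‖`; so
    `U x = U (T y) ≤ U y - ε (c₀/2) ‖y-z‖ ≤ (L + ε c₀/4 - ε c₀/2) ‖y - z‖`.
* `m = max (ρ/4) (L - ε c₀/4) < L`, `M = (m + L)/2`: by definition of `L` frequently `M ‖y-z‖ < U y`.
-/
open Complex Metric Set Filter Topology
open scoped ComplexConjugate
namespace MStress

variable {Ω : Set ℂ} {U : ℂ → ℝ}

private theorem SLOPE_normSq (w : ℂ) : ‖w‖ ^ 2 = w.re * w.re + w.im * w.im := by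
  rw [← Complex.normSq_eq_norm_sq, Complex.normSq_apply]

private theorem SLOPE_aux1 {ρ t M : ℝ} (ht : 0 < t) (htM : t ≤ ρ - M)
    (h : (ρ ^ 2 - (ρ - t) ^ 2) / 2 ≤ M * t) : False := by
  have h1 : (ρ ^ 2 - (ρ - t) ^ 2) / 2 = (ρ - t / 2) * t := by ring
  rw [h1] at h
  have h2 : ρ - t / 2 ≤ M := le_of_mul_le_mul_right h ht
  linarith

private theorem SLOPE_aux2 {ρ c s d N : ℝ} (hρ : 0 < ρ) (hc : 0 < c) (hs : 0 < s)
    (hs2 : s < ρ * c) (hd : c * s ≤ d)
    (hsq : N ^ 2 = ρ ^ 2 - 2 * ρ * d + s ^ 2) : N < ρ ∧ c / 2 * s ≤ ρ - N := by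
  have h1 : s ^ 2 ≤ ρ * c * s := by
    rw [pow_two]; exact mul_le_mul_of_nonneg_right hs2.le hs.le
  have h2 : ρ * (c * s) ≤ ρ * d := mul_le_mul_of_nonneg_left hd hρ.le
  have h3 : 0 < ρ * c * s := by positivity
  have h4 : N ^ 2 < ρ ^ 2 := by rw [hsq]; linarith
  have h5 : N < ρ := lt_of_pow_lt_pow_left₀ 2 hρ.le h4
  refine ⟨h5, ?_⟩
  have h6 : ρ * c * s ≤ ρ ^ 2 - N ^ 2 := by rw [hsq]; linarith
  have h7 : ρ ^ 2 - N ^ 2 = (ρ - N) * (ρ + N) := by ring
  have h8 : (ρ - N) * (ρ + N) ≤ (ρ - N) * (2 * ρ) :=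
    mul_le_mul_of_nonneg_left (by linarith) (by linarith)
  have h9 : (c / 2 * s) * (2 * ρ) ≤ (ρ - N) * (2 * ρ) := by
    calc (c / 2 * s) * (2 * ρ) = ρ * c * s := by ring
      _ ≤ (ρ - N) * (2 * ρ) := by rw [h7] at h6; exact h6.trans h8
  exact le_of_mul_le_mul_right h9 (by positivity)

theorem slope_gap (hΩ : AxDomain Ω) (hU : Tor Ω U) {p : ℂ} (hp : IsFarthest Ω p)
    (hab : halfX Ω ≠ halfY Ω) :
    ∃ z ∈ frontier Ω, ∃ m M : ℝ, 0 ≤ m ∧ m < M ∧ (∀ᶠ y in 𝓝 p, U y ≤ m * ‖y - p‖) ∧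
      (∃ᶠ y in 𝓝 z, M * ‖y - z‖ < U y) := by
  obtain ⟨T, z, c, r, hT, hz, hTz, hTc, hr, hin, hcmp⟩ := exists_cmp hΩ hU hp hab
  obtain ⟨hR, hlt⟩ := norm_lt_of_farthest hΩ hp
  obtain ⟨ρ, ε, hρ, hε, h2ρ, h2r, hball, hmain⟩ :=
    hopf hU hΩ.isOpen hΩ.bounded hT hTz hTc hr hR hin hcmp
  obtain ⟨K, hK0, hK⟩ := exists_lipschitz hU hΩ.isOpen hΩ.convex hΩ.bounded hΩ.nonempty
  have hpΩ : p ∉ Ω := by
    intro h
    have := hp.1
    rw [hΩ.isOpen.frontier_eq] at this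
    exact this.2 h
  have hzΩ : z ∉ Ω := by
    intro h
    rw [hΩ.isOpen.frontier_eq] at hz
    exact hz.2 h
  have hUz : U z = 0 := hU.zero z hzΩ
  set R : ℝ := ‖p‖ with hRdef
  have hzc : ‖z - c‖ = R := by
    rw [← hT.iso z c, hTz, hTc, sub_zero]
  set y₀ : ℂ := z - ((ρ / R : ℝ) : ℂ) * (z - c) with hy₀
  have hzy₀ : ‖z - y₀‖ = ρ := by
    rw [hy₀, sub_sub_cancel, norm_mul, hzc, Complex.norm_real, Real.norm_eq_abs,
      abs_of_pos (div_pos hρ hR)]
    field_simp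
  -- the upper slope at z
  set S : Set ℝ := {M : ℝ | 0 ≤ M ∧ ∀ᶠ y in 𝓝 z, U y ≤ M * ‖y - z‖} with hS
  have hKS : K ∈ S := by
    refine ⟨hK0, Eventually.of_forall fun y => ?_⟩
    have := hK y z
    rw [hUz, sub_zero] at this
    exact (le_abs_self _).trans this
  have hSne : S.Nonempty := ⟨K, hKS⟩
  have hSbdd : BddBelow S := ⟨0, fun M hM => hM.1⟩
  set L : ℝ := sInf S with hL
  -- every member of S is at least ρ
  have hSρ : ∀ M ∈ S, ρ ≤ M := by
    intro M hM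
    by_contra hlt'
    push Not at hlt'
    obtain ⟨η, hη, hηM⟩ := Metric.eventually_nhds_iff.1 hM.2
    -- choose t small
    set t : ℝ := min (η / 2) (min ρ (ρ - M)) / 1 with ht
    have htpos : 0 < t := by
      rw [ht, div_one]
      exact lt_min (half_pos hη) (lt_min hρ (by linarith))
    have htη : t < η := by
      have : t ≤ η / 2 := by rw [ht, div_one]; exact min_le_left _ _
      linarith
    have htρ : t ≤ ρ := by
      rw [ht, div_one]; exact (min_le_right _ _).trans (min_le_left _ _)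
    have htM : t ≤ ρ - M := by
      rw [ht, div_one]; exact (min_le_right _ _).trans (min_le_right _ _)
    set y : ℂ := z - ((t / R : ℝ) : ℂ) * (z - c) with hy
    have hyz : ‖y - z‖ = t := by
      have : y - z = -(((t / R : ℝ) : ℂ) * (z - c)) := by rw [hy]; ring
      rw [this, norm_neg, norm_mul, hzc, Complex.norm_real, Real.norm_eq_abs,
        abs_of_pos (div_pos htpos hR)]
      field_simp
    have hyy₀ : ‖y - y₀‖ = ρ - t := by
      have : y - y₀ = (((ρ - t) / R : ℝ) : ℂ) * (z - c) := by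
        rw [hy, hy₀]; push_cast; ring
      rw [this, norm_mul, hzc, Complex.norm_real, Real.norm_eq_abs,
        abs_of_nonneg (div_nonneg (by linarith) hR.le)]
      field_simp
    have hyball : y ∈ ball y₀ ρ := by
      rw [mem_ball, dist_eq_norm, hyy₀]; linarith
    have h1 := hU.ge_ball hΩ.isOpen hΩ.bounded hρ hball y hyball
    rw [hyy₀] at h1
    have h2 := hηM (by rw [dist_eq_norm, hyz]; exact htη)
    rw [hyz] at h2
    exact SLOPE_aux1 htpos htM (h1.trans h2)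
  have hρL : ρ ≤ L := le_csInf hSne hSρ
  have hLpos : 0 < L := lt_of_lt_of_le hρ hρL
  have hup : ∀ δ : ℝ, 0 < δ → ∀ᶠ y in 𝓝 z, U y ≤ (L + δ) * ‖y - z‖ := by
    intro δ hδ
    obtain ⟨M, hM, hML⟩ := exists_lt_of_csInf_lt hSne (show sInf S < L + δ by linarith)
    filter_upwards [hM.2] with y hy
    exact hy.trans (mul_le_mul_of_nonneg_right hML.le (norm_nonneg _))
  have hdown : ∀ M : ℝ, 0 ≤ M → M < L → ∃ᶠ y in 𝓝 z, M * ‖y - z‖ < U y := by
    intro M hM0 hML hcon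
    have : M ∈ S := by
      refine ⟨hM0, ?_⟩
      filter_upwards [hcon] with y hy
      exact not_lt.1 hy
    exact absurd (csInf_le hSbdd this) (not_le.2 hML)
  set c₀ : ℝ := ρ / (8 * R) with hc₀
  have hc₀pos : 0 < c₀ := by rw [hc₀]; positivity
  set m : ℝ := max (ρ / 4) (L - ε * c₀ / 4) with hm
  have hm0 : 0 ≤ m := le_trans (by positivity) (le_max_left _ _)
  have hmL : m < L := by
    rw [hm]
    refine max_lt (by linarith) ?_
    have : 0 < ε * c₀ / 4 := by positivity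
    linarith
  refine ⟨z, hz, m, (m + L) / 2, hm0, by linarith, ?_, hdown _ (by linarith) (by linarith)⟩
  -- the main estimate at p
  obtain ⟨η₁, hη₁, hη₁M⟩ := Metric.eventually_nhds_iff.1 (hup (ε * c₀ / 4) (by positivity))
  have hηpos : 0 < min η₁ (min (ρ * c₀) (ρ / 2)) :=
    lt_min hη₁ (lt_min (by positivity) (by positivity))
  refine Metric.eventually_nhds_iff.2 ⟨min η₁ (min (ρ * c₀) (ρ / 2)), hηpos, ?_⟩
  intro x hx
  rw [dist_eq_norm] at hx
  by_cases hxΩ : x ∈ Ω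
  swap
  · rw [hU.zero x hxΩ]; exact mul_nonneg hm0 (norm_nonneg _)
  obtain ⟨y, rfl⟩ := hT.surj x
  have hs : ‖T y - p‖ = ‖y - z‖ := by rw [← hTz, hT.iso]
  have hyc : ‖T y‖ = ‖y - c‖ := by rw [← hT.iso y c, hTc, sub_zero]
  rw [hs] at hx ⊢
  set s : ℝ := ‖y - z‖ with hsdef
  have hs1 : s < η₁ := lt_of_lt_of_le hx (min_le_left _ _)
  have hs2 : s < ρ * c₀ := lt_of_lt_of_le hx ((min_le_right _ _).trans (min_le_left _ _))
  have hs3 : s < ρ / 2 := lt_of_lt_of_le hx ((min_le_right _ _).trans (min_le_right _ _))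
  have hs0 : 0 < s := by
    rw [hsdef, norm_pos_iff, sub_ne_zero]
    rintro rfl
    rw [hTz] at hxΩ
    exact hpΩ hxΩ
  -- the depth
  set d : ℝ := ((z - y) * conj (z - c)).re / R with hd
  have e1 : s ^ 2 = (y - z).re * (y - z).re + (y - z).im * (y - z).im := SLOPE_normSq _
  have e2 : R ^ 2 = (z - c).re * (z - c).re + (z - c).im * (z - c).im := by
    rw [← hzc]; exact SLOPE_normSq _
  have e3 : ‖y - c‖ ^ 2 = (y - c).re * (y - c).re + (y - c).im * (y - c).im := SLOPE_normSq _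
  have e4 : ‖T y‖ ^ 2 = (T y).re * (T y).re + (T y).im * (T y).im := SLOPE_normSq _
  have e5 : R ^ 2 = p.re * p.re + p.im * p.im := SLOPE_normSq _
  have e6 : s ^ 2 = (T y - p).re * (T y - p).re + (T y - p).im * (T y - p).im := by
    rw [← hs]; exact SLOPE_normSq _
  simp only [Complex.sub_re, Complex.sub_im] at e1 e2 e3 e6
  have hdR : d * R = (z.re - y.re) * (z.re - c.re) + (z.im - y.im) * (z.im - c.im) := by
    rw [hd, div_mul_cancel₀ _ hR.ne', Complex.mul_re, Complex.conj_re, Complex.conj_im]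
    simp only [Complex.sub_re, Complex.sub_im]
    ring
  have hdepth : R - ((T y) * conj (p / (R : ℂ))).re = d := by
    have h1 : ((T y) * conj (p / (R : ℂ))).re = ((T y).re * p.re + (T y).im * p.im) / R := by
      rw [map_div₀, Complex.conj_ofReal, ← mul_div_assoc, Complex.div_ofReal_re, Complex.mul_re,
        Complex.conj_re, Complex.conj_im]
      ring
    rw [h1]
    have h2 : (R - ((T y).re * p.re + (T y).im * p.im) / R) * R = d * R := by
      rw [sub_mul, div_mul_cancel₀ _ hR.ne', hdR]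
      have h3 : ‖T y‖ ^ 2 = ‖y - c‖ ^ 2 := by rw [hyc]
      linear_combination (-1/2) * e6 + (1/2) * e4 + (1/2) * e5 + (-1/2) * e3 + (1/2) * e1
        + (1/2) * e2 + (-1/2) * h3
    exact mul_right_cancel₀ hR.ne' h2
  rcases lt_or_ge d (c₀ * s) with hcase | hcase
  · -- shallow points: strip barrier
    have hν : ‖p / (R : ℂ)‖ = 1 := by
      rw [norm_div, Complex.norm_real, Real.norm_eq_abs, abs_of_pos hR]
      exact div_self hR.ne'
    have h1 := hU.le_strip hΩ.isOpen hΩ.bounded hν (h := R) (D := 2 * R) (by positivity)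
      (fun w hw => by
        have hw1 : |(w * conj (p / (R : ℂ))).re| < R := by
          refine lt_of_le_of_lt (Complex.abs_re_le_norm _) ?_
          rw [norm_mul, RCLike.norm_conj, hν, mul_one]
          exact hlt w hw
        rw [abs_lt] at hw1
        exact ⟨hw1.2, by linarith [hw1.1]⟩) (T y) hxΩ
    rw [hdepth] at h1
    have h2 : 2 * R * d ≤ 2 * R * (c₀ * s) := by
      exact mul_le_mul_of_nonneg_left hcase.le (by positivity)
    have h3 : 2 * R * (c₀ * s) = ρ / 4 * s := by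
      rw [hc₀]; field_simp; ring
    calc U (T y) ≤ 2 * R * d := h1
      _ ≤ ρ / 4 * s := by rw [← h3]; exact h2
      _ ≤ m * s := mul_le_mul_of_nonneg_right (le_max_left _ _) hs0.le
  · -- deep points: Hopf
    have hsq : ‖y - y₀‖ ^ 2 = ρ ^ 2 - 2 * ρ * d + s ^ 2 := by
      rw [SLOPE_normSq]
      have hre : (y - y₀).re = (y.re - z.re) + ρ / R * (z.re - c.re) := by
        rw [hy₀]; simp [Complex.mul_re]; ring
      have him : (y - y₀).im = (y.im - z.im) + ρ / R * (z.im - c.im) := by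
        rw [hy₀]; simp [Complex.mul_im]; ring
      rw [hre, him]
      have hRR : ρ / R * (ρ / R) * (R ^ 2) = ρ ^ 2 := by field_simp
      have hdd : ρ / R * (d * R) = ρ * d := by field_simp
      rw [e2] at hRR
      rw [hdR] at hdd
      linear_combination (-1) * e1 - 2 * hdd + hRR
    obtain ⟨hyb, h9⟩ := SLOPE_aux2 hρ hc₀pos hs0 hs2 hcase hsq
    have hyb2 : ρ / 2 < ‖y - y₀‖ := by
      have h6 : ‖z - y₀‖ ≤ ‖y - y₀‖ + ‖y - z‖ := by
        have : z - y₀ = (y - y₀) - (y - z) := by ring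
        rw [this]; exact norm_sub_le _ _
      rw [hzy₀] at h6
      have : ‖y - z‖ = s := rfl
      linarith
    have h7 := hmain y (by rw [mem_ball, dist_eq_norm]; exact hyb) hyb2
    have h8 := hη₁M (by rw [dist_eq_norm]; exact hs1)
    have h14 : ε * (c₀ / 2 * s) ≤ ε * (ρ - ‖y - y₀‖) := mul_le_mul_of_nonneg_left h9 hε.le
    calc U (T y) ≤ U y - ε * (ρ - ‖y - y₀‖) := by linarith
      _ ≤ (L + ε * c₀ / 4) * s - ε * (c₀ / 2 * s) := by linarith
      _ = (L - ε * c₀ / 4) * s := by ring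
      _ ≤ m * s := mul_le_mul_of_nonneg_right (le_max_right _ _) hs0.le

end MStress
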