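import Pool.Agent.MStress.MONO
/-!
# SWAP : exchange of coordinates, monotonicity in both coordinates
`swap (x + i y) = y + i x`; `Tor (swap ⁻¹' Ω) (U ∘ swap)` by `Tor.comp` and `rigid_refl` (`a = I`, `b = 0`).
-/
open Complex Metric Set Filter Topology
open scoped ComplexConjugate
namespace MStress

variable {Ω : Set ℂ} {U : ℂ → ℝ}

@[simp] theorem swap_re (z : ℂ) : (swap z).re = z.im := by simp [swap]
@[simp] theorem swap_im (z : ℂ) : (swap z).im = z.re := by simp [swap]
@[simp] theorem swap_swap (z : ℂ) : swap (swap z) = z := by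
  apply Complex.ext <;> simp

theorem swap_eq (z : ℂ) : I * conj z + 0 = swap z := by simp [swap]

theorem swap_conj (z : ℂ) : swap (conj z) = -conj (swap z) := by
  apply Complex.ext <;> simp

theorem swap_neg_conj (z : ℂ) : swap (-conj z) = conj (swap z) := by
  apply Complex.ext <;> simp

theorem swap_add (z w : ℂ) : swap (z + w) = swap z + swap w := by
  apply Complex.ext <;> simp

theorem swap_smul (a : ℝ) (z : ℂ) : swap (a • z) = a • swap z := by
  apply Complex.ext <;> simp

theorem norm_swap (z : ℂ) : ‖swap z‖ = ‖z‖ := by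
  simp [swap]

theorem continuous_swap : Continuous swap := by
  unfold swap; fun_prop

theorem AxDomain.swap (hΩ : AxDomain Ω) : AxDomain (MStress.swap ⁻¹' Ω) where
  isOpen := hΩ.isOpen.preimage continuous_swap
  convex := by
    intro x hx y hy a b ha hb hab
    show MStress.swap (a • x + b • y) ∈ Ω
    rw [swap_add, swap_smul, swap_smul]
    exact hΩ.convex hx hy ha hb hab
  bounded := by
    obtain ⟨R, hR⟩ := hΩ.bounded.exists_norm_le
    refine isBounded_iff_forall_norm_le.2 ⟨R, fun x hx => ?_⟩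
    have := hR _ hx
    rwa [norm_swap] at this
  nonempty := by
    obtain ⟨z, hz⟩ := hΩ.nonempty
    exact ⟨MStress.swap z, by show MStress.swap (MStress.swap z) ∈ Ω; rwa [swap_swap]⟩
  symm_conj := by
    intro z hz
    show MStress.swap (conj z) ∈ Ω
    rw [swap_conj]
    exact hΩ.symm_neg_conj _ hz
  symm_neg_conj := by
    intro z hz
    show MStress.swap (-conj z) ∈ Ω
    rw [swap_neg_conj]
    exact hΩ.symm_conj _ hz

theorem Tor.swap (hU : Tor Ω U) : Tor (MStress.swap ⁻¹' Ω) (fun y => U (MStress.swap y)) := by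
  have h := hU.comp (rigid_refl (a := I) (b := 0) (by simp))
  have e : (fun y : ℂ => I * conj y + 0) = MStress.swap := by
    funext y; exact swap_eq y
  rw [e] at h
  simp only [swap_eq] at h
  exact h

theorem U_conj (hΩ : AxDomain Ω) (hU : Tor Ω U) (x : ℂ) : U (conj x) = U x := by
  have h := U_neg_conj hΩ.swap hU.swap (MStress.swap x)
  simp only [swap_neg_conj, swap_swap] at h
  exact h

theorem U_neg (hΩ : AxDomain Ω) (hU : Tor Ω U) (x : ℂ) : U (-x) = U x := by
  have h1 := U_neg_conj hΩ hU (conj x)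
  rw [Complex.conj_conj] at h1
  rw [h1, U_conj hΩ hU]

theorem mono_aux (hΩ : AxDomain Ω) (hU : Tor Ω U) {x y : ℂ} (hre : x.re = y.re)
    (him : |x.im| ≤ |y.im|) : U y ≤ U x := by
  have h := mono_re hΩ.swap hU.swap (x := MStress.swap x) (y := MStress.swap y) (by simpa using hre)
    (by simpa using him)
  simpa using h

theorem mono (hΩ : AxDomain Ω) (hU : Tor Ω U) {x y : ℂ} (hre : |x.re| ≤ |y.re|)
    (him : |x.im| ≤ |y.im|) : U y ≤ U x := by
  have h1 : U y ≤ U ⟨x.re, y.im⟩ := mono_re hΩ hU rfl hre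
  have h2 : U ⟨x.re, y.im⟩ ≤ U x := mono_aux hΩ hU rfl him
  exact h1.trans h2

theorem mono_lt (hΩ : AxDomain Ω) (hU : Tor Ω U) {x y : ℂ} (hre : |x.re| < |y.re|)
    (him : |x.im| ≤ |y.im|) (hy : y ∈ Ω) : U y < U x := by
  have h1 : U y < U ⟨x.re, y.im⟩ := mono_re_lt hΩ hU rfl hre hy
  have h2 : U ⟨x.re, y.im⟩ ≤ U x := mono_aux hΩ hU rfl him
  exact h1.trans_le h2

/-- consequence of `mono` (and positivity) -/
theorem mem_of_le (hΩ : AxDomain Ω) (hU : Tor Ω U) {x y : ℂ} (hre : |x.re| ≤ |y.re|)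
    (him : |x.im| ≤ |y.im|) (hy : y ∈ Ω) : x ∈ Ω := by
  by_contra hx
  have h1 := hU.pos hΩ.isOpen hΩ.bounded hy
  have h2 := mono hΩ hU hre him
  rw [hU.zero x hx] at h2
  linarith

end MStress
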