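import Pool.Agent.MStress.CA
/-!
# WMP, SMP : weak and strong minimum principle in mean-value form

weak_max: let `m = min f` on the compact `closure A`; if `m < 0` the set `K = {x ∈ closure A | f x = m}`
is compact and contained in `A` (on the frontier `f ≥ 0`); take `x ∈ K` with `‖x‖` maximal; for small `r`
the closed ball is in `A`, `circleAverage f x r ≤ m`, so by `eq_of_circleAverage_le` `f = m` on the whole
circle, which contains a point of larger norm: contradiction.

strong_max: the zero set of `f` in `A` is relatively closed, and open by `eq_of_circleAverage_le`.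
-/
open Complex Metric Set Filter Topology
open scoped ComplexConjugate
namespace MStress

theorem WMP_small {A : Set ℂ} (hA : IsOpen A) {x : ℂ} (hx : x ∈ A) :
    ∀ᶠ r in 𝓝[>] (0:ℝ), closedBall x r ⊆ A := by
  obtain ⟨R, hR, hb⟩ := Metric.isOpen_iff.1 hA x hx
  filter_upwards [Ioo_mem_nhdsGT hR] with r hr
  exact (closedBall_subset_ball hr.2).trans hb

theorem WMP_far (x : ℂ) {r : ℝ} (hr : 0 < r) : ∃ y ∈ sphere x r, ‖x‖ < ‖y‖ := by
  by_cases hx : x = 0
  · refine ⟨(r : ℂ), ?_, ?_⟩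
    · rw [mem_sphere_iff_norm, hx, sub_zero, Complex.norm_real, Real.norm_eq_abs, abs_of_pos hr]
    · rw [hx, norm_zero, Complex.norm_real, Real.norm_eq_abs, abs_of_pos hr]
      exact hr
  · have hx' : 0 < ‖x‖ := norm_pos_iff.2 hx
    refine ⟨x + ((r / ‖x‖ : ℝ) : ℂ) * x, ?_, ?_⟩
    · rw [mem_sphere_iff_norm, add_sub_cancel_left, norm_mul, Complex.norm_real, Real.norm_eq_abs,
        abs_of_pos (div_pos hr hx'), div_mul_cancel₀ _ hx'.ne']
    · have e : x + ((r / ‖x‖ : ℝ) : ℂ) * x = ((1 + r / ‖x‖ : ℝ) : ℂ) * x := by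
        push_cast
        ring
      rw [e, norm_mul, Complex.norm_real, Real.norm_eq_abs,
        abs_of_pos (add_pos one_pos (div_pos hr hx')), add_mul, one_mul, div_mul_cancel₀ _ hx'.ne']
      linarith

theorem weak_max {A : Set ℂ} (hA : IsOpen A) (hb : Bornology.IsBounded A) {f : ℂ → ℝ}
    (hf : ContinuousOn f (closure A)) (hmv : ∀ x ∈ A, SuperMV f x)
    (h0 : ∀ x ∈ frontier A, 0 ≤ f x) : ∀ x ∈ closure A, 0 ≤ f x := by
  intro x0 hx0
  by_contra hneg
  push Not at hneg
  have hcomp : IsCompact (closure A) := hb.isCompact_closure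
  obtain ⟨x1, hx1, hmin⟩ := hcomp.exists_isMinOn ⟨x0, hx0⟩ hf
  have hm0 : f x1 < 0 := lt_of_le_of_lt (hmin hx0) hneg
  have hKc : IsCompact (closure A ∩ f ⁻¹' {f x1}) := by
    apply hcomp.of_isClosed_subset _ inter_subset_left
    exact hf.preimage_isClosed_of_isClosed isClosed_closure isClosed_singleton
  obtain ⟨x, ⟨hxA, hxm⟩, hmax⟩ := hKc.exists_isMaxOn ⟨x1, hx1, rfl⟩
    (continuous_norm.continuousOn (s := closure A ∩ f ⁻¹' {f x1}))
  have hxm' : f x = f x1 := hxm
  have hxin : x ∈ A := by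
    by_contra hnot
    have : x ∈ frontier A := by
      rw [frontier, hA.interior_eq]
      exact ⟨hxA, hnot⟩
    have := h0 x this
    rw [hxm'] at this
    linarith
  have hpos : ∀ᶠ r in 𝓝[>] (0:ℝ), 0 < r := eventually_mem_nhdsWithin
  obtain ⟨r, hr1, hr2, hr3⟩ := ((hmv x hxin).and ((WMP_small hA hxin).and hpos)).exists
  have hsub : sphere x r ⊆ closure A := (sphere_subset_closedBall.trans hr2).trans subset_closure
  have heq := eq_of_circleAverage_le hr3 (hf.mono hsub) (m := f x1)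
    (fun y hy => hmin (hsub hy)) (by rw [← hxm']; exact hr1)
  obtain ⟨y, hy, hlt⟩ := WMP_far x hr3
  have h4 : ‖y‖ ≤ ‖x‖ := hmax (a := y) ⟨hsub hy, heq y hy⟩
  linarith

theorem strong_max {A : Set ℂ} (hA : IsOpen A) (hc : IsPreconnected A) {f : ℂ → ℝ}
    (hf : ContinuousOn f A) (hmv : ∀ x ∈ A, SuperMV f x) (h0 : ∀ x ∈ A, 0 ≤ f x)
    {x₀ : ℂ} (hx₀ : x₀ ∈ A) (hz : f x₀ = 0) : ∀ x ∈ A, f x = 0 := by
  have hu : IsOpen {x | x ∈ A ∧ f x = 0} := by
    rw [Metric.isOpen_iff]
    rintro x ⟨hx, hfx⟩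
    have h1 := (hmv x hx).and (WMP_small hA hx)
    rw [eventually_nhdsWithin_iff, Metric.eventually_nhds_iff] at h1
    obtain ⟨R, hR, h1⟩ := h1
    refine ⟨R, hR, fun y hy => ?_⟩
    by_cases hxy : y = x
    · rw [hxy]
      exact ⟨hx, hfx⟩
    · have hd : 0 < dist y x := dist_pos.2 hxy
      have h2 := h1 (y := dist y x) (by rw [Real.dist_eq, sub_zero, abs_of_pos hd]; exact hy) hd
      have hys : y ∈ sphere x (dist y x) := rfl
      have hsub : sphere x (dist y x) ⊆ A := sphere_subset_closedBall.trans h2.2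
      exact ⟨hsub hys, eq_of_circleAverage_le hd (hf.mono hsub) (m := 0)
        (fun w hw => h0 w (hsub hw)) (by rw [← hfx]; exact h2.1) y hys⟩
  have hv : IsOpen {x | x ∈ A ∧ f x ≠ 0} := hf.isOpen_inter_preimage hA isOpen_ne
  have hsub := hc.subset_left_of_subset_union hu hv (by
      rw [Set.disjoint_left]
      rintro x ⟨_, h1⟩ ⟨_, h2⟩
      exact h2 h1) (fun x hx => by
      by_cases h : f x = 0
      · exact Or.inl ⟨hx, h⟩
      · exact Or.inr ⟨hx, h⟩) ⟨x₀, hx₀, hx₀, hz⟩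
  intro x hx
  exact (hsub hx).2

end MStress
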